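import Pool.Agent.U80.WQ.Low2

/-!
# The rational numbers `t = a / b` of given `a ^ 2 + b ^ 2`
-/

set_option autoImplicit false

open scoped Classical

namespace Pool.Agent.U80.WQ

open Finset
open Pool.Agent.R413.SQ (Sp In SS Cl pr1 of_pr1)

/-- the height of the rational number `t = a / b` in lowest terms: `a ^ 2 + b ^ 2` -/
def ht (t : ℚ) : ℕ := t.num.natAbs ^ 2 + t.den ^ 2

theorem ht_int (t : ℚ) : ((ht t : ℕ) : ℤ) = t.num ^ 2 + (t.den : ℤ) ^ 2 := by
  unfold ht
  push_cast
  rw [sq_abs]

theorem finite_ht (X : ℕ) : {t : ℚ | ht t ≤ X}.Finite := by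
  refine Set.Finite.of_finite_image (f := fun t : ℚ => (t.num, t.den))
    (((Set.finite_Icc (-(X : ℤ)) X).prod (Set.finite_Icc 0 X)).subset ?_) ?_
  · rintro _ ⟨t, ht', rfl⟩
    have h : t.num.natAbs ^ 2 + t.den ^ 2 ≤ X := ht'
    have h1 : t.num.natAbs ≤ X := by
      have : t.num.natAbs ≤ t.num.natAbs ^ 2 := Nat.le_self_pow two_ne_zero _
      omega
    have h2 : t.den ≤ X := by
      have : t.den ≤ t.den ^ 2 := Nat.le_self_pow two_ne_zero _
      omega
    simp only [Set.mem_prod, Set.mem_Icc]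
    omega
  · intro t _ t' _ h
    simp only [Prod.mk.injEq] at h
    exact Rat.ext h.1 h.2

/-- the Gaussian integers with positive imaginary part -/
theorem fib_eq {D : ℕ} (hs : Squarefree D) : {t : ℚ | ht t = D}.ncard =
    {z : GaussianInt | z ∈ NZ (D : ℤ) ∧ 0 < z.im}.ncard := by
  refine Set.ncard_congr (fun t _ => (⟨t.num, t.den⟩ : GaussianInt)) ?_ ?_ ?_
  · intro t h
    have h' : ht t = D := h
    refine ⟨?_, ?_⟩
    · show _ = _
      rw [norm_eq, ← h', ht_int]
    · show (0 : ℤ) < (t.den : ℤ)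
      exact_mod_cast t.den_pos
  · intro t t' _ _ h
    simp only [Zsqrtd.mk.injEq] at h
    exact Rat.ext h.1 (by exact_mod_cast h.2)
  · rintro ⟨a, b⟩ ⟨h1, h2⟩
    have h2' : 0 < b := h2
    have h1' : a ^ 2 + b ^ 2 = (D : ℤ) := by
      have h3 : _ = _ := h1
      rw [norm_eq] at h3
      exact h3
    have hc : Nat.Coprime a.natAbs b.natAbs := by
      have h4 : (Int.gcd a b) ^ 2 ∣ D := by
        have h5 : ((Int.gcd a b : ℕ) : ℤ) ^ 2 ∣ (D : ℤ) := by
          rw [← h1']
          exact dvd_add (pow_dvd_pow_of_dvd (Int.gcd_dvd_left a b) 2)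
            (pow_dvd_pow_of_dvd (Int.gcd_dvd_right a b) 2)
        exact_mod_cast h5
      rw [sq] at h4
      exact Nat.isUnit_iff.1 (hs _ h4)
    have hb : (b.natAbs : ℤ) = b := Int.natAbs_of_nonneg h2'.le
    have hb0 : b.natAbs ≠ 0 := by omega
    refine ⟨⟨a, b.natAbs, hb0, hc⟩, ?_, ?_⟩
    · show ht _ = D
      have h5 : ((ht ⟨a, b.natAbs, hb0, hc⟩ : ℕ) : ℤ) = (D : ℤ) := by
        rw [ht_int]
        show a ^ 2 + (b.natAbs : ℤ) ^ 2 = D
        rw [hb, h1']
      exact_mod_cast h5
    · show (⟨a, (b.natAbs : ℤ)⟩ : GaussianInt) = ⟨a, b⟩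
      rw [hb]

theorem half_card {D : ℕ} (hs : Squarefree D) :
    (NZ (D : ℤ)).ncard = 2 * {z : GaussianInt | z ∈ NZ (D : ℤ) ∧ 0 < z.im}.ncard +
      (if D = 1 then 2 else 0) := by
  set A := {z : GaussianInt | z ∈ NZ (D : ℤ) ∧ 0 < z.im} with hA
  set B := {z : GaussianInt | z ∈ NZ (D : ℤ) ∧ z.im < 0} with hB
  set C := {z : GaussianInt | z ∈ NZ (D : ℤ) ∧ z.im = 0} with hC
  have hfin := NZ_finite (D : ℤ)
  have fA : A.Finite := hfin.subset fun z h => h.1
  have fB : B.Finite := hfin.subset fun z h => h.1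
  have fC : C.Finite := hfin.subset fun z h => h.1
  have e1 : NZ (D : ℤ) = (A ∪ B) ∪ C := by
    ext z
    constructor
    · intro h
      rcases lt_trichotomy z.im 0 with h1 | h1 | h1
      · exact Or.inl (Or.inr ⟨h, h1⟩)
      · exact Or.inr ⟨h, h1⟩
      · exact Or.inl (Or.inl ⟨h, h1⟩)
    · rintro ((h | h) | h)
      · exact h.1
      · exact h.1
      · exact h.1
  have d1 : Disjoint A B := by
    rw [Set.disjoint_left]
    rintro z ⟨_, h1⟩ ⟨_, h2⟩
    omega
  have d2 : Disjoint (A ∪ B) C := by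
    rw [Set.disjoint_left]
    rintro z h1 ⟨_, h2⟩
    rcases h1 with ⟨_, h1⟩ | ⟨_, h1⟩
    · omega
    · omega
  have e2 : B.ncard = A.ncard := by
    refine Set.ncard_congr (fun z _ => (⟨z.re, -z.im⟩ : GaussianInt)) ?_ ?_ ?_
    · rintro z ⟨h1, h2⟩
      refine ⟨?_, ?_⟩
      · show _ = _
        rw [norm_eq]
        have h3 : _ = _ := h1
        rw [norm_eq] at h3
        simp only
        rw [← h3]
        ring
      · show 0 < -z.im
        omega
    · intro z w _ _ h
      simp only [Zsqrtd.mk.injEq] at h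
      exact Zsqrtd.ext h.1 (by omega)
    · rintro z ⟨h1, h2⟩
      refine ⟨⟨z.re, -z.im⟩, ⟨?_, ?_⟩, ?_⟩
      · show _ = _
        rw [norm_eq]
        have h3 : _ = _ := h1
        rw [norm_eq] at h3
        simp only
        rw [← h3]
        ring
      · show -z.im < 0
        omega
      · simp
  have e3 : C.ncard = if D = 1 then 2 else 0 := by
    split_ifs with h
    · have : C = (({⟨1, 0⟩, ⟨-1, 0⟩} : Finset GaussianInt) : Set GaussianInt) := by
        ext z
        simp only [hC, NZ, Set.mem_ofPred_eq, norm_eq, coe_insert, coe_singleton,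
          Set.mem_insert_iff, Set.mem_singleton_iff]
        constructor
        · rintro ⟨h1, h2⟩
          rw [h2, h] at h1
          have h3 : z.re ^ 2 = 1 := by push_cast at h1; linarith
          have h3' : (z.re - 1) * (z.re + 1) = 0 := by linear_combination h3
          have h3'' : z.re = 1 ∨ z.re = -1 := by
            rcases mul_eq_zero.1 h3' with h5 | h5
            · left; linarith
            · right; linarith
          rcases h3'' with h4 | h4
          · left; exact Zsqrtd.ext h4 h2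
          · right; exact Zsqrtd.ext h4 h2
        · rintro (h1 | h1)
          · rw [h1, h]; simp
          · rw [h1, h]; simp
      rw [this, Set.ncard_coe_finset]
      rfl
    · have : C = ∅ := by
        rw [Set.eq_empty_iff_forall_notMem]
        rintro z ⟨h1, h2⟩
        have h3 : _ = _ := h1
        rw [norm_eq, h2] at h3
        have h4 : z.re.natAbs * z.re.natAbs ∣ D := by
          have : ((z.re.natAbs * z.re.natAbs : ℕ) : ℤ) = D := by
            push_cast
            rw [← h3, ← sq, sq_abs]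
            ring
          have h5 : z.re.natAbs * z.re.natAbs = D := by exact_mod_cast this
          rw [h5]
        have h5 := Nat.isUnit_iff.1 (hs _ h4)
        have h6 : z.re ^ 2 = 1 := by
          rw [← sq_abs, ← Int.natCast_natAbs, h5]
          norm_num
        rw [h6] at h3
        apply h
        have h7 : (D : ℤ) = 1 := by linarith
        exact_mod_cast h7
      rw [this, Set.ncard_empty]
  rw [e1, Set.ncard_union_eq d2 (fA.union fB) fC, Set.ncard_union_eq d1 fA fB, e2, e3]
  ring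

/-- the number of the rational numbers of height `D` -/
theorem ht_card {D : ℕ} (hs : Squarefree D)
    (h : ∀ p ∈ D.primeFactors, p.Prime ∧ p % 4 = 1) :
    ({t : ℚ | ht t = D}.ncard : ℝ) = 2 * 2 ^ D.primeFactors.card - (if D = 1 then 1 else 0) := by
  have h1 := half_card hs
  rw [← fib_eq hs] at h1
  have h2 := NZ_prod D.primeFactors h
  rw [prod_of hs] at h2
  rw [h2] at h1
  have h3 : (4 : ℝ) * 2 ^ D.primeFactors.card = 2 * ({t : ℚ | ht t = D}.ncard : ℝ) +
      (if D = 1 then 2 else 0) := by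
    have := congrArg (Nat.cast : ℕ → ℝ) h1
    push_cast at this
    exact this
  split_ifs at h3 ⊢ with hD
  · linarith
  · linarith

/-- the rational numbers `t` of height at most `X`, the height being odd and squarefree with the
property `Q` -/
def TS (X : ℕ) (Q : ℕ → Prop) : Set ℚ := {t | ht t ≤ X ∧ Odd (ht t) ∧ Squarefree (ht t) ∧ Q (ht t)}

theorem TS_finite (X : ℕ) (Q : ℕ → Prop) : (TS X Q).Finite :=
  (finite_ht X).subset fun _ h => h.1

/-- the primes of the height -/
theorem ht_cl {t : ℚ} (hs : Squarefree (ht t)) (ho : Odd (ht t)) :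
    ∀ p ∈ (ht t).primeFactors, p.Prime ∧ p % 4 = 1 := cl_of (ht_int t) hs ho

/-- **the number of the parameters** -/
theorem TS_card (X : ℕ) (Q : Finset ℕ → Prop) :
    ((TS X fun D => Q D.primeFactors).ncard : ℝ) = 2 * wt ((SS ∅ ∅ X).filter Q) -
      (if Q ∅ ∧ 1 ≤ X then 1 else 0) := by
  set F := (TS_finite X fun D => Q D.primeFactors).toFinset with hF
  have hFm : ∀ t, t ∈ F ↔ ht t ≤ X ∧ Odd (ht t) ∧ Squarefree (ht t) ∧ Q (ht t).primeFactors := by
    intro t
    rw [hF, Set.Finite.mem_toFinset]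
    rfl
  rw [Set.ncard_eq_toFinset_card _ (TS_finite X fun D => Q D.primeFactors), ← hF]
  have h1 : F.card = ∑ S ∈ (SS ∅ ∅ X).filter Q, (F.filter fun t => (ht t).primeFactors = S).card := by
    refine card_eq_sum_card_fiberwise fun t h => ?_
    rw [mem_coe] at h ⊢
    obtain ⟨a1, a2, a3, a4⟩ := (hFm t).1 h
    rw [mem_filter]
    exact ⟨mem_SS a3 a1 (ht_cl a3 a2), a4⟩
  have h2 : ∀ S ∈ (SS ∅ ∅ X).filter Q, ((F.filter fun t => (ht t).primeFactors = S).card : ℝ) =
      2 * 2 ^ S.card - (if S = ∅ then 1 else 0) := by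
    intro S hS
    rw [mem_filter] at hS
    obtain ⟨hS1, hS2⟩ := hS
    have hS3 := hS1
    unfold SS at hS3
    rw [mem_filter] at hS3
    have hSp : ∀ p ∈ S, p.Prime ∧ p % 4 = 1 := fun p hp => pr1 (hS3.2.1 p hp)
    have hSX := hS3.2.2
    obtain ⟨D, hD⟩ : ∃ D, D = ∏ p ∈ S, p := ⟨_, rfl⟩
    rw [← hD] at hSX
    have hpf : D.primeFactors = S := by rw [hD]; exact Nat.primeFactors_prod fun p hp => (hSp p hp).1
    have hsq : Squarefree D := by
      rw [hD]
      refine Finset.squarefree_prod_of_pairwise_isCoprime (fun p hp q hq hpq => ?_)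
        fun p hp => (hSp p hp).1.squarefree
      show IsRelPrime p q
      rw [← Nat.coprime_iff_isRelPrime]
      exact (Nat.coprime_primes (hSp p hp).1 (hSp q hq).1).mpr hpq
    have hodd : Odd D := by
      rw [hD]
      refine Finset.prod_induction _ Odd (fun a b => Odd.mul) odd_one fun p hp => ?_
      rw [Nat.odd_iff]
      have := (hSp p hp).2
      omega
    have e1 : (((F.filter fun t => (ht t).primeFactors = S) : Finset ℚ) : Set ℚ) =
        {t : ℚ | ht t = D} := by
      ext t
      rw [mem_coe, mem_filter, hFm]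
      constructor
      · rintro ⟨⟨-, -, a3, -⟩, a5⟩
        show ht t = D
        rw [← prod_of a3, a5, hD]
      · intro h
        have h' : ht t = D := h
        rw [h', hpf]
        exact ⟨⟨hSX, hodd, hsq, hS2⟩, rfl⟩
    have e2 := ht_card hsq (by rw [hpf]; exact hSp)
    rw [← e1, Set.ncard_coe_finset, hpf] at e2
    rw [e2]
    congr 1
    have : D = 1 ↔ S = ∅ := by
      rw [← hpf, Nat.primeFactors_eq_empty]
      constructor
      · exact Or.inr
      · rintro (h | h)
        · exact absurd h hsq.ne_zero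
        · exact h
    simp only [this]
  have h3 : (F.card : ℝ) = ∑ S ∈ (SS ∅ ∅ X).filter Q,
      (2 * 2 ^ S.card - (if S = ∅ then (1 : ℝ) else 0)) := by
    rw [h1]
    push_cast
    exact sum_congr rfl h2
  rw [h3, sum_sub_distrib, ← mul_sum]
  congr 1
  rw [sum_ite_eq']
  have h4 : ∅ ∈ (SS ∅ ∅ X).filter Q ↔ Q ∅ ∧ 1 ≤ X := by
    rw [mem_filter]
    unfold SS
    rw [mem_filter, mem_powerset, prod_empty]
    constructor
    · rintro ⟨⟨_, _, h⟩, h'⟩
      exact ⟨h', h⟩
    · rintro ⟨h', h⟩
      exact ⟨⟨empty_subset _, fun p hp => absurd hp (notMem_empty p), h⟩, h'⟩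
  simp only [h4]

end Pool.Agent.U80.WQ
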