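import Pool.Agent.R413.SQ.Stm

/-!
# The weighted counts: a set of primes `S` has the weight `2 ^ |S|`

The number of pairs `(a, b)` of integers with `a ^ 2 + b ^ 2 = D` is `4 * 2 ^ ω(D)` for squarefree `D` with all
prime factors `1` modulo `4`.
-/

set_option autoImplicit false

open scoped Classical

namespace Pool.Agent.U80.WQ

open Finset

/-- the weight of a family of sets -/
noncomputable def wt (F : Finset (Finset ℕ)) : ℝ := ∑ S ∈ F, (2 : ℝ) ^ S.card

theorem wt_nonneg (F : Finset (Finset ℕ)) : 0 ≤ wt F := sum_nonneg fun _ _ => by positivity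

theorem wt_mono {F G : Finset (Finset ℕ)} (h : F ⊆ G) : wt F ≤ wt G :=
  sum_le_sum_of_subset_of_nonneg h fun _ _ _ => by positivity

theorem wt_union (F G : Finset (Finset ℕ)) : wt (F ∪ G) ≤ wt F + wt G := by
  unfold wt
  rw [← sum_union_inter]
  have : 0 ≤ ∑ S ∈ F ∩ G, (2 : ℝ) ^ S.card := sum_nonneg fun _ _ => by positivity
  linarith

theorem wt_disj {F G : Finset (Finset ℕ)} (h : Disjoint F G) : wt (F ∪ G) = wt F + wt G :=
  sum_union h

theorem wt_le {F : Finset (Finset ℕ)} {k : ℕ} (h : ∀ S ∈ F, S.card ≤ k) :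
    wt F ≤ 2 ^ k * (F.card : ℝ) := by
  unfold wt
  calc ∑ S ∈ F, (2 : ℝ) ^ S.card ≤ ∑ _S ∈ F, (2 : ℝ) ^ k :=
        sum_le_sum fun S hS => pow_le_pow_right₀ (by norm_num) (h S hS)
    _ = 2 ^ k * (F.card : ℝ) := by rw [sum_const, nsmul_eq_mul]; ring

theorem wt_eq {F : Finset (Finset ℕ)} {k : ℕ} (h : ∀ S ∈ F, S.card = k) :
    wt F = 2 ^ k * (F.card : ℝ) := by
  unfold wt
  rw [sum_congr rfl fun S hS => by rw [h S hS], sum_const, nsmul_eq_mul]
  ring

theorem wt_biUnion {ι : Type} (A : Finset ι) (f : ι → Finset (Finset ℕ)) :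
    wt (A.biUnion f) ≤ ∑ i ∈ A, wt (f i) := by
  induction A using Finset.induction_on with
  | empty => simp [wt]
  | insert a s ha ih =>
    rw [biUnion_insert, sum_insert ha]
    exact (wt_union _ _).trans (add_le_add le_rfl ih)

/-- the weight is the sum of the weights of the fibres -/
theorem wt_fiber {ι : Type} [DecidableEq ι] (F : Finset (Finset ℕ)) (g : Finset ℕ → ι) (T : Finset ι)
    (h : ∀ S ∈ F, g S ∈ T) : wt F = ∑ e ∈ T, wt (F.filter fun S => g S = e) :=
  (sum_fiberwise_of_maps_to h _).symm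

theorem card_le_wt (F : Finset (Finset ℕ)) : (F.card : ℝ) ≤ wt F := by
  unfold wt
  rw [card_eq_sum_ones]
  push_cast
  exact sum_le_sum fun S _ => one_le_pow₀ (by norm_num)

end Pool.Agent.U80.WQ
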