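import Pool.Agent.R413.SQ.HAL
import Pool.Agent.U80.WQ.Wt

/-!
# The weighted logarithmic density for a quadratic character
-/

set_option autoImplicit false

open scoped Classical

namespace Pool.Agent.U80.WQ

open Finset
open Pool.Agent.R413.SQ
open Pool.Agent.R413.SQ.HAL
open Pool.Agent.Y475.CQ (tsum_le zeta_le part_le sum_zero pow_small main_le)
open Pool.Agent.Y703.CQ (nr sg prs HB S_EQ ext GdA S_SYM S_C2 S_LA c2 S_MER S_CHE)

theorem w_HAL : ∃ C : ℝ, 1 ≤ C ∧ ∀ (W : Finset ℕ) (T : ℕ), W.Nonempty →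
    (∀ u ∈ W, u.Prime ∧ u % 4 = 1) → 2 ≤ T →
    ∑ S ∈ HD W T, (2 : ℝ) ^ S.card * ((1 : ℝ) / ((∏ p ∈ S, p : ℕ) : ℝ)) ≤
      C * Real.log ((∏ u ∈ W, u : ℕ) : ℝ) * (Real.log T) ^ (1 / 4 : ℝ) := by
  refine ⟨1000, by norm_num, fun W T hW hp hT => ?_⟩
  set M := ∏ u ∈ W, u with hM
  have lT : 0 < Real.log T := Real.log_pos (by exact_mod_cast (by omega : 1 < T))
  obtain ⟨σ, hσd⟩ : ∃ σ : ℝ, σ = 1 + 1 / Real.log T := ⟨_, rfl⟩
  have hσ : 1 < σ := by
    rw [hσd]
    have : 0 < 1 / Real.log T := by positivity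
    linarith
  obtain ⟨P, hPd⟩ : ∃ P : Finset ℕ, P = (range (T + 1)).filter
    (fun p => Sp p ∧ p ∉ W ∧ ∑ u ∈ W, nr p u = 0) := ⟨_, rfl⟩
  have hP : ∀ p ∈ P, Sp p ∧ p ∉ W ∧ ∑ u ∈ W, nr p u = 0 := by
    intro p hp'
    rw [hPd, mem_filter] at hp'
    exact hp'.2
  have hmain := main_le (cc M) (univ : Finset (Fin 3)) (fun i _ n => cc_val M i n) σ hσ P
    (fun p h => (hP p h).1.1) (fun i _ p h => cc_one W hp p (hP p h).1 (hP p h).2.1 (hP p h).2.2 i)
  -- the product of the values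
  have hM1 : 0 < Real.log (M : ℝ) := by
    obtain ⟨v, hv⟩ := hW
    have h1 : v ∣ M := dvd_prod_of_mem (fun u => u) hv
    have h2 : 0 < M := by
      rw [hM]
      exact prod_pos fun u hu => (hp u hu).1.pos
    have h3 : 2 ≤ M := (hp v hv).1.two_le.trans (Nat.le_of_dvd h2 h1)
    exact Real.log_pos (by exact_mod_cast (by omega : 1 < M))
  have hlog2 := Real.log_two_gt_d9
  have lT2 : Real.log 2 ≤ Real.log T := Real.log_le_log (by norm_num) (by exact_mod_cast hT)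
  have hprod : ∏ V ∈ (univ : Finset (Fin 3)).powerset,
      ∑' n : ℕ, (∏ i ∈ V, cc M i) n * (n : ℝ) ^ (-σ) ≤
      3 * Real.log T * 10 ^ 7 * (Real.log (M : ℝ)) ^ 4 := by
    have h1 : ∏ V ∈ (univ : Finset (Fin 3)).powerset,
        ∑' n : ℕ, (∏ i ∈ V, cc M i) n * (n : ℝ) ^ (-σ) ≤
        ∏ V ∈ (univ : Finset (Fin 3)).powerset, (if V = ∅ then 3 * Real.log T else
          if (2 : Fin 3) ∈ V then 10 * Real.log (M : ℝ) else 10) := by
      refine prod_le_prod (fun V hV => hmain.2 V hV) fun V _ => ?_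
      by_cases hVe : V = ∅
      · rw [if_pos hVe, hVe]
        have e : ∑' n : ℕ, (∏ i ∈ (∅ : Finset (Fin 3)), cc M i) n * (n : ℝ) ^ (-σ) =
            ∑' n : ℕ, (1 : ℝ) * (n : ℝ) ^ (-σ) := by
          refine tsum_congr fun n => ?_
          rw [prod_empty]
          rfl
        rw [e]
        refine (zeta_le σ hσ).trans ?_
        have e2 : 1 / (σ - 1) = Real.log T := by
          rw [hσd]
          field_simp
          ring
        rw [e2]
        linarith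
      · rw [if_neg hVe]
        exact L_le W hW hp V (nonempty_iff_ne_empty.2 hVe) σ hσ
    refine h1.trans (le_of_eq ?_)
    rw [prod_ite, prod_ite, prod_const, prod_const, prod_const]
    have c1 : (filter (fun V : Finset (Fin 3) => V = ∅) univ.powerset).card = 1 := by decide
    have c2 : (filter (fun V : Finset (Fin 3) => (2 : Fin 3) ∈ V)
      (filter (fun V : Finset (Fin 3) => ¬ V = ∅) univ.powerset)).card = 4 := by decide
    have c3 : (filter (fun V : Finset (Fin 3) => (2 : Fin 3) ∉ V)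
      (filter (fun V : Finset (Fin 3) => ¬ V = ∅) univ.powerset)).card = 3 := by decide
    rw [c1, c2, c3]
    ring
  have hbig := hmain.1.trans hprod
  have hc : 2 ^ (univ : Finset (Fin 3)).card = 8 := by decide
  rw [hc] at hbig
  -- the sum
  have hx : ∀ p ∈ P, 0 < (p : ℝ) ^ (-σ) ∧ (p : ℝ) ^ (-σ) < 1 := fun p h =>
    pow_small p (hP p h).1.1.two_le σ hσ
  have hsum : ∑ S ∈ HD W T, (2 : ℝ) ^ S.card * ((1 : ℝ) / ((∏ p ∈ S, p : ℕ) : ℝ)) ≤
      3 * (∏ p ∈ P, (1 - (p : ℝ) ^ (-σ))⁻¹) ^ 2 := by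
    have s1 : ∑ S ∈ HD W T, (2 : ℝ) ^ S.card * ((1 : ℝ) / ((∏ p ∈ S, p : ℕ) : ℝ)) ≤
        ∑ S ∈ P.powerset, 3 * ∏ p ∈ S, (2 * (p : ℝ) ^ (-σ)) := by
      have hsub : HD W T ⊆ P.powerset := by
        intro S hS
        unfold HD at hS
        rw [mem_filter, mem_powerset] at hS
        rw [mem_powerset]
        intro p hpS
        rw [hPd, mem_filter]
        exact ⟨hS.1 hpS, hS.2.1 p hpS⟩
      refine le_trans (sum_le_sum fun S hS => ?_) (sum_le_sum_of_subset_of_nonneg hsub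
        fun S hS _ => ?_)
      · have hSP := hsub hS
        rw [mem_powerset] at hSP
        unfold HD at hS
        rw [mem_filter] at hS
        have hle := hS.2.2
        have hpos : 0 < ∏ p ∈ S, p := prod_pos fun p h => (hP p (hSP h)).1.1.pos
        have e : ∏ p ∈ S, (2 * (p : ℝ) ^ (-σ)) =
            2 ^ S.card * ((∏ p ∈ S, p : ℕ) : ℝ) ^ (-σ) := by
          rw [prod_mul_distrib, prod_const, Nat.cast_prod, Real.finsetProd_rpow]
          intro p _
          exact Nat.cast_nonneg p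
        rw [e]
        generalize ∏ p ∈ S, p = N at hle hpos ⊢
        have hN : (0 : ℝ) < (N : ℝ) := by exact_mod_cast hpos
        have hNT : (N : ℝ) ≤ (T : ℝ) := by exact_mod_cast hle
        have hN1 : (1 : ℝ) ≤ (N : ℝ) := by exact_mod_cast hpos
        have h2 : (N : ℝ) ^ (σ - 1) ≤ 3 := by
          have a1 : (N : ℝ) ^ (σ - 1) = Real.exp (Real.log N * (σ - 1)) :=
            Real.rpow_def_of_pos hN _
          have a2 : Real.log N * (σ - 1) ≤ 1 := by
            have a3 : σ - 1 = 1 / Real.log T := by rw [hσd]; ring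
            rw [a3, mul_one_div, div_le_one lT]
            exact Real.log_le_log hN hNT
          rw [a1]
          exact (Real.exp_le_exp.2 a2).trans (Real.exp_one_lt_d9.le.trans (by norm_num))
        have h3 : (N : ℝ) ^ (σ - 1) * (N : ℝ) ^ (-σ) = 1 / N := by
          rw [← Real.rpow_add hN]
          have : σ - 1 + -σ = -1 := by ring
          rw [this, Real.rpow_neg_one, one_div]
        rw [← h3]
        have h4 : (N : ℝ) ^ (σ - 1) * (N : ℝ) ^ (-σ) ≤ 3 * (N : ℝ) ^ (-σ) :=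
          mul_le_mul_of_nonneg_right h2 (Real.rpow_nonneg hN.le _)
        calc (2 : ℝ) ^ S.card * ((N : ℝ) ^ (σ - 1) * (N : ℝ) ^ (-σ)) ≤
              2 ^ S.card * (3 * (N : ℝ) ^ (-σ)) := mul_le_mul_of_nonneg_left h4 (by positivity)
          _ = _ := by ring
      · refine mul_nonneg (by norm_num) (prod_nonneg fun p _ => ?_)
        exact mul_nonneg (by norm_num) (Real.rpow_nonneg (Nat.cast_nonneg _) _)
    refine s1.trans ?_
    rw [← mul_sum, ← prod_one_add, ← prod_pow]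
    refine mul_le_mul_of_nonneg_left (prod_le_prod (fun p h => ?_) fun p h => ?_) (by norm_num)
    · have := (hx p h).1
      positivity
    · obtain ⟨a1, a2⟩ := hx p h
      have a3 : 0 < (1 - (p : ℝ) ^ (-σ)) ^ 2 := by
        have : 0 < 1 - (p : ℝ) ^ (-σ) := by linarith
        positivity
      rw [inv_pow, ← one_div, le_div_iff₀ a3]
      generalize (p : ℝ) ^ (-σ) = x at a1 a2 a3 ⊢
      have e : (1 + 2 * x) * (1 - x) ^ 2 = 1 - x ^ 2 * (3 - 2 * x) := by ring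
      rw [e]
      have : 0 ≤ x ^ 2 * (3 - 2 * x) := mul_nonneg (sq_nonneg x) (by linarith)
      linarith
  generalize ∏ p ∈ P, (1 - (p : ℝ) ^ (-σ))⁻¹ = Q at hbig hsum
  have hH0 : 0 ≤ ∑ S ∈ HD W T, (2 : ℝ) ^ S.card * ((1 : ℝ) / ((∏ p ∈ S, p : ℕ) : ℝ)) :=
    sum_nonneg fun S _ => by positivity
  generalize ∑ S ∈ HD W T, (2 : ℝ) ^ S.card * ((1 : ℝ) / ((∏ p ∈ S, p : ℕ) : ℝ)) = H at hsum hH0 ⊢
  generalize Real.log (M : ℝ) = Y at hbig hM1 ⊢
  apply le_of_pow_le_pow_left₀ (n := 8) (by norm_num) (by positivity)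
  have e1 : (1000 * Y * Real.log T ^ (1 / 4 : ℝ)) ^ 8 =
      1000 ^ 8 * Y ^ 8 * Real.log T ^ 2 := by
    rw [mul_pow, mul_pow, ← Real.rpow_natCast (Real.log T ^ (1 / 4 : ℝ)), ← Real.rpow_mul lT.le]
    have e2 : Real.log T ^ ((1 / 4 : ℝ) * ((8 : ℕ) : ℝ)) = Real.log T ^ 2 := by
      rw [← Real.rpow_natCast (Real.log T) 2]
      norm_num
    rw [e2]
  rw [e1]
  have hQ8 : 0 ≤ Q ^ 8 := by positivity
  calc H ^ 8 ≤ (3 * Q ^ 2) ^ 8 := pow_le_pow_left₀ hH0 hsum 8
    _ = 3 ^ 8 * (Q ^ 8) ^ 2 := by ring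
    _ ≤ 3 ^ 8 * (3 * Real.log T * 10 ^ 7 * Y ^ 4) ^ 2 := by
        exact mul_le_mul_of_nonneg_left (pow_le_pow_left₀ hQ8 hbig 2) (by norm_num)
    _ = (3 ^ 10 * 10 ^ 14) * (Y ^ 8 * Real.log T ^ 2) := by ring
    _ ≤ 1000 ^ 8 * (Y ^ 8 * Real.log T ^ 2) := by
        apply mul_le_mul_of_nonneg_right (by norm_num) (by positivity)
    _ = 1000 ^ 8 * Y ^ 8 * Real.log T ^ 2 := by ring

end Pool.Agent.U80.WQ
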