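import Pool.Agent.Y703.CX.Stm
import Pool.Agent.U80.WQ.Wt

/-!
# The weighted counting function of a family of sets of primes closed under subsets
-/

set_option autoImplicit false

open Finset
open scoped Classical

namespace Pool.Agent.U80.WQ

theorem w_sie (Y : ℕ) (L : Finset (Finset ℕ)) (hY : 1 ≤ Y)
    (h1 : ∀ S ∈ L, (∀ p ∈ S, p.Prime) ∧ ∏ p ∈ S, p ≤ Y)
    (h2 : ∀ S ∈ L, ∀ T, T ⊆ S → T ∈ L) :
    wt L * Real.log Y ≤
      (1 + 2 * Real.log 4) * Y * ∑ S ∈ L, (2 : ℝ) ^ S.card * (1 / ((∏ p ∈ S, p : ℕ) : ℝ)) := by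
  have Y0 : (0 : ℝ) < Y := by exact_mod_cast hY
  have P0 : ∀ S ∈ L, (0 : ℝ) < ((∏ p ∈ S, p : ℕ) : ℝ) := by
    intro S hS
    have : 0 < ∏ p ∈ S, p := Finset.prod_pos fun p hp => ((h1 S hS).1 p hp).pos
    exact_mod_cast this
  -- step one
  have e1 : wt L * Real.log Y ≤
      ∑ S ∈ L, (∑ p ∈ S, 2 ^ S.card * Real.log p) +
        ∑ S ∈ L, (Y : ℝ) * (2 ^ S.card * (1 / ((∏ p ∈ S, p : ℕ) : ℝ))) := by
    unfold wt
    rw [← sum_add_distrib, sum_mul]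
    refine sum_le_sum fun S hS => ?_
    have n0 := P0 S hS
    have h3 := Real.log_le_sub_one_of_pos (show (0 : ℝ) < Y / ((∏ p ∈ S, p : ℕ) : ℝ) by positivity)
    rw [Real.log_div Y0.ne' n0.ne'] at h3
    have h4 : Real.log ((∏ p ∈ S, p : ℕ) : ℝ) = ∑ p ∈ S, Real.log p := by
      rw [Nat.cast_prod, Real.log_prod]
      intro p hp
      have := ((h1 S hS).1 p hp).pos
      positivity
    rw [h4] at h3
    have h5 : (Y : ℝ) * (2 ^ S.card * (1 / ((∏ p ∈ S, p : ℕ) : ℝ))) =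
        2 ^ S.card * (Y / ((∏ p ∈ S, p : ℕ) : ℝ)) := by ring
    rw [h5, ← mul_sum, ← mul_add]
    apply mul_le_mul_of_nonneg_left _ (by positivity)
    linarith
  -- step two
  have e2 : ∑ S ∈ L, (∑ p ∈ S, 2 ^ S.card * Real.log p) ≤
      ∑ T ∈ L, 2 ^ (T.card + 1) * Chebyshev.theta ((Y : ℝ) * (1 / ((∏ p ∈ T, p : ℕ) : ℝ))) := by
    have e3 : ∑ S ∈ L, (∑ p ∈ S, 2 ^ S.card * Real.log p) =
        ∑ x ∈ L.sigma (fun S => S), 2 ^ ((x.1.erase x.2).card + 1) * Real.log x.2 := by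
      rw [sum_sigma]
      refine sum_congr rfl fun S _ => sum_congr rfl fun p hp => ?_
      simp only
      rw [card_erase_add_one hp]
    have e4 : ∑ T ∈ L, 2 ^ (T.card + 1) * Chebyshev.theta ((Y : ℝ) * (1 / ((∏ p ∈ T, p : ℕ) : ℝ))) =
        ∑ x ∈ L.sigma (fun T => (Ioc 0 ⌊(Y : ℝ) * (1 / ((∏ p ∈ T, p : ℕ) : ℝ))⌋₊).filter Nat.Prime),
          2 ^ (x.1.card + 1) * Real.log x.2 := by
      rw [sum_sigma]
      refine sum_congr rfl fun T _ => ?_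
      rw [Chebyshev.theta, mul_sum]
    rw [e3, e4]
    have hinj : Set.InjOn (fun x : (_ : Finset ℕ) × ℕ => (⟨x.1.erase x.2, x.2⟩ : (_ : Finset ℕ) × ℕ))
        (L.sigma (fun S => S) : Finset ((_ : Finset ℕ) × ℕ)) := by
      rintro ⟨S, p⟩ hS ⟨T, q⟩ hT hST
      simp only [coe_sigma, Set.mem_sigma_iff, mem_coe] at hS hT
      simp only [Sigma.mk.injEq, heq_eq_eq] at hST
      obtain ⟨h3, h4⟩ := hST
      subst h4
      have : S = T := by
        rw [← insert_erase hS.2, ← insert_erase hT.2, h3]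
      subst this
      rfl
    rw [← sum_image (f := fun x : (_ : Finset ℕ) × ℕ => 2 ^ (x.1.card + 1) * Real.log x.2) hinj]
    refine sum_le_sum_of_subset_of_nonneg ?_ ?_
    · intro x hx
      rw [mem_image] at hx
      obtain ⟨⟨S, p⟩, hS, rfl⟩ := hx
      rw [mem_sigma] at hS
      simp only at hS
      rw [mem_sigma, mem_filter, mem_Ioc]
      simp only
      have hp := (h1 S hS.1).1 p hS.2
      have hT : S.erase p ∈ L := h2 S hS.1 _ (erase_subset _ _)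
      refine ⟨hT, ⟨hp.pos, ?_⟩, hp⟩
      apply Nat.le_floor
      have n0 := P0 _ hT
      rw [mul_one_div, le_div_iff₀ n0]
      have h3 : p * ∏ q ∈ S.erase p, q ≤ Y := by
        rw [mul_prod_erase S (fun q => q) hS.2]
        exact (h1 S hS.1).2
      exact_mod_cast h3
    · intro x _ _
      exact mul_nonneg (by positivity) (Real.log_natCast_nonneg _)
  have e5 : ∑ T ∈ L, 2 ^ (T.card + 1) *
      Chebyshev.theta ((Y : ℝ) * (1 / ((∏ p ∈ T, p : ℕ) : ℝ))) ≤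
      ∑ T ∈ L, 2 * Real.log 4 * ((Y : ℝ) * (2 ^ T.card * (1 / ((∏ p ∈ T, p : ℕ) : ℝ)))) := by
    refine sum_le_sum fun T hT => ?_
    have h6 : Chebyshev.theta ((Y : ℝ) * (1 / ((∏ p ∈ T, p : ℕ) : ℝ))) ≤
        Real.log 4 * ((Y : ℝ) * (1 / ((∏ p ∈ T, p : ℕ) : ℝ))) := by
      apply Chebyshev.theta_le_log4_mul_x
      have := P0 T hT
      positivity
    calc _ ≤ 2 ^ (T.card + 1) * (Real.log 4 * ((Y : ℝ) * (1 / ((∏ p ∈ T, p : ℕ) : ℝ)))) :=
          mul_le_mul_of_nonneg_left h6 (by positivity)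
      _ = _ := by ring
  rw [← mul_sum, ← mul_sum] at e5
  rw [← mul_sum] at e1
  have : (1 + 2 * Real.log 4) * Y * ∑ S ∈ L, (2 : ℝ) ^ S.card * (1 / ((∏ p ∈ S, p : ℕ) : ℝ)) =
    2 * Real.log 4 * (Y * ∑ S ∈ L, (2 : ℝ) ^ S.card * (1 / ((∏ p ∈ S, p : ℕ) : ℝ))) +
      Y * ∑ S ∈ L, (2 : ℝ) ^ S.card * (1 / ((∏ p ∈ S, p : ℕ) : ℝ)) := by ring
  rw [this]
  linarith

end Pool.Agent.U80.WQ
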