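import Pool.Agent.R413.SQ.BAD
import Pool.Agent.U80.WQ.Wt
import Pool.Agent.U80.WQ.WSie
import Pool.Agent.U80.WQ.WHal

/-! # The weight of the sets with degenerate labels -/

set_option autoImplicit false
set_option linter.unusedVariables false

open scoped Classical

namespace Pool.Agent.U80.WQ

open Finset
open Pool.Agent.Y699.E (sum_le_inj)
open Pool.Agent.Y703.CX (sm la jj XX eL zz kk S_SIE)
open Pool.Agent.R413.SQ
open Pool.Agent.R413.SQ.BAD
open Pool.Agent.Y703.CQ (nr sg prs HB S_EQ ext GdA S_SYM S_C2 S_LA c2 S_MER S_CHE)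
open Pool.Agent.Y37.CX (ev_pow Pm Pm_nonneg Pm_mono Pm_le)

/-- the sum over the sets of inert primes -/
lemma w_sum_NI (I : Finset ℕ) (Y : ℕ) :
    ∑ T ∈ (NI I Y).powerset, (2 : ℝ) ^ T.card * ((1 : ℝ) / ((∏ p ∈ T, p : ℕ) : ℝ)) ≤
      Real.exp (2 * ∑ r ∈ NI I Y, (1 : ℝ) / r) := by
  have e1 : ∀ T ∈ (NI I Y).powerset, (2 : ℝ) ^ T.card * ((1 : ℝ) / ((∏ p ∈ T, p : ℕ) : ℝ)) =
      ∏ p ∈ T, (2 * (1 / (p : ℝ))) := by
    intro T _
    rw [prod_mul_distrib, prod_const, prod_div_distrib, prod_const_one]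
    push_cast
    rfl
  rw [sum_congr rfl e1]
  calc ∑ S ∈ (NI I Y).powerset, ∏ p ∈ S, (2 * (1 / (p : ℝ))) =
        ∏ p ∈ NI I Y, (1 + 2 * (1 / (p : ℝ))) := by
        rw [prod_one_add]
    _ ≤ ∏ p ∈ NI I Y, Real.exp (2 * (1 / (p : ℝ))) := by
        refine prod_le_prod (fun _ _ => by positivity) fun p _ => ?_
        rw [add_comm]
        exact Real.add_one_le_exp _
    _ = Real.exp (2 * ∑ p ∈ NI I Y, 1 / (p : ℝ)) := by rw [mul_sum, Real.exp_sum]

/-- the logarithmic sum over the family -/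
lemma w_fam_sum {I K : Finset ℕ} (hO : Ok I K) (W : Finset ℕ) (Y : ℕ) :
    ∑ T ∈ fam I W Y, (2 : ℝ) ^ T.card * ((1 : ℝ) / ((∏ p ∈ T, p : ℕ) : ℝ)) ≤
      (∑ S ∈ HD W Y, (2 : ℝ) ^ S.card * ((1 : ℝ) / ((∏ p ∈ S, p : ℕ) : ℝ))) *
        ∑ T ∈ (NI I Y).powerset, (2 : ℝ) ^ T.card * ((1 : ℝ) / ((∏ p ∈ T, p : ℕ) : ℝ)) := by
  rw [sum_mul_sum, ← sum_product' (f := fun S T => (2 : ℝ) ^ S.card *
    ((1 : ℝ) / ((∏ p ∈ S, p : ℕ) : ℝ)) *
    ((2 : ℝ) ^ T.card * ((1 : ℝ) / ((∏ p ∈ T, p : ℕ) : ℝ))))]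
  have hpr : ∀ T ∈ fam I W Y, ∀ p ∈ T, p.Prime := by
    intro T hT p hp
    rw [fam, mem_filter] at hT
    rcases hT.2.1 p hp with h | h
    · exact h.1.1
    · exact h.1
  refine sum_le_inj (fun T => (T.filter (fun p => R413.SQ.mk p = 1), T.filter (fun p => ¬ R413.SQ.mk p = 1)))
    ?_ ?_ ?_ ?_
  · intro T hT
    have hp0 := hpr T hT
    rw [fam, mem_filter, mem_powerset] at hT
    obtain ⟨h1, h2, h3⟩ := hT
    rw [mem_product]
    refine ⟨?_, ?_⟩
    · rw [HD, mem_filter, mem_powerset]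
      refine ⟨(filter_subset _ _).trans h1, fun p hp => ?_,
        (prod_sub_le (filter_subset _ _) hp0).trans h3⟩
      obtain ⟨k1, k2⟩ := mem_filter.1 hp
      rcases h2 p k1 with h | h
      · exact h
      · exact absurd k2 (In.ne h)
    · rw [mem_powerset]
      intro p hp
      obtain ⟨k1, k2⟩ := mem_filter.1 hp
      rw [NI, mem_filter]
      refine ⟨h1 k1, ?_⟩
      rcases h2 p k1 with h | h
      · exact absurd h.1.2.1 k2
      · exact h
  · intro S hS T hT h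
    simp only [Prod.mk.injEq] at h
    rw [← filter_union_filter_not_eq (fun p => R413.SQ.mk p = 1) S,
      ← filter_union_filter_not_eq (fun p => R413.SQ.mk p = 1) T, h.1, h.2]
  · intro T hT
    apply le_of_eq
    have e1 : ∏ p ∈ T, p = (∏ p ∈ T.filter (fun p => R413.SQ.mk p = 1), p) *
        ∏ p ∈ T.filter (fun p => ¬ R413.SQ.mk p = 1), p :=
      (prod_filter_mul_prod_filter_not T (fun p => R413.SQ.mk p = 1) _).symm
    have e2 : T.card = (T.filter (fun p => R413.SQ.mk p = 1)).card +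
        (T.filter (fun p => ¬ R413.SQ.mk p = 1)).card :=
      (card_filter_add_card_filter_not _).symm
    simp only
    rw [e1, e2]
    push_cast
    rw [← one_div_mul_one_div, pow_add]
    ring
  · intro x _
    positivity

/-- the size of the family -/
lemma w_fam_card {I K : Finset ℕ} (hO : Ok I K) {C₂ : ℝ} (h21 : 1 ≤ C₂)
    (hHAL : ∀ (W : Finset ℕ) (T : ℕ), W.Nonempty → (∀ u ∈ W, u.Prime ∧ u % 4 = 1) → 2 ≤ T →
      ∑ S ∈ HD W T, (2 : ℝ) ^ S.card * ((1 : ℝ) / ((∏ p ∈ S, p : ℕ) : ℝ)) ≤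
        C₂ * Real.log ((∏ u ∈ W, u : ℕ) : ℝ) * (Real.log T) ^ (1 / 4 : ℝ))
    {W : Finset ℕ} (hW : W.Nonempty) (hW1 : ∀ u ∈ W, u.Prime ∧ u % 4 = 1) {Y : ℕ} (hY : 2 ≤ Y) :
    wt (fam I W Y) * Real.log Y ≤ (1 + 2 * Real.log 4) * Y *
      ((C₂ * Real.log ((∏ u ∈ W, u : ℕ) : ℝ) * (Real.log Y) ^ (1 / 4 : ℝ)) *
        Real.exp (2 * ∑ r ∈ NI I Y, (1 : ℝ) / r)) := by
  have h1 := w_sie Y (fam I W Y) (by omega) (by
    intro S hS
    rw [fam, mem_filter] at hS
    refine ⟨fun p hp => ?_, hS.2.2⟩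
    rcases hS.2.1 p hp with h | h
    · exact h.1.1
    · exact h.1) (by
    intro S hS T hTS
    rw [fam, mem_filter, mem_powerset] at hS ⊢
    obtain ⟨h1, h2, h3⟩ := hS
    refine ⟨hTS.trans h1, fun p hp => h2 p (hTS hp), ?_⟩
    refine (prod_sub_le hTS fun p hp => ?_).trans h3
    rcases h2 p hp with h | h
    · exact h.1.1
    · exact h.1)
  have hl4 : 0 ≤ Real.log 4 := Real.log_nonneg (by norm_num)
  refine h1.trans (mul_le_mul_of_nonneg_left ((w_fam_sum hO W Y).trans ?_) (by positivity))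
  have h2 := hHAL W Y hW hW1 hY
  have h3 := w_sum_NI I Y
  have h4 : 0 ≤ ∑ T ∈ (NI I Y).powerset, (2 : ℝ) ^ T.card *
      ((1 : ℝ) / ((∏ p ∈ T, p : ℕ) : ℝ)) :=
    sum_nonneg fun _ _ => by positivity
  have h5 : 0 ≤ ∑ S ∈ HD W Y, (2 : ℝ) ^ S.card * ((1 : ℝ) / ((∏ p ∈ S, p : ℕ) : ℝ)) :=
    sum_nonneg fun _ _ => by positivity
  exact mul_le_mul h2 h3 h4 (h5.trans h2)

/-- the weight of the sets with given small part -/
lemma w_fiber (I K : Finset ℕ) (X z : ℕ) {S₀ : Finset ℕ} (hS₀ : ∀ u ∈ S₀, u.Prime) :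
    wt ((SS I K X).filter fun S => ¬ Nd (sm z S) (la z S) ∧ sm z S = S₀) ≤
      2 ^ S₀.card * ∑ W ∈ S₀.powerset, if W.Nonempty ∧ (∀ u ∈ W, u.Prime ∧ u % 4 = 1) then
        wt (fam I W (X / ∏ p ∈ S₀, p)) else 0 := by
  set F := (SS I K X).filter fun S => ¬ Nd (sm z S) (la z S) ∧ sm z S = S₀ with hF
  have hinj : Set.InjOn (fun S => la z S) (F : Set (Finset ℕ)) := by
    intro S hS T hT h
    rw [mem_coe, hF, mem_filter] at hS hT
    simp only at h
    have key : ∀ S : Finset ℕ, sm z S ∪ la z S = S := fun S => filter_union_filter_not_eq _ _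
    rw [← key S, ← key T, hS.2.2, hT.2.2, h]
  have e1 : wt F = 2 ^ S₀.card * wt (F.image fun S => la z S) := by
    unfold wt
    rw [sum_image hinj, mul_sum]
    refine sum_congr rfl fun S hS => ?_
    rw [hF, mem_filter] at hS
    have : S.card = (sm z S).card + (la z S).card :=
      (card_filter_add_card_filter_not (s := S) (fun p => p ≤ z)).symm
    rw [this, hS.2.2, pow_add]
  rw [e1]
  refine mul_le_mul_of_nonneg_left ?_ (by positivity)
  rw [← sum_filter]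
  refine le_trans (wt_mono ?_) (wt_biUnion _ _)
  intro T hT
  rw [mem_image] at hT
  obtain ⟨S, hS, rfl⟩ := hT
  rw [hF, mem_filter, SS, mem_filter, mem_powerset] at hS
  obtain ⟨⟨h1, h2, h4⟩, h5, h6⟩ := hS
  have hpr : ∀ p ∈ S, p.Prime := fun p hp => (pr1 (h2 p hp)).1
  obtain ⟨W, hWS, hWn, hW1, h7⟩ := notNd h5
  have hWS : W ⊆ S₀ := by rw [← h6]; exact hWS
  rw [mem_biUnion]
  refine ⟨W, ?_, ?_⟩
  · rw [mem_filter, mem_powerset]
    refine ⟨hWS, hWn, fun u hu => ⟨hS₀ u (hWS hu), ?_⟩⟩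
    have hu2 := hWS hu
    rw [← h6, sm, mem_filter] at hu2
    exact (pr1 (h2 u hu2.1)).2
  · rw [fam, mem_filter, mem_powerset]
    have hN : 0 < ∏ p ∈ S₀, p := prod_pos_of fun p hp => hS₀ p hp
    have hprod : ∏ p ∈ la z S, p ≤ X / ∏ p ∈ S₀, p := by
      rw [Nat.le_div_iff_mul_le hN, mul_comm, ← h6]
      have : (∏ p ∈ sm z S, p) * ∏ p ∈ la z S, p = ∏ p ∈ S, p :=
        prod_filter_mul_prod_filter_not _ _ _
      rw [this]
      exact h4
    refine ⟨sub_range (fun p hp => hpr p (mem_filter.1 hp).1) hprod, ?_, hprod⟩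
    intro p hp
    rcases h2 p (mem_filter.1 hp).1 with h | h
    · left
      refine ⟨h, fun hpW => ?_, h7 p hp h.2.1⟩
      have h8 := hWS hpW
      rw [← h6, sm, mem_filter] at h8
      exact (mem_filter.1 hp).2 h8.2
    · exact Or.inr h

/-- the parameters, for large `X` -/
theorem w_params : ∃ X₀ : ℕ, ∀ X : ℕ, X₀ ≤ X → 3 ≤ X ∧ 2 ≤ Real.log (Real.log X) ∧
    1 < Real.log X ∧ 33 * Real.log (Real.log X) ^ 4 + 3 ≤ Real.log X ∧
    Real.log (Real.log X) ^ 16 ≤ Real.log X ^ (1 / 8 : ℝ) := by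
  have h0 : Filter.Tendsto (fun X : ℕ => Real.log (Real.log (X : ℝ))) Filter.atTop Filter.atTop :=
    Real.tendsto_log_atTop.comp (Real.tendsto_log_atTop.comp tendsto_natCast_atTop_atTop)
  have h1 := h0.eventually (ev_pow 16 (show (0 : ℝ) < 1 by norm_num) (show (0 : ℝ) < 8 by norm_num))
  have h2 := h0.eventually (ev_pow 4 (show (0 : ℝ) < 36 by norm_num) (show (0 : ℝ) < 1 by norm_num))
  have h3 := h0.eventually (Filter.eventually_ge_atTop (2 : ℝ))
  have h4 := (Real.tendsto_log_atTop.comp tendsto_natCast_atTop_atTop).eventually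
    (Filter.eventually_gt_atTop (1 : ℝ))
  obtain ⟨X₀, hX⟩ := Filter.eventually_atTop.1
    (((h1.and h2).and (h3.and h4)).and (Filter.eventually_ge_atTop 3))
  refine ⟨X₀, fun X hX0 => ?_⟩
  obtain ⟨⟨⟨k1, k2⟩, k3, k4⟩, k5⟩ := hX X hX0
  simp only [Function.comp] at k4
  have hpos : 0 < Real.log (X : ℝ) := by linarith
  have e1 : Real.exp (Real.log (Real.log (X : ℝ))) = Real.log X := Real.exp_log hpos
  refine ⟨k5, k3, k4, ?_, ?_⟩
  · rw [div_one, e1] at k2
    have : (1 : ℝ) ≤ Real.log (Real.log (X : ℝ)) ^ 4 := one_le_pow₀ (by linarith)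
    linarith
  · rw [one_mul] at k1
    refine k1.trans (le_of_eq ?_)
    rw [Real.rpow_def_of_pos hpos]
    congr 1
    ring

theorem w_BAD (hMER : S_MER) (I K : Finset ℕ) (hO : Ok I K) :
    ∃ (C : ℝ) (X₀ : ℕ), ∀ X : ℕ, X₀ ≤ X →
    wt ((SS I K X).filter fun S => S.card ≤ kk X ∧ ¬ Nd (sm (zz X) S) (la (zz X) S)) ≤
      C * X * (Real.log X) ^ (-(1 / 8) : ℝ) := by
  obtain ⟨C₂, h21, h2⟩ := w_HAL
  obtain ⟨C₃, h30, h3⟩ := Pm_le
  obtain ⟨C₄, h4⟩ := mer I hMER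
  obtain ⟨X₀, hX₀⟩ := w_params
  obtain ⟨C₁, hC₁⟩ : ∃ C₁ : ℝ, C₁ = 1 + 2 * Real.log 4 := ⟨_, rfl⟩
  have h11 : 1 ≤ C₁ := by
    rw [hC₁]
    have : 0 ≤ Real.log 4 := Real.log_nonneg (by norm_num)
    linarith
  have hC2 : 0 ≤ C₂ := by linarith
  have hC1 : 0 ≤ C₁ := by linarith
  refine ⟨33 * C₁ * C₂ * Real.exp (2 * C₄) * Real.exp (4 * C₃), X₀, fun X hX => ?_⟩
  obtain ⟨hX3, hl2, hlog1, h33, hfin⟩ := hX₀ X hX
  set ℓ : ℝ := Real.log (Real.log X) with hℓ
  set z : ℕ := zz X with hz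
  set k : ℕ := kk X with hk
  have hlX : 0 < Real.log X := by linarith
  have hl0 : 0 < ℓ := by linarith
  have hk11 : (k : ℝ) ≤ 11 * ℓ := by
    have h := Nat.ceil_lt_add_one (show (0 : ℝ) ≤ 10 * eL X by
      unfold eL; rw [← hℓ]; positivity)
    have h' : (k : ℝ) < 10 * ℓ + 1 := h
    linarith
  have hl3 : (8 : ℝ) ≤ ℓ ^ 3 := by
    have := pow_le_pow_left₀ (by norm_num : (0 : ℝ) ≤ 2) hl2 3
    linarith
  have hz3 : 3 ≤ z := by
    rw [hz]
    unfold zz
    apply Nat.le_floor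
    have h := Real.add_one_le_exp ((eL X) ^ 3)
    have h' : (eL X) ^ 3 = ℓ ^ 3 := rfl
    rw [h'] at h ⊢
    push_cast
    linarith
  have hz1 : 1 ≤ z := by omega
  have hz0 : (0 : ℝ) < z := by exact_mod_cast hz1
  have hzlog : Real.log z ≤ ℓ ^ 3 := by
    rw [Real.log_le_iff_le_exp hz0]
    exact Nat.floor_le (Real.exp_pos _).le
  have hzlog0 : 0 < Real.log z := Real.log_pos (by exact_mod_cast (by omega : 1 < z))
  have hl4 : (1 : ℝ) ≤ ℓ ^ 4 := one_le_pow₀ (by linarith)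
  -- the size of the families
  set R : ℝ := 33 * C₁ * C₂ * Real.exp (2 * C₄) * ℓ ^ 4 * ((Real.log X) ^ (1 / 4 : ℝ) *
    (Real.log X) ^ (1 / 2 : ℝ)) / Real.log X with hR
  have hrp0 : 0 < (Real.log X) ^ (1 / 4 : ℝ) := Real.rpow_pos_of_pos hlX _
  have hrp1 : 0 < (Real.log X) ^ (1 / 2 : ℝ) := Real.rpow_pos_of_pos hlX _
  have hR0 : 0 ≤ R := by
    rw [hR]
    positivity
  have key : ∀ S₀ : Finset ℕ, (∀ u ∈ S₀, u.Prime) → (∀ u ∈ S₀, u ≤ z) → S₀.card ≤ k →
      ∀ W ⊆ S₀, W.Nonempty → (∀ u ∈ W, u.Prime ∧ u % 4 = 1) →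
      wt (fam I W (X / ∏ p ∈ S₀, p)) ≤ (X : ℝ) / ((∏ p ∈ S₀, p : ℕ) : ℝ) * R := by
    intro S₀ hS₀ hSz hSk W hWS hWn hW1
    set N : ℕ := ∏ p ∈ S₀, p with hN
    have hN0 : 0 < N := prod_pos_of fun p hp => hS₀ p hp
    have hN0' : (0 : ℝ) < N := by exact_mod_cast hN0
    have hlN : Real.log N ≤ 11 * ℓ ^ 4 := by
      have e1 : Real.log N = ∑ p ∈ S₀, Real.log p := by
        rw [hN]
        push_cast
        rw [Real.log_prod]
        intro p hp
        have := (hS₀ p hp).ne_zero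
        exact_mod_cast this
      rw [e1]
      calc ∑ p ∈ S₀, Real.log p ≤ ∑ _p ∈ S₀, Real.log z := by
            refine sum_le_sum fun p hp => ?_
            exact Real.log_le_log (by exact_mod_cast (hS₀ p hp).pos) (by exact_mod_cast hSz p hp)
        _ = S₀.card * Real.log z := by rw [sum_const, nsmul_eq_mul]
        _ ≤ (11 * ℓ) * ℓ ^ 3 := by
            refine mul_le_mul (le_trans (by exact_mod_cast hSk) hk11) hzlog hzlog0.le (by positivity)
        _ = 11 * ℓ ^ 4 := by ring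
    set Y : ℕ := X / N with hY
    have hX0 : (0 : ℝ) < X := by exact_mod_cast (by omega : 0 < X)
    have hYle : (Y : ℝ) ≤ (X : ℝ) / N := Nat.cast_div_le
    have hYge : Real.exp (Real.log X / 3) ≤ Y := by
      have e1 : (X : ℝ) / N < Y + 1 := by
        rw [div_lt_iff₀ hN0']
        have := Nat.lt_mul_div_succ X hN0
        rw [← hY] at this
        have h' : ((X : ℕ) : ℝ) < ((N * (Y + 1) : ℕ) : ℝ) := by exact_mod_cast this
        push_cast at h'
        linarith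
      have e2 : Real.exp (Real.log X - Real.log N) = (X : ℝ) / N := by
        rw [Real.exp_sub, Real.exp_log hX0, Real.exp_log hN0']
      have e3 : Real.exp (Real.log X / 3 + 1) ≤ (X : ℝ) / N := by
        rw [← e2]
        apply Real.exp_le_exp.2
        linarith
      rw [Real.exp_add] at e3
      have e4 : (2 : ℝ) ≤ Real.exp 1 := by have := Real.exp_one_gt_d9; linarith
      have e5 : (1 : ℝ) ≤ Real.exp (Real.log X / 3) := Real.one_le_exp (by positivity)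
      nlinarith
    have hX16 : (9 : ℝ) ≤ Real.log X / 3 := by
      have e6 : (16 : ℝ) ≤ ℓ ^ 4 := by
        have := pow_le_pow_left₀ (by norm_num : (0 : ℝ) ≤ 2) hl2 4
        linarith
      linarith
    have hY3 : 3 ≤ Y := by
      have e1 := Real.add_one_le_exp (Real.log X / 3)
      have e2 : (3 : ℝ) ≤ Y := by linarith
      exact_mod_cast e2
    have hY2 : 2 ≤ Y := by omega
    have hY0 : (0 : ℝ) < Y := by exact_mod_cast (by omega : 0 < Y)
    have hlY : Real.log X / 3 ≤ Real.log Y := by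
      rw [Real.le_log_iff_exp_le hY0]
      exact hYge
    have hYX : Y ≤ X := Nat.div_le_self _ _
    have hlYX : Real.log Y ≤ Real.log X := Real.log_le_log hY0 (by exact_mod_cast hYX)
    have hlY0 : 0 < Real.log Y := by linarith
    -- the small factor
    have hlW : Real.log ((∏ u ∈ W, u : ℕ) : ℝ) ≤ 11 * ℓ ^ 4 := by
      have hWp : ∀ u ∈ W, u.Prime := fun u hu => (hW1 u hu).1
      have e0 : (0 : ℝ) < ((∏ u ∈ W, u : ℕ) : ℝ) := by exact_mod_cast prod_pos_of hWp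
      refine le_trans (Real.log_le_log e0 ?_) hlN
      exact_mod_cast prod_sub_le hWS hS₀
    have hlW0 : 0 ≤ Real.log ((∏ u ∈ W, u : ℕ) : ℝ) := Real.log_natCast_nonneg _
    have hmain := w_fam_card hO h21 h2 hWn hW1 hY2
    rw [← hC₁] at hmain
    have hrY : (Real.log Y) ^ (1 / 4 : ℝ) ≤ (Real.log X) ^ (1 / 4 : ℝ) :=
      Real.rpow_le_rpow hlY0.le hlYX (by norm_num)
    have hexpI : Real.exp (2 * ∑ r ∈ NI I Y, (1 : ℝ) / r) ≤
        Real.exp (2 * C₄) * (Real.log X) ^ (1 / 2 : ℝ) := by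
      have h5 : 2 * ∑ r ∈ NI I Y, (1 : ℝ) / r ≤ 2 * C₄ + 1 / 2 * Real.log (Real.log Y) := by
        have := h4 Y hY3
        linarith
      refine (Real.exp_le_exp.2 h5).trans ?_
      rw [Real.exp_add]
      refine mul_le_mul_of_nonneg_left ?_ (Real.exp_pos _).le
      rw [Real.rpow_def_of_pos hlX]
      apply Real.exp_le_exp.2
      rw [mul_comm]
      refine mul_le_mul_of_nonneg_right ?_ (by norm_num)
      exact Real.log_le_log hlY0 hlYX
    have hrY0 : 0 ≤ (Real.log Y) ^ (1 / 4 : ℝ) := Real.rpow_nonneg hlY0.le _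
    have hb : C₁ * Y * ((C₂ * Real.log ((∏ u ∈ W, u : ℕ) : ℝ) *
        (Real.log Y) ^ (1 / 4 : ℝ)) * Real.exp (2 * ∑ r ∈ NI I Y, (1 : ℝ) / r)) ≤
        C₁ * ((X : ℝ) / N) * ((C₂ * (11 * ℓ ^ 4) * (Real.log X) ^ (1 / 4 : ℝ)) *
          (Real.exp (2 * C₄) * (Real.log X) ^ (1 / 2 : ℝ))) := by
      gcongr
    have hc : wt (fam I W Y) * (Real.log X / 3) ≤
        C₁ * ((X : ℝ) / N) * ((C₂ * (11 * ℓ ^ 4) * (Real.log X) ^ (1 / 4 : ℝ)) *
          (Real.exp (2 * C₄) * (Real.log X) ^ (1 / 2 : ℝ))) := by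
      refine le_trans ?_ (hmain.trans hb)
      exact mul_le_mul_of_nonneg_left hlY (wt_nonneg _)
    have hd : (X : ℝ) / N * R = (C₁ * ((X : ℝ) / N) * ((C₂ * (11 * ℓ ^ 4) *
        (Real.log X) ^ (1 / 4 : ℝ)) * (Real.exp (2 * C₄) * (Real.log X) ^ (1 / 2 : ℝ)))) /
          (Real.log X / 3) := by
      rw [hR]
      field_simp
      ring
    rw [hd, le_div_iff₀ (by positivity)]
    exact hc
  -- the sum over the small parts
  set B := (SS I K X).filter fun S => S.card ≤ k ∧ ¬ Nd (sm z S) (la z S) with hB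
  set D := (range (z + 1)).filter fun p => p.Prime with hD
  set W := D.powerset.filter fun S => S.card ≤ k with hW
  have hmaps : ∀ S ∈ B, sm z S ∈ W := by
    intro S hS
    rw [hB, mem_filter, SS, mem_filter, mem_powerset] at hS
    obtain ⟨⟨k1, k2, k3⟩, k4, k5⟩ := hS
    rw [hW, mem_filter, mem_powerset]
    refine ⟨fun p hp => ?_, (card_le_card (filter_subset _ _)).trans k4⟩
    obtain ⟨l1, l2⟩ := mem_filter.1 hp
    rw [hD, mem_filter, mem_range]
    refine ⟨by omega, ?_⟩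
    rcases k2 p l1 with h | h
    · exact h.1
    · exact h.1
  have hcard : wt B ≤ ∑ S₀ ∈ W, 4 ^ S₀.card * ((X : ℝ) / ((∏ p ∈ S₀, p : ℕ) : ℝ) * R) := by
    rw [wt_fiber B (fun S => sm z S) W hmaps]
    refine sum_le_sum fun S₀ hS₀ => ?_
    rw [hW, mem_filter, mem_powerset] at hS₀
    have hpr : ∀ u ∈ S₀, u.Prime := fun u hu => (mem_filter.1 (hS₀.1 hu)).2
    have hle : ∀ u ∈ S₀, u ≤ z := fun u hu => by
      have := mem_range.1 (mem_filter.1 (hS₀.1 hu)).1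
      omega
    have e1 : wt (B.filter fun S => sm z S = S₀) ≤
        wt ((SS I K X).filter fun S => ¬ Nd (sm z S) (la z S) ∧ sm z S = S₀) := by
      refine wt_mono fun S hS => ?_
      rw [mem_filter, hB, mem_filter] at hS
      rw [mem_filter]
      exact ⟨hS.1.1, hS.1.2.2, hS.2⟩
    have e2 := e1.trans (w_fiber I K X z hpr)
    have e3 : wt (B.filter fun S => sm z S = S₀) ≤
        2 ^ S₀.card * ∑ t ∈ S₀.powerset, (X : ℝ) / ((∏ p ∈ S₀, p : ℕ) : ℝ) * R := by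
      refine e2.trans ?_
      refine mul_le_mul_of_nonneg_left (sum_le_sum fun t htS => ?_) (by positivity)
      split_ifs with ht
      · exact key S₀ hpr hle hS₀.2 t (mem_powerset.1 htS) ht.1 ht.2
      · exact mul_nonneg (div_nonneg (Nat.cast_nonneg _) (by positivity)) hR0
    refine e3.trans (le_of_eq ?_)
    rw [sum_const, card_powerset, nsmul_eq_mul]
    have e4 : (4 : ℝ) ^ S₀.card = 2 ^ S₀.card * 2 ^ S₀.card := by
      rw [← mul_pow]
      norm_num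
    rw [e4]
    push_cast
    ring
  have hsum : ∑ S₀ ∈ W, 4 ^ S₀.card * ((X : ℝ) / ((∏ p ∈ S₀, p : ℕ) : ℝ) * R) ≤
      X * R * Real.exp (4 * Pm z) := by
    have e1 : ∀ S₀ ∈ W, 4 ^ S₀.card * ((X : ℝ) / ((∏ p ∈ S₀, p : ℕ) : ℝ) * R) =
        X * R * ∏ p ∈ S₀, (4 / (p : ℝ)) := by
      intro S₀ _
      rw [prod_div_distrib, prod_const]
      push_cast
      ring
    rw [sum_congr rfl e1, ← mul_sum]
    have h2XR : 0 ≤ (X : ℝ) * R := by positivity
    refine mul_le_mul_of_nonneg_left ?_ h2XR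
    calc ∑ S₀ ∈ W, ∏ p ∈ S₀, (4 / (p : ℝ)) ≤ ∑ S₀ ∈ D.powerset, ∏ p ∈ S₀, (4 / (p : ℝ)) := by
          refine sum_le_sum_of_subset_of_nonneg (filter_subset _ _) fun S _ _ => ?_
          exact prod_nonneg fun _ _ => by positivity
      _ = ∏ p ∈ D, (1 + 4 / (p : ℝ)) := by rw [prod_one_add]
      _ ≤ ∏ p ∈ D, Real.exp (4 / (p : ℝ)) := by
          refine prod_le_prod (fun _ _ => by positivity) fun p _ => ?_
          rw [add_comm]
          exact Real.add_one_le_exp _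
      _ = Real.exp (∑ p ∈ D, 4 / (p : ℝ)) := by rw [Real.exp_sum]
      _ ≤ Real.exp (4 * Pm z) := by
          apply Real.exp_le_exp.2
          unfold Pm
          rw [mul_sum]
          have e2 : ∀ p : ℕ, 4 / (p : ℝ) = 4 * (1 / p) := fun p => by ring
          simp_rw [e2]
          refine sum_le_sum_of_subset_of_nonneg ?_ fun _ _ _ => by positivity
          intro p hp
          rw [hD, mem_filter, mem_range] at hp
          rw [mem_filter, mem_Icc]
          exact ⟨⟨hp.2.pos, by omega⟩, hp.2⟩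
  have hexp : Real.exp (4 * Pm z) ≤ Real.exp (4 * C₃) * ℓ ^ 12 := by
    have e1 := h3 z hz3
    have e2 : Real.exp (4 * Pm z) ≤ Real.exp (4 * (Real.log (Real.log z) + C₃)) :=
      Real.exp_le_exp.2 (by linarith)
    refine e2.trans ?_
    have e3 : Real.exp (4 * (Real.log (Real.log z) + C₃)) = Real.exp (4 * C₃) * (Real.log z) ^ 4 := by
      rw [mul_add, Real.exp_add, mul_comm]
      congr 1
      rw [show (4 : ℝ) * Real.log (Real.log z) = Real.log ((Real.log z) ^ 4) by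
        rw [Real.log_pow]; push_cast; ring]
      exact Real.exp_log (by positivity)
    rw [e3]
    refine mul_le_mul_of_nonneg_left ?_ (Real.exp_pos _).le
    calc (Real.log z) ^ 4 ≤ (ℓ ^ 3) ^ 4 := pow_le_pow_left₀ hzlog0.le hzlog 4
      _ = ℓ ^ 12 := by ring
  have hXR : 0 ≤ (X : ℝ) * R := by positivity
  have hX0' : (0 : ℝ) ≤ X := Nat.cast_nonneg _
  calc wt B ≤ X * R * Real.exp (4 * Pm z) := hcard.trans hsum
    _ ≤ X * R * (Real.exp (4 * C₃) * ℓ ^ 12) :=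
        mul_le_mul_of_nonneg_left hexp hXR
    _ = 33 * C₁ * C₂ * Real.exp (2 * C₄) * Real.exp (4 * C₃) * X * (ℓ ^ 16 *
          ((Real.log X) ^ (1 / 4 : ℝ) * (Real.log X) ^ (1 / 2 : ℝ)) / Real.log X) := by
        rw [hR]
        ring
    _ ≤ 33 * C₁ * C₂ * Real.exp (2 * C₄) * Real.exp (4 * C₃) * X * ((Real.log X) ^ (1 / 8 : ℝ) *
          ((Real.log X) ^ (1 / 4 : ℝ) * (Real.log X) ^ (1 / 2 : ℝ)) / Real.log X) := by
        gcongr
    _ ≤ 33 * C₁ * C₂ * Real.exp (2 * C₄) * Real.exp (4 * C₃) * X *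
          (Real.log X) ^ (-(1 / 8) : ℝ) := by
        apply mul_le_mul_of_nonneg_left _ (by positivity)
        rw [← Real.rpow_add hlX, ← Real.rpow_add hlX]
        nth_rewrite 2 [← Real.rpow_one (Real.log X)]
        rw [← Real.rpow_sub hlX]
        apply Real.rpow_le_rpow_of_exponent_le hlog1.le
        norm_num

end Pool.Agent.U80.WQ
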