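import Pool.Agent.R413.SQ.FEW
import Pool.Agent.U80.WQ.Wt
import Pool.Agent.U80.WQ.WSie

/-!
# The weight of the sets with few large split primes or no large inert prime, or with many primes
-/

set_option autoImplicit false

open scoped Classical

namespace Pool.Agent.U80.WQ

open Finset Filter
open Pool.Agent.Y703.CX (sm la eL zz kk S_SIE)
open Pool.Agent.R413.SQ (Sp In SS Ok pr1)
open Pool.Agent.R413.SQ.FEW
open Pool.Agent.Y703.CQ (nr sg prs HB S_EQ ext GdA S_SYM S_C2 S_LA c2 S_MER S_CHE)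
open Pool.Agent.Y495.CX.Few (PN euler prod_pos' le_of_mem_prod mert eL_tendsto log_small zz_ge
  loglog_zz rpow_eq)

/-- the moments of a multiplicative weight -/
lemma gen (I K : Finset ℕ) (X : ℕ) (v : ℕ → ℝ) (hv : ∀ p, 0 ≤ v p) :
    ∑ S ∈ SS I K X, ∏ p ∈ S, v p ≤
      X * Real.exp (∑ p ∈ (PN X).filter (fun p => Sp p ∨ In I p), v p * (1 / (p : ℝ))) := by
  have hnn : ∀ p : ℕ, 0 ≤ v p * (1 / (p : ℝ)) := fun p => mul_nonneg (hv p) (by positivity)
  have h1 : ∀ S ∈ SS I K X, ∏ p ∈ S, v p ≤ X * ∏ p ∈ S, (v p * (1 / (p : ℝ))) := by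
    intro S hS
    obtain ⟨a1, a2⟩ := SS_mem hS
    have h0 : (0 : ℝ) < ((∏ p ∈ S, p : ℕ) : ℝ) := by
      exact_mod_cast prod_pos' fun p hp => pr (a1 p hp)
    have e1 : ∏ p ∈ S, v p = ((∏ p ∈ S, p : ℕ) : ℝ) * ∏ p ∈ S, (v p * (1 / (p : ℝ))) := by
      rw [prod_mul_distrib, prod_div_distrib, prod_const_one]
      push_cast at h0 ⊢
      field_simp
    rw [e1]
    refine mul_le_mul_of_nonneg_right (by exact_mod_cast a2) (prod_nonneg fun p _ => hnn p)
  refine (sum_le_sum h1).trans ?_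
  rw [← mul_sum]
  apply mul_le_mul_of_nonneg_left _ (Nat.cast_nonneg _)
  have h5 : ∑ S ∈ SS I K X, ∏ p ∈ S, (v p * (1 / (p : ℝ))) ≤
      ∑ S ∈ ((PN X).filter fun p => Sp p ∨ In I p).powerset, ∏ p ∈ S, (v p * (1 / (p : ℝ))) := by
    refine sum_le_sum_of_subset_of_nonneg ?_ fun S _ _ => prod_nonneg fun p _ => hnn p
    intro S hS
    obtain ⟨a1, a2⟩ := SS_mem hS
    rw [mem_powerset]
    intro p hp
    have h6 := pr (a1 p hp)
    rw [mem_filter, mem_filter, mem_Icc]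
    exact ⟨⟨⟨h6.one_lt.le, le_of_mem_prod (fun p hp => pr (a1 p hp)) a2 hp⟩, h6⟩, a1 p hp⟩
  exact h5.trans (euler _ _ fun p _ => hnn p)

/-- the reciprocals of the primes of the class -/
lemma mer_cl (hm : S_MER) (I : Finset ℕ) : ∃ C : ℝ, 0 ≤ C ∧ ∀ y : ℕ, 3 ≤ y →
    ∑ p ∈ (PN y).filter (fun p => Sp p ∨ In I p), (1 : ℝ) / p ≤
      1 / 2 * Real.log (Real.log y) + C := by
  obtain ⟨C₁, hC₁0, hC₁⟩ := mer_S hm
  obtain ⟨C₂, hC₂0, hC₂⟩ := mer_I hm I
  refine ⟨C₁ + C₂, by linarith, fun y hy => ?_⟩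
  have h1 : (PN y).filter (fun p => Sp p ∨ In I p) = (PN y).filter Sp ∪ (PN y).filter (In I) := by
    rw [filter_or]
  have h2 : ∑ p ∈ (PN y).filter Sp ∪ (PN y).filter (In I), (1 : ℝ) / p ≤
      ∑ p ∈ (PN y).filter Sp, (1 : ℝ) / p + ∑ p ∈ (PN y).filter (In I), (1 : ℝ) / p := by
    rw [← sum_union_inter]
    have : 0 ≤ ∑ p ∈ (PN y).filter Sp ∩ (PN y).filter (In I), (1 : ℝ) / p :=
      sum_nonneg fun _ _ => by positivity
    linarith
  rw [h1]
  have := hC₁ y hy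
  have := hC₂ y hy
  linarith

/-- the sum of the fourth powers -/
lemma w_four (hm : S_MER) (I K : Finset ℕ) : ∃ C : ℝ, 0 ≤ C ∧ ∀ᶠ X : ℕ in atTop,
    ∑ S ∈ SS I K X, (4 : ℝ) ^ S.card ≤ C * X * Real.exp (2 * eL X) := by
  obtain ⟨C, hC0, hC⟩ := mer_cl hm I
  refine ⟨Real.exp (4 * C), by positivity, ?_⟩
  filter_upwards [eventually_ge_atTop 3] with X hX
  have h1 := gen I K X (fun _ => 4) (fun _ => by norm_num)
  have h2 := hC X hX
  have e1 : ∑ S ∈ SS I K X, (4 : ℝ) ^ S.card = ∑ S ∈ SS I K X, ∏ _p ∈ S, (4 : ℝ) := by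
    refine sum_congr rfl fun S _ => ?_
    rw [prod_const]
  rw [e1]
  refine h1.trans ?_
  rw [← mul_sum]
  have h3 : Real.exp (4 * ∑ p ∈ (PN X).filter (fun p => Sp p ∨ In I p), (1 : ℝ) / p) ≤
      Real.exp (4 * C) * Real.exp (2 * eL X) := by
    rw [← Real.exp_add]
    apply Real.exp_le_exp.2
    unfold eL
    linarith
  calc _ ≤ (X : ℝ) * (Real.exp (4 * C) * Real.exp (2 * eL X)) :=
        mul_le_mul_of_nonneg_left h3 (Nat.cast_nonneg _)
    _ = _ := by ring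

/-- sets with many small primes -/
lemma w_part1 (hm : S_MER) (I K : Finset ℕ) : ∃ C : ℝ, 0 ≤ C ∧ ∀ᶠ X : ℕ in atTop,
    wt ((SS I K X).filter fun S => eL X / 80 < ((sm (zz X) S).card : ℝ)) ≤
      C * X * Real.exp (-(4 / 5) * eL X) := by
  obtain ⟨C, hC0, hC⟩ := mert
  obtain ⟨C₁, hC₁0, hC₁⟩ := mer_cl hm I
  set κ : ℝ := Real.exp 160 with hκ
  have κ0 : 0 < κ := Real.exp_pos _
  have κ1 : 1 ≤ κ := Real.one_le_exp (by norm_num)
  refine ⟨Real.exp (2 * κ * C + 2 * C₁), (Real.exp_pos _).le, ?_⟩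
  filter_upwards [eL_tendsto.eventually (log_small (6 * κ) (1 / 5) (by norm_num)),
    eL_tendsto.eventually (eventually_ge_atTop 2), eventually_ge_atTop 3] with X h1 h2 hX3
  have h3 := gen I K X (fun p => if p ≤ zz X then 2 * κ else 2) (fun p => by
    split_ifs <;> positivity)
  have h4 := hC (zz X) (zz_ge h2)
  have h4' := hC₁ X hX3
  have h5 := loglog_zz h2
  have h6 : wt ((SS I K X).filter fun S => eL X / 80 < ((sm (zz X) S).card : ℝ)) *
      Real.exp (2 * eL X) ≤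
      ∑ S ∈ SS I K X, ∏ p ∈ S, (if p ≤ zz X then 2 * κ else 2) := by
    unfold wt
    rw [sum_mul]
    refine le_trans ?_ (sum_le_sum_of_subset_of_nonneg
      (filter_subset (fun S => eL X / 80 < ((sm (zz X) S).card : ℝ)) (SS I K X))
      fun S _ _ => prod_nonneg fun p _ => by split_ifs <;> positivity)
    refine sum_le_sum fun S hS => ?_
    rw [mem_filter] at hS
    have e1 : ∏ p ∈ S, (if p ≤ zz X then 2 * κ else 2) =
        2 ^ S.card * κ ^ (sm (zz X) S).card := by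
      have e2 : ∀ p : ℕ, (if p ≤ zz X then 2 * κ else 2) = 2 * (if p ≤ zz X then κ else 1) := by
        intro p
        split_ifs
        · rfl
        · rw [mul_one]
      rw [prod_congr rfl fun p _ => e2 p, prod_mul_distrib, prod_const, ← prod_filter, prod_const]
      rfl
    rw [e1]
    refine mul_le_mul_of_nonneg_left ?_ (by positivity)
    rw [hκ, ← Real.exp_nat_mul]
    apply Real.exp_le_exp.2
    linarith [hS.2]
  have h7 := h6.trans h3
  have h8 : ∑ p ∈ (PN X).filter (fun p => Sp p ∨ In I p),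
      (if p ≤ zz X then 2 * κ else 2) * (1 / (p : ℝ)) ≤
      (2 * κ * C + 2 * C₁) + (1 / 5 * eL X + eL X) := by
    have g1 : ∀ p ∈ (PN X).filter (fun p => Sp p ∨ In I p),
        (if p ≤ zz X then 2 * κ else 2) * (1 / (p : ℝ)) ≤
        (if p ≤ zz X then 2 * κ * (1 / (p : ℝ)) else 0) + 2 * (1 / (p : ℝ)) := by
      intro p _
      have : (0 : ℝ) ≤ 1 / (p : ℝ) := by positivity
      split_ifs
      · linarith
      · linarith
    refine (sum_le_sum g1).trans ?_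
    rw [sum_add_distrib, ← mul_sum]
    have g2 : ∑ p ∈ (PN X).filter (fun p => Sp p ∨ In I p),
        (if p ≤ zz X then 2 * κ * (1 / (p : ℝ)) else 0) ≤ 2 * κ * ∑ p ∈ PN (zz X), (1 : ℝ) / p := by
      rw [← sum_filter, ← mul_sum]
      refine mul_le_mul_of_nonneg_left (sum_le_sum_of_subset_of_nonneg ?_ fun _ _ _ => by positivity)
        (by positivity)
      intro p hp
      rw [mem_filter, mem_filter, mem_filter, mem_Icc] at hp
      rw [mem_filter, mem_Icc]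
      exact ⟨⟨hp.1.1.1.1, hp.2⟩, hp.1.1.2⟩
    have g3 : 2 * κ * ∑ p ∈ PN (zz X), (1 : ℝ) / p ≤ 2 * κ * (3 * Real.log (eL X) + C) :=
      mul_le_mul_of_nonneg_left (by linarith) (by positivity)
    have g4 : 2 * ∑ p ∈ (PN X).filter (fun p => Sp p ∨ In I p), (1 : ℝ) / p ≤
        eL X + 2 * C₁ := by
      unfold eL
      linarith
    have g5 : 2 * κ * (3 * Real.log (eL X) + C) = 6 * κ * Real.log (eL X) + 2 * κ * C := by ring
    linarith
  have h9 : (X : ℝ) * Real.exp (∑ p ∈ (PN X).filter (fun p => Sp p ∨ In I p),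
      (if p ≤ zz X then 2 * κ else 2) * (1 / (p : ℝ))) ≤
      X * (Real.exp (2 * κ * C + 2 * C₁) * Real.exp (1 / 5 * eL X + eL X)) := by
    rw [← Real.exp_add]
    exact mul_le_mul_of_nonneg_left (Real.exp_le_exp.2 h8) (Nat.cast_nonneg _)
  have h10 := h7.trans h9
  have h11 : (Real.exp (2 * κ * C + 2 * C₁) * X * Real.exp (-(4 / 5) * eL X)) *
      Real.exp (2 * eL X) =
      X * (Real.exp (2 * κ * C + 2 * C₁) * Real.exp (1 / 5 * eL X + eL X)) := by
    have : Real.exp (1 / 5 * eL X + eL X) = Real.exp (-(4 / 5) * eL X) * Real.exp (2 * eL X) := by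
      rw [← Real.exp_add]
      congr 1
      ring
    rw [this]
    ring
  rw [← h11] at h10
  exact le_of_mul_le_mul_right h10 (Real.exp_pos _)

/-- the weighted logarithmic density of a family -/
lemma w_LL_sum (I : Finset ℕ) (X z : ℕ) (Q : Finset ℕ → Prop) (w : ℕ → ℝ) (M s t : ℝ)
    (hw : ∀ p, 0 ≤ w p) (hM : 0 ≤ M) (hs : 0 ≤ s) (ht : 0 ≤ t)
    (h1w : ∀ S ∈ LL I X Q, 1 ≤ M * ∏ p ∈ S, w p)
    (hz : ∀ p, p ≤ z → w p ≤ 1) (hS : ∀ p, Sp p → z < p → w p ≤ s)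
    (hI : ∀ p, In I p → z < p → w p ≤ t) :
    ∑ S ∈ LL I X Q, (2 : ℝ) ^ S.card * ((1 : ℝ) / ((∏ p ∈ S, p : ℕ) : ℝ)) ≤ M *
      Real.exp (2 * (∑ p ∈ PN z, (1 : ℝ) / p + s * ∑ p ∈ (PN X).filter Sp, (1 : ℝ) / p +
        t * ∑ p ∈ (PN X).filter (In I), (1 : ℝ) / p)) := by
  have h1 : ∀ S ∈ LL I X Q, (2 : ℝ) ^ S.card * ((1 : ℝ) / ((∏ p ∈ S, p : ℕ) : ℝ)) ≤
      M * ∏ p ∈ S, (2 * (w p * (1 / p))) := by
    intro S hS
    have h2 := h1w S hS
    have h3 : (0 : ℝ) ≤ 2 ^ S.card * ∏ p ∈ S, (1 : ℝ) / p :=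
      mul_nonneg (by positivity) (prod_nonneg fun p _ => by positivity)
    have h4 : (1 : ℝ) / ((∏ p ∈ S, p : ℕ) : ℝ) = ∏ p ∈ S, (1 : ℝ) / p := by
      rw [prod_div_distrib, prod_const_one]
      push_cast
      rfl
    rw [h4, prod_mul_distrib, prod_mul_distrib, prod_const]
    calc 2 ^ S.card * ∏ p ∈ S, (1 : ℝ) / p = 1 * (2 ^ S.card * ∏ p ∈ S, (1 : ℝ) / p) :=
          (one_mul _).symm
      _ ≤ (M * ∏ p ∈ S, w p) * (2 ^ S.card * ∏ p ∈ S, (1 : ℝ) / p) :=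
          mul_le_mul_of_nonneg_right h2 h3
      _ = _ := by ring
  refine (sum_le_sum h1).trans ?_
  rw [← mul_sum]
  apply mul_le_mul_of_nonneg_left _ hM
  have hnn : ∀ p : ℕ, 0 ≤ 2 * (w p * (1 / (p : ℝ))) := fun p =>
    mul_nonneg (by norm_num) (mul_nonneg (hw p) (by positivity))
  have h5 : ∑ S ∈ LL I X Q, ∏ p ∈ S, (2 * (w p * (1 / (p : ℝ)))) ≤
      ∑ S ∈ ((PN X).filter fun p => Sp p ∨ In I p).powerset,
        ∏ p ∈ S, (2 * (w p * (1 / (p : ℝ)))) := by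
    refine sum_le_sum_of_subset_of_nonneg ?_ fun S _ _ => prod_nonneg fun p _ => hnn p
    intro S hS
    rw [mem_LL] at hS
    rw [mem_powerset]
    intro p hp
    have h6 := pr (hS.2.1 p hp)
    rw [mem_filter, mem_filter, mem_Icc]
    exact ⟨⟨⟨h6.one_lt.le, le_of_mem_prod (fun p hp => pr (hS.2.1 p hp)) hS.2.2.1 hp⟩, h6⟩,
      hS.2.1 p hp⟩
  refine h5.trans ((euler _ _ fun p _ => hnn p).trans ?_)
  apply Real.exp_le_exp.2
  rw [← mul_sum]
  apply mul_le_mul_of_nonneg_left _ (by norm_num)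
  have h6 : ∀ p ∈ (PN X).filter fun p => Sp p ∨ In I p, w p * (1 / (p : ℝ)) ≤
      (if p ≤ z then (1 : ℝ) / p else 0) + ((if Sp p then s * (1 / (p : ℝ)) else 0) +
        (if In I p then t * (1 / (p : ℝ)) else 0)) := by
    intro p hp
    have hp0 : (0 : ℝ) ≤ 1 / p := by positivity
    have e1 : (0 : ℝ) ≤ if Sp p then s * (1 / (p : ℝ)) else 0 := by
      split_ifs
      · positivity
      · exact le_refl _
    have e2 : (0 : ℝ) ≤ if In I p then t * (1 / (p : ℝ)) else 0 := by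
      split_ifs
      · positivity
      · exact le_refl _
    by_cases hpz : p ≤ z
    · rw [if_pos hpz]
      have := mul_le_mul_of_nonneg_right (hz p hpz) hp0
      linarith
    · rw [if_neg hpz]
      rcases (mem_filter.1 hp).2 with h | h
      · rw [if_pos h]
        have := mul_le_mul_of_nonneg_right (hS p h (not_le.1 hpz)) hp0
        linarith
      · rw [if_pos h]
        have := mul_le_mul_of_nonneg_right (hI p h (not_le.1 hpz)) hp0
        linarith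
  refine (sum_le_sum h6).trans ?_
  have h7 : ∑ p ∈ (PN X).filter (fun p => Sp p ∨ In I p),
      ((if p ≤ z then (1 : ℝ) / p else 0) + ((if Sp p then s * (1 / (p : ℝ)) else 0) +
        (if In I p then t * (1 / (p : ℝ)) else 0))) ≤
      ∑ p ∈ PN X, ((if p ≤ z then (1 : ℝ) / p else 0) +
        ((if Sp p then s * (1 / (p : ℝ)) else 0) +
        (if In I p then t * (1 / (p : ℝ)) else 0))) := by
    refine sum_le_sum_of_subset_of_nonneg (filter_subset _ _) fun p _ _ => ?_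
    have hp0 : (0 : ℝ) ≤ 1 / p := by positivity
    have e0 : (0 : ℝ) ≤ if p ≤ z then (1 : ℝ) / p else 0 := by
      split_ifs
      · exact hp0
      · exact le_refl _
    have e1 : (0 : ℝ) ≤ if Sp p then s * (1 / (p : ℝ)) else 0 := by
      split_ifs
      · positivity
      · exact le_refl _
    have e2 : (0 : ℝ) ≤ if In I p then t * (1 / (p : ℝ)) else 0 := by
      split_ifs
      · positivity
      · exact le_refl _
    linarith
  refine h7.trans ?_
  rw [sum_add_distrib, sum_add_distrib, ← sum_filter, ← sum_filter, ← sum_filter, ← mul_sum,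
    ← mul_sum, ← add_assoc]
  gcongr
  intro p hp
  rw [mem_filter, mem_filter, mem_Icc] at hp
  rw [mem_filter, mem_Icc]
  exact ⟨⟨hp.1.1.1, hp.2⟩, hp.1.2⟩

/-- the weight of a family closed under subsets -/
lemma w_part2 (hm : S_MER) {I K : Finset ℕ} (hI : Ok I K) (s t e : ℝ) (hs0 : 0 ≤ s)
    (ht0 : 0 ≤ t) (Q : ℕ → Finset ℕ → Prop) (hQ : ∀ X S, Q X S → ∀ T, T ⊆ S → Q X T)
    (w : ℕ → ℕ → ℝ) (hw : ∀ X p, 0 ≤ w X p) (hz : ∀ X p, p ≤ zz X → w X p ≤ 1)
    (hS : ∀ X p, Sp p → zz X < p → w X p ≤ s) (hN : ∀ X p, In I p → zz X < p → w X p ≤ t)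
    (h1w : ∀ X, 2 ≤ eL X → ∀ S ∈ LL I X (Q X), 1 ≤ Real.exp (e * eL X) * ∏ p ∈ S, w X p)
    {r : ℝ} (hr : -1 + e + s / 2 + t / 2 < r) :
    ∃ C : ℝ, 0 ≤ C ∧ ∀ᶠ X : ℕ in atTop,
    wt (LL I X (Q X)) ≤ C * X * Real.exp (r * eL X) := by
  obtain ⟨C, hC0, hC⟩ := mert
  obtain ⟨C₁, hC₁0, hC₁⟩ := mer_S hm
  obtain ⟨C₂, hC₂0, hC₂⟩ := mer_I hm I
  obtain ⟨C', hC'⟩ : ∃ C' : ℝ, C' = 1 + 2 * Real.log 4 := ⟨_, rfl⟩
  have hC'1 : 1 ≤ C' := by
    rw [hC']
    have : 0 ≤ Real.log 4 := Real.log_nonneg (by norm_num)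
    linarith
  refine ⟨C' * Real.exp (2 * C + 2 * s * C₁ + 2 * t * C₂), by positivity, ?_⟩
  have hε : 0 < r - (-1 + e + s / 2 + t / 2) := by linarith
  filter_upwards [eL_tendsto.eventually (log_small 6 _ hε),
    eL_tendsto.eventually (eventually_ge_atTop 2), eventually_ge_atTop 3] with X h1 h2 h3
  set l := eL X with hl
  have h4 := hC (zz X) (zz_ge h2)
  have h5 := loglog_zz h2
  have h6 := hC₁ X h3
  have h6' := hC₂ X h3
  rw [← hl] at h5
  change _ ≤ 1 / 4 * l + C₁ at h6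
  change _ ≤ 1 / 4 * l + C₂ at h6'
  have h7 := w_sie X (LL I X (Q X)) (by omega)
    (fun S hS => ⟨fun p hp => pr ((mem_LL.1 hS).2.1 p hp), (mem_LL.1 hS).2.2.1⟩)
    (fun S hS T hT => LL_sub (hQ X) hS hT)
  rw [← hC'] at h7
  have h8 := w_LL_sum I X (zz X) (Q X) (w X) (Real.exp (e * l)) s t (hw X) (Real.exp_pos _).le
    hs0 ht0 (h1w X h2) (hz X) (hS X) (hN X)
  have hlX : Real.log X = Real.exp l := by
    have := rpow_eq (X := X) h2 1
    rwa [Real.rpow_one, one_mul] at this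
  rw [hlX] at h7
  have h9 : s * ∑ p ∈ (PN X).filter Sp, (1 : ℝ) / p ≤ s * (1 / 4 * l + C₁) :=
    mul_le_mul_of_nonneg_left h6 hs0
  have h10 : t * ∑ p ∈ (PN X).filter (In I), (1 : ℝ) / p ≤ t * (1 / 4 * l + C₂) :=
    mul_le_mul_of_nonneg_left h6' ht0
  have h12 : Real.exp (e * l) * Real.exp (2 * (∑ p ∈ PN (zz X), (1 : ℝ) / p +
      s * ∑ p ∈ (PN X).filter Sp, (1 : ℝ) / p +
        t * ∑ p ∈ (PN X).filter (In I), (1 : ℝ) / p)) ≤
      Real.exp (2 * C + 2 * s * C₁ + 2 * t * C₂) * Real.exp ((r + 1) * l) := by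
    rw [← Real.exp_add, ← Real.exp_add]
    apply Real.exp_le_exp.2
    have e1 : ∑ p ∈ PN (zz X), (1 : ℝ) / p ≤ 3 * Real.log l + C := by linarith
    calc e * l + 2 * (∑ p ∈ PN (zz X), (1 : ℝ) / p + s * ∑ p ∈ (PN X).filter Sp, (1 : ℝ) / p +
        t * ∑ p ∈ (PN X).filter (In I), (1 : ℝ) / p)
        ≤ e * l + ((r - (-1 + e + s / 2 + t / 2)) * l + 2 * C +
          2 * (s * (1 / 4 * l + C₁)) + 2 * (t * (1 / 4 * l + C₂))) := by linarith
      _ = 2 * C + 2 * s * C₁ + 2 * t * C₂ + (r + 1) * l := by ring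
  have h13 : wt (LL I X (Q X)) * Real.exp l ≤
      C' * X * (Real.exp (2 * C + 2 * s * C₁ + 2 * t * C₂) * Real.exp ((r + 1) * l)) := by
    refine h7.trans ?_
    exact mul_le_mul_of_nonneg_left (h8.trans h12) (by positivity)
  have h14 : (C' * Real.exp (2 * C + 2 * s * C₁ + 2 * t * C₂) * X * Real.exp (r * l)) *
      Real.exp l =
      C' * X * (Real.exp (2 * C + 2 * s * C₁ + 2 * t * C₂) * Real.exp ((r + 1) * l)) := by
    have : Real.exp ((r + 1) * l) = Real.exp (r * l) * Real.exp l := by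
      rw [← Real.exp_add]
      congr 1
      ring
    rw [this]
    ring
  rw [← h14] at h13
  exact le_of_mul_le_mul_right h13 (Real.exp_pos _)

/-- sets whose large primes are split -/
lemma w_part3 (hm : S_MER) {I K : Finset ℕ} (hI : Ok I K) : ∃ C : ℝ, 0 ≤ C ∧ ∀ᶠ X : ℕ in atTop,
    wt (LL I X fun S => ∀ p ∈ la (zz X) S, R413.SQ.mk p = 1) ≤
      C * X * Real.exp (-(1 / 4) * eL X) := by
  refine w_part2 hm hI 1 0 0 zero_le_one le_rfl
    (fun X S => ∀ p ∈ la (zz X) S, R413.SQ.mk p = 1) ?_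
    (fun X p => if ¬ p ≤ zz X ∧ R413.SQ.mk p ≠ 1 then 0 else 1) ?_ ?_ ?_ ?_ ?_ ?_
  · intro X S h T hT p hp
    refine h p ?_
    unfold la at hp ⊢
    rw [mem_filter] at hp ⊢
    exact ⟨hT hp.1, hp.2⟩
  · intro X p
    split_ifs <;> norm_num
  · intro X p _
    split_ifs <;> norm_num
  · intro X p _ _
    split_ifs <;> norm_num
  · intro X p h h'
    have h8 : R413.SQ.mk p ≠ 1 := h.2.1
    rw [if_pos ⟨not_le.2 h', h8⟩]
  · intro X _ S hS
    rw [mem_LL] at hS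
    rw [zero_mul, Real.exp_zero, one_mul]
    refine le_of_eq (Eq.symm (prod_eq_one fun p hp => ?_))
    rw [if_neg]
    rintro ⟨h1, h2⟩
    exact h2 (hS.2.2.2 p (mem_filter.2 ⟨hp, h1⟩))
  · norm_num

/-- sets with few large split primes -/
lemma w_part4 (hm : S_MER) {I K : Finset ℕ} (hI : Ok I K) : ∃ C : ℝ, 0 ≤ C ∧ ∀ᶠ X : ℕ in atTop,
    wt (LL I X fun S => ((la (zz X) S).filter fun p => R413.SQ.mk p = 1).card ≤ ⌊eL X / 32⌋₊) ≤
      C * X * Real.exp (-(1 / 4) * eL X) := by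
  have hl4 : Real.log 4 / 32 < 3 / 40 - 1 / 32 := by
    have h1 : (4 : ℝ) = 2 ^ 2 := by norm_num
    rw [h1, Real.log_pow]
    have := Real.log_two_lt_d9
    push_cast
    linarith
  refine w_part2 hm hI (1 / 4) 1 (Real.log 4 / 32) (by norm_num) zero_le_one
    (fun X S => ((la (zz X) S).filter fun p => R413.SQ.mk p = 1).card ≤ ⌊eL X / 32⌋₊) ?_
    (fun X p => if ¬ p ≤ zz X ∧ R413.SQ.mk p = 1 then 1 / 4 else 1) ?_ ?_ ?_ ?_ ?_ ?_
  · intro X S h T hT
    refine (card_le_card (filter_subset_filter _ ?_)).trans h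
    unfold la
    exact filter_subset_filter _ hT
  · intro X p
    split_ifs <;> norm_num
  · intro X p _
    split_ifs <;> norm_num
  · intro X p h h'
    rw [if_pos ⟨not_le.2 h', h.2.1⟩]
  · intro X p _ _
    split_ifs <;> norm_num
  · intro X hX S hS
    rw [mem_LL] at hS
    rw [← prod_filter, prod_const]
    have h1 : (S.filter fun p => ¬ p ≤ zz X ∧ R413.SQ.mk p = 1).card ≤ ⌊eL X / 32⌋₊ := by
      refine (card_le_card ?_).trans hS.2.2.2
      intro p hp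
      rw [mem_filter] at hp
      unfold la
      rw [mem_filter, mem_filter]
      exact ⟨⟨hp.1, hp.2.1⟩, hp.2.2⟩
    have h2 : (1 / 4 : ℝ) ^ ⌊eL X / 32⌋₊ ≤
        (1 / 4 : ℝ) ^ (S.filter fun p => ¬ p ≤ zz X ∧ R413.SQ.mk p = 1).card :=
      pow_le_pow_of_le_one (by norm_num) (by norm_num) h1
    have h3 : Real.exp (-(Real.log 4 / 32 * eL X)) ≤ (1 / 4 : ℝ) ^ ⌊eL X / 32⌋₊ := by
      have e1 : (1 / 4 : ℝ) = Real.exp (-Real.log 4) := by
        rw [Real.exp_neg, Real.exp_log (by norm_num)]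
        norm_num
      rw [e1, ← Real.exp_nat_mul]
      apply Real.exp_le_exp.2
      have e2 : ((⌊eL X / 32⌋₊ : ℕ) : ℝ) ≤ eL X / 32 := Nat.floor_le (by linarith)
      have e4 : 0 ≤ Real.log 4 := Real.log_nonneg (by norm_num)
      have e5 := mul_le_mul_of_nonneg_right e2 e4
      linarith
    calc (1 : ℝ) = Real.exp (Real.log 4 / 32 * eL X) *
          Real.exp (-(Real.log 4 / 32 * eL X)) := by
          rw [← Real.exp_add, add_neg_cancel, Real.exp_zero]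
      _ ≤ _ := mul_le_mul_of_nonneg_left (h3.trans h2) (Real.exp_pos _).le
  · linarith

theorem w_FEW (hm : S_MER) (I K : Finset ℕ) (V : ℕ) (hI : Ok I K) :
    ∃ C : ℝ, 0 ≤ C ∧ ∀ᶠ X : ℕ in atTop,
    wt ((SS I K X).filter fun S => ((la (zz X) S).filter fun p => R413.SQ.mk p = 1).card ≤
      2 * (sm (zz X) S).card + V ∨ ∀ p ∈ la (zz X) S, R413.SQ.mk p = 1) ≤
    C * X * Real.exp (-(1 / 4) * eL X) := by
  obtain ⟨C₁, hC₁, h1⟩ := w_part1 hm I K
  obtain ⟨C₂, hC₂, h2⟩ := w_part3 hm hI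
  obtain ⟨C₃, hC₃, h3⟩ := w_part4 hm hI
  refine ⟨C₁ + C₂ + C₃, by positivity, ?_⟩
  filter_upwards [h1, h2, h3,
    eL_tendsto.eventually (eventually_ge_atTop (max 2 (160 * (V : ℝ))))] with X h5 h6 h7 h8
  have h9 : 2 ≤ eL X := (le_max_left _ _).trans h8
  have h10 : 160 * (V : ℝ) ≤ eL X := (le_max_right _ _).trans h8
  have h11 : ((SS I K X).filter fun S => ((la (zz X) S).filter fun p => R413.SQ.mk p = 1).card ≤
      2 * (sm (zz X) S).card + V ∨ ∀ p ∈ la (zz X) S, R413.SQ.mk p = 1) ⊆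
      ((SS I K X).filter fun S => eL X / 80 < ((sm (zz X) S).card : ℝ)) ∪
        (LL I X (fun S => ∀ p ∈ la (zz X) S, R413.SQ.mk p = 1) ∪
        LL I X fun S => ((la (zz X) S).filter fun p => R413.SQ.mk p = 1).card ≤
          ⌊eL X / 32⌋₊) := by
    intro S hS
    rw [mem_filter] at hS
    rw [mem_union, mem_union, mem_filter]
    rcases hS.2 with h | h
    · by_cases hc : eL X / 80 < ((sm (zz X) S).card : ℝ)
      · exact Or.inl ⟨hS.1, hc⟩
      · right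
        right
        rw [not_lt] at hc
        refine mem_LL_of hS.1 ?_
        apply Nat.le_floor
        have h12 : ((((la (zz X) S).filter fun p => R413.SQ.mk p = 1).card : ℕ) : ℝ) ≤
            2 * ((sm (zz X) S).card : ℝ) + V := by exact_mod_cast h
        linarith
    · exact Or.inr (Or.inl (mem_LL_of hS.1 h))
  have h12 := (wt_mono h11).trans ((wt_union _ _).trans (add_le_add le_rfl (wt_union _ _)))
  have h13 : C₁ * X * Real.exp (-(4 / 5) * eL X) ≤ C₁ * X * Real.exp (-(1 / 4) * eL X) := by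
    apply mul_le_mul_of_nonneg_left _ (by positivity)
    apply Real.exp_le_exp.2
    apply mul_le_mul_of_nonneg_right _ (by linarith)
    norm_num
  refine h12.trans ((add_le_add (h5.trans h13) (add_le_add h6 h7)).trans (le_of_eq ?_))
  ring

end Pool.Agent.U80.WQ
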