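import Pool.Agent.R413.SQ.Asy
import Pool.Agent.R413.SQ.CNT
import Pool.Agent.U80.WQ.WKey
import Pool.Agent.U80.WQ.WFew
import Pool.Agent.U80.WQ.WBad

/-!
# The asymptotics with weights
-/

set_option autoImplicit false

open scoped Classical
open Finset Filter

namespace Pool.Agent.U80.WQ

open Pool.Agent.R413.SQ (Sp In SS Ok pr1 RR Nd Gd Sml sml_of sml_add sml_rpow S_BIL S_BOX)
open Pool.Agent.R413.SQ.CNT (cut_count coll_count)
open Pool.Agent.Y703.CQ (nr sg prs HB S_EQ ext GdA S_SYM S_C2 S_LA c2 S_MER S_CHE)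
open Pool.Agent.Y703.CX (sm la jj XX eL zz kk S_SIE eL_tendsto logX_eq rpow_eL ev_eL one_le_exp
  kk_ge kk_le X_pos one_add_log lin_le kap zz_ge zz_pos kap_nonneg kap_pow kap_le)

/-- the block parameter -/
noncomputable def HW (X : ℕ) : ℕ := ⌈(Real.log X) ^ 10⌉₊

/-- the number of blocks -/
noncomputable def NW (X : ℕ) : ℕ := ⌊(HW X : ℝ) * Real.log X⌋₊ + 1

theorem HW_ge {X : ℕ} (h : 0 < eL X) : Real.exp (10 * eL X) ≤ HW X := by
  have h1 := Nat.le_ceil ((Real.log (X : ℝ)) ^ 10)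
  rw [logX_eq h, ← Real.exp_nat_mul] at h1
  push_cast at h1
  unfold HW
  rw [logX_eq h, ← Real.exp_nat_mul]
  push_cast
  exact h1

theorem HW_le {X : ℕ} (h : 0 < eL X) : (HW X : ℝ) ≤ 2 * Real.exp (10 * eL X) := by
  have h0 : (0 : ℝ) ≤ (Real.log (X : ℝ)) ^ 10 := pow_nonneg (Real.log_natCast_nonneg X) 10
  have h1 := (Nat.ceil_lt_add_one h0).le
  unfold HW
  refine h1.trans ?_
  rw [logX_eq h, ← Real.exp_nat_mul]
  push_cast
  have := one_le_exp (x := 10 * eL X) (by linarith)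
  linarith

theorem HW_pos {X : ℕ} (h : 0 < eL X) : 1 ≤ HW X := by
  have h1 := HW_ge h
  have h2 := Real.exp_pos (10 * eL X)
  have h3 : (0 : ℝ) < HW X := lt_of_lt_of_le h2 h1
  exact_mod_cast h3

/-- the largest weight -/
theorem two_kk {X : ℕ} (h : 1 ≤ eL X) : (2 : ℝ) ^ kk X ≤ Real.exp (8 * eL X) := by
  have e : (2 : ℝ) ^ kk X = Real.exp (kk X * Real.log 2) := by
    rw [mul_comm, Real.exp_mul, Real.exp_log (by norm_num), Real.rpow_natCast]
  rw [e]
  apply Real.exp_le_exp.2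
  have h3 := kk_le h
  have h4 := Real.log_two_lt_d9
  have h5 : 0 < Real.log 2 := Real.log_pos (by norm_num)
  nlinarith

/-- sets with many primes -/
theorem wsml_many (hm : S_MER) (I K : Finset ℕ) :
    Sml 0 fun X => wt ((SS I K X).filter fun S => kk X < S.card) := by
  obtain ⟨C, hC0, hC⟩ := w_four hm I K
  apply sml_of (C := C) (a := 4) (by norm_num)
  filter_upwards [hC, ev_eL 1] with X h1 hX
  have h2 : Real.exp (6 * eL X) ≤ 2 ^ kk X := by
    have e : (2 : ℝ) ^ kk X = Real.exp (kk X * Real.log 2) := by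
      rw [mul_comm, Real.exp_mul, Real.exp_log (by norm_num), Real.rpow_natCast]
    rw [e]
    apply Real.exp_le_exp.2
    have h3 := kk_ge X
    have h4 := Real.log_two_gt_d9
    nlinarith
  have h3 : wt ((SS I K X).filter fun S => kk X < S.card) * 2 ^ kk X ≤
      ∑ S ∈ SS I K X, (4 : ℝ) ^ S.card := by
    unfold wt
    rw [sum_mul]
    refine le_trans ?_ (sum_le_sum_of_subset_of_nonneg
      (filter_subset (fun S => kk X < S.card) (SS I K X)) fun S _ _ => by positivity)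
    refine sum_le_sum fun S hS => ?_
    have h5 : (2 : ℝ) ^ kk X ≤ 2 ^ S.card :=
      pow_le_pow_right₀ (by norm_num) (mem_filter.1 hS).2.le
    have h6 : (4 : ℝ) ^ S.card = 2 ^ S.card * 2 ^ S.card := by
      rw [← mul_pow]
      norm_num
    rw [h6]
    exact mul_le_mul_of_nonneg_left h5 (by positivity)
  have h4 : wt ((SS I K X).filter fun S => kk X < S.card) * Real.exp (6 * eL X) ≤
      C * (X * Real.exp (-4 * eL X)) * Real.exp (6 * eL X) := by
    have e : C * (X * Real.exp (-4 * eL X)) * Real.exp (6 * eL X) =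
        C * X * Real.exp (2 * eL X) := by
      have : Real.exp (2 * eL X) = Real.exp (-4 * eL X) * Real.exp (6 * eL X) := by
        rw [← Real.exp_add]; congr 1; ring
      rw [this]; ring
    rw [e]
    calc _ ≤ wt ((SS I K X).filter fun S => kk X < S.card) * 2 ^ kk X :=
          mul_le_mul_of_nonneg_left h2 (wt_nonneg _)
      _ ≤ _ := h3.trans h1
  exact le_of_mul_le_mul_right h4 (Real.exp_pos _)

/-- sets near the boundary -/
theorem wsml_cut (I K : Finset ℕ) : Sml 0 fun X => wt ((SS I K X).filter fun S => S.card ≤ kk X ∧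
    X < (∏ p ∈ sm (zz X) S, p) * ∏ p ∈ la (zz X) S, XX (HW X) (jj (HW X) p)) := by
  apply sml_of (C := 2) (a := 1 / 2) (by norm_num)
  have hlog : ∀ᶠ X : ℕ in atTop, Real.exp (9 * eL X) ≤ X := by
    have t1 : Tendsto (fun X : ℕ => Real.log (X : ℝ)) atTop atTop :=
      Real.tendsto_log_atTop.comp tendsto_natCast_atTop_atTop
    have t2 := (Real.tendsto_exp_div_pow_atTop 9).comp t1
    filter_upwards [ev_eL 1, t2.eventually_ge_atTop 1] with X hX h
    have h0 : 0 < eL X := by linarith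
    have hXp : (0 : ℝ) < X := by exact_mod_cast X_pos h0
    have h1 : (1 : ℝ) ≤ Real.exp (Real.log X) / (Real.log X) ^ 9 := h
    rw [Real.exp_log hXp, logX_eq h0, ← Real.exp_nat_mul, le_div_iff₀ (Real.exp_pos _)] at h1
    push_cast at h1
    linarith
  filter_upwards [ev_eL 1, lin_le (a := 1) (b := 11) (by norm_num) (by norm_num), hlog]
    with X hX h11 hl
  have h0 : 0 < eL X := by linarith
  set F := (SS I K X).filter fun S => S.card ≤ kk X ∧
    X < (∏ p ∈ sm (zz X) S, p) * ∏ p ∈ la (zz X) S, XX (HW X) (jj (HW X) p) with hF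
  have h1 : (F.card : ℝ) ≤ X * kk X / HW X + 1 := cut_count (HW_pos h0)
  have hw : wt F ≤ 2 ^ kk X * (F.card : ℝ) := wt_le fun S hS => (mem_filter.1 hS).2.1
  have hH := HW_ge h0
  have hHp : (0 : ℝ) < HW X := lt_of_lt_of_le (Real.exp_pos _) hH
  have hX0 : (0 : ℝ) ≤ X := Nat.cast_nonneg _
  have hkk := two_kk hX
  have h2 : (X : ℝ) * kk X / HW X ≤ X * Real.exp (-9 * eL X) := by
    rw [div_le_iff₀ hHp]
    calc (X : ℝ) * kk X ≤ X * Real.exp (eL X) := by
          have := kk_le hX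
          rw [one_mul] at h11
          have : (kk X : ℝ) ≤ Real.exp (eL X) := by linarith
          gcongr
      _ = X * (Real.exp (-9 * eL X) * Real.exp (10 * eL X)) := by
          rw [← Real.exp_add]
          congr 2
          ring
      _ ≤ X * Real.exp (-9 * eL X) * HW X := by
          rw [mul_assoc]
          gcongr
  have h3 : (1 : ℝ) ≤ X * Real.exp (-9 * eL X) := by
    have e : Real.exp (9 * eL X) * Real.exp (-9 * eL X) = 1 := by
      rw [← Real.exp_add]
      have : 9 * eL X + -9 * eL X = 0 := by ring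
      rw [this, Real.exp_zero]
    calc (1 : ℝ) = Real.exp (9 * eL X) * Real.exp (-9 * eL X) := e.symm
      _ ≤ X * Real.exp (-9 * eL X) := mul_le_mul_of_nonneg_right hl (Real.exp_pos _).le
  have h4 : (F.card : ℝ) ≤ 2 * (X * Real.exp (-9 * eL X)) := by linarith
  calc wt F ≤ 2 ^ kk X * (F.card : ℝ) := hw
    _ ≤ Real.exp (8 * eL X) * (2 * (X * Real.exp (-9 * eL X))) :=
        mul_le_mul hkk h4 (Nat.cast_nonneg _) (Real.exp_pos _).le
    _ = 2 * (X * Real.exp (-1 * eL X)) := by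
        have : Real.exp (-1 * eL X) = Real.exp (8 * eL X) * Real.exp (-9 * eL X) := by
          rw [← Real.exp_add]; congr 1; ring
        rw [this]; ring
    _ ≤ 2 * (X * Real.exp (-(1 / 2) * eL X)) := by
        have : Real.exp (-1 * eL X) ≤ Real.exp (-(1 / 2) * eL X) :=
          Real.exp_le_exp.2 (by linarith)
        gcongr

/-- sets with two primes in one block -/
theorem wsml_coll (I K : Finset ℕ) : Sml 0 fun X => wt ((SS I K X).filter fun S =>
    S.card ≤ kk X ∧ ¬ Set.InjOn (jj (HW X)) (la (zz X) S : Set ℕ)) := by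
  apply sml_of (C := 8) (a := 1) (by norm_num)
  filter_upwards [ev_eL 1] with X hX
  have h0 : 0 < eL X := by linarith
  set F := (SS I K X).filter fun S =>
    S.card ≤ kk X ∧ ¬ Set.InjOn (jj (HW X)) (la (zz X) S : Set ℕ) with hF
  have h1 : (((SS I K X).filter fun S =>
      ¬ Set.InjOn (jj (HW X)) (la (zz X) S : Set ℕ)).card : ℝ) ≤
      4 * X * (1 + Real.log X) / HW X := coll_count (HW_pos h0)
  have h2 : (F.card : ℝ) ≤ (((SS I K X).filter fun S =>
      ¬ Set.InjOn (jj (HW X)) (la (zz X) S : Set ℕ)).card : ℝ) := by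
    have : F ⊆ (SS I K X).filter fun S => ¬ Set.InjOn (jj (HW X)) (la (zz X) S : Set ℕ) := by
      intro S hS
      rw [hF, mem_filter] at hS
      rw [mem_filter]
      exact ⟨hS.1, hS.2.2⟩
    exact_mod_cast card_le_card this
  have hw : wt F ≤ 2 ^ kk X * (F.card : ℝ) := wt_le fun S hS => (mem_filter.1 hS).2.1
  have hH := HW_ge h0
  have hHp : (0 : ℝ) < HW X := lt_of_lt_of_le (Real.exp_pos _) hH
  have hX0 : (0 : ℝ) ≤ X := Nat.cast_nonneg _
  have h3 : (F.card : ℝ) ≤ 8 * (X * Real.exp (-9 * eL X)) := by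
    refine (h2.trans h1).trans ?_
    rw [div_le_iff₀ hHp]
    calc 4 * (X : ℝ) * (1 + Real.log X) ≤ 4 * X * (2 * Real.exp (eL X)) := by
          have := one_add_log h0
          gcongr
      _ = 8 * (X * (Real.exp (-9 * eL X) * Real.exp (10 * eL X))) := by
          rw [← Real.exp_add]
          have : -9 * eL X + 10 * eL X = eL X := by ring
          rw [this]
          ring
      _ ≤ 8 * (X * (Real.exp (-9 * eL X) * HW X)) := by gcongr
      _ = 8 * (X * Real.exp (-9 * eL X)) * HW X := by ring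
  calc wt F ≤ 2 ^ kk X * (F.card : ℝ) := hw
    _ ≤ Real.exp (8 * eL X) * (8 * (X * Real.exp (-9 * eL X))) :=
        mul_le_mul (two_kk hX) h3 (Nat.cast_nonneg _) (Real.exp_pos _).le
    _ = 8 * (X * Real.exp (-1 * eL X)) := by
        have : Real.exp (-1 * eL X) = Real.exp (8 * eL X) * Real.exp (-9 * eL X) := by
          rw [← Real.exp_add]; congr 1; ring
        rw [this]; ring

/-- the main error term -/
theorem wsml_main {C : ℝ} (hC : 1 ≤ C) : Sml 0 fun X => 2 ^ kk X * ((9 * (NW X : ℝ) + 9) ^ kk X *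
    (3 ^ (3 * kk X ^ 2) * kap C X) * (X * (1 + Real.log X))) := by
  apply sml_of (C := 4 * C) (a := 1) (by norm_num)
  filter_upwards [ev_eL 7000] with X hX
  set l := eL X with hl
  have h0 : 0 < eL X := by linarith
  have h1 : 1 ≤ eL X := by linarith
  have hX0 : (0 : ℝ) ≤ X := Nat.cast_nonneg _
  have hN : 9 * (NW X : ℝ) + 9 ≤ Real.exp (12 * l) := by
    have h2 : (NW X : ℝ) ≤ HW X * Real.log X + 1 := by
      unfold NW
      push_cast
      have := Nat.floor_le (a := (HW X : ℝ) * Real.log X)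
        (mul_nonneg (Nat.cast_nonneg _) (Real.log_natCast_nonneg X))
      linarith
    have h3 : (HW X : ℝ) * Real.log X ≤ 2 * Real.exp (11 * l) := by
      rw [logX_eq h0]
      calc (HW X : ℝ) * Real.exp (eL X) ≤ 2 * Real.exp (10 * eL X) * Real.exp (eL X) :=
            mul_le_mul_of_nonneg_right (HW_le h0) (Real.exp_pos _).le
        _ = 2 * Real.exp (11 * l) := by
            rw [mul_assoc, ← Real.exp_add]
            congr 2
            rw [hl]
            ring
    have h4 : 1 ≤ Real.exp (11 * l) := one_le_exp (by linarith)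
    have h5 : (36 : ℝ) ≤ Real.exp l := by
      have := Real.add_one_le_exp l
      linarith
    have h6 : Real.exp (12 * l) = Real.exp (11 * l) * Real.exp l := by
      rw [← Real.exp_add]; congr 1; ring
    rw [h6]
    nlinarith
  have hkk := kk_le h1
  have hkk0 : (0 : ℝ) ≤ kk X := Nat.cast_nonneg _
  have hA : (9 * (NW X : ℝ) + 9) ^ kk X ≤ Real.exp (132 * l ^ 2) := by
    calc (9 * (NW X : ℝ) + 9) ^ kk X ≤ (Real.exp (12 * l)) ^ kk X := by gcongr
      _ = Real.exp (kk X * (12 * l)) := (Real.exp_nat_mul _ _).symm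
      _ ≤ Real.exp (132 * l ^ 2) := by
          apply Real.exp_le_exp.2
          nlinarith
  have hB : (3 : ℝ) ^ (3 * kk X ^ 2) ≤ Real.exp (400 * l ^ 2) := by
    have e : (3 : ℝ) ^ (3 * kk X ^ 2) = Real.exp ((3 * (kk X : ℝ) ^ 2) * Real.log 3) := by
      rw [mul_comm (3 * (kk X : ℝ) ^ 2) (Real.log 3), Real.exp_mul, Real.exp_log (by norm_num)]
      rw [← Real.rpow_natCast]
      congr 1
      push_cast
      ring
    rw [e]
    apply Real.exp_le_exp.2
    have h2 : Real.log 3 ≤ 1.1 := by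
      have h3 : (3 : ℝ) ≤ Real.exp 1.1 := by
        have h4 : (2.7182818283 : ℝ) < Real.exp 1 := Real.exp_one_gt_d9
        have h5 : (1.105 : ℝ) ≤ Real.exp 0.1 := by
          have := Real.quadratic_le_exp_of_nonneg (x := 0.1) (by norm_num)
          norm_num at this ⊢
          linarith
        have h6 : Real.exp 1.1 = Real.exp 1 * Real.exp 0.1 := by
          rw [← Real.exp_add]; norm_num
        rw [h6]
        nlinarith
      calc Real.log 3 ≤ Real.log (Real.exp 1.1) := Real.log_le_log (by norm_num) h3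
        _ = 1.1 := Real.log_exp _
    have h3 : (kk X : ℝ) ^ 2 ≤ 121 * l ^ 2 := by nlinarith
    have h4 : 0 ≤ (kk X : ℝ) ^ 2 := sq_nonneg _
    nlinarith [sq_nonneg l]
  have hK := kap_le hC h1
  have hLg := one_add_log h0
  have h2k : (2 : ℝ) ^ kk X ≤ Real.exp (8 * l) := two_kk h1
  have hmain : 2 ^ kk X * ((9 * (NW X : ℝ) + 9) ^ kk X * (3 ^ (3 * kk X ^ 2) * kap C X) *
      (X * (1 + Real.log X))) ≤ Real.exp (8 * l) * (Real.exp (132 * l ^ 2) *
        (Real.exp (400 * l ^ 2) *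
        (2 * C * Real.exp (-l ^ 3 / 12))) * (X * (2 * Real.exp l))) := by
    have := kap_nonneg hC X
    have : 0 ≤ 1 + Real.log X := by
      have := Real.log_natCast_nonneg X
      linarith
    gcongr
  refine hmain.trans ?_
  have e : Real.exp (8 * l) * (Real.exp (132 * l ^ 2) * (Real.exp (400 * l ^ 2) *
        (2 * C * Real.exp (-l ^ 3 / 12))) * (X * (2 * Real.exp l))) =
      4 * C * (X * Real.exp (8 * l + 132 * l ^ 2 + 400 * l ^ 2 + -l ^ 3 / 12 + l)) := by
    rw [Real.exp_add, Real.exp_add, Real.exp_add, Real.exp_add]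
    ring
  rw [e]
  have h9 : 8 * l + 132 * l ^ 2 + 400 * l ^ 2 + -l ^ 3 / 12 + l ≤ -1 * l := by
    have h10 : 7000 * l ^ 2 ≤ l ^ 3 := by
      have : l ^ 3 = l * l ^ 2 := by ring
      rw [this]
      exact mul_le_mul_of_nonneg_right hX (sq_nonneg l)
    have h12 : l ≤ l ^ 2 := by nlinarith
    nlinarith
  have h11 := Real.exp_le_exp.2 h9
  have hC0 : (0 : ℝ) ≤ 4 * C := by linarith
  gcongr

/-- the sets outside the regular part -/
theorem w_out (I K : Finset ℕ) (X z H k V : ℕ) :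
    SS I K X \ ((RR I K X z H k V).filter fun S => Nd (sm z S) (la z S)) ⊆
      (((((SS I K X).filter fun S => k < S.card) ∪
      ((SS I K X).filter fun S => S.card ≤ k ∧
        X < (∏ p ∈ sm z S, p) * ∏ p ∈ la z S, XX H (jj H p))) ∪
      ((SS I K X).filter fun S => S.card ≤ k ∧ ¬ Set.InjOn (jj H) (la z S : Set ℕ))) ∪
      ((SS I K X).filter fun S => ((la z S).filter fun p => R413.SQ.mk p = 1).card ≤
        2 * (sm z S).card + V ∨ ∀ p ∈ la z S, R413.SQ.mk p = 1)) ∪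
      ((SS I K X).filter fun S => S.card ≤ k ∧ ¬ Nd (sm z S) (la z S)) := by
  intro S hS
  rw [Finset.mem_sdiff, Finset.mem_filter] at hS
  obtain ⟨h1, h2⟩ := hS
  simp only [mem_union, mem_filter]
  by_contra hc
  push Not at hc
  obtain ⟨⟨⟨⟨c1, c2⟩, c3⟩, c4⟩, c5⟩ := hc
  have d1 : S.card ≤ k := c1 h1
  have d2 := c2 h1 d1
  have d3 := c3 h1 d1
  have d4 := c4 h1
  have d5 := c5 h1 d1
  apply h2
  refine ⟨?_, d5⟩
  unfold RR
  rw [mem_filter]
  exact ⟨h1, d3, d1, d2, d4.1, d4.2⟩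

/-- the comparison of the weights -/
theorem w_cmp (G : Finset ℕ → Prop) (T S : Finset (Finset ℕ)) (hTS : T ⊆ S) (c : ℝ) (hc0 : 0 ≤ c)
    (hc1 : c ≤ 1) :
    |wt (S.filter G) - c * wt S| ≤ |wt (T.filter G) - c * wt T| + wt (S \ T) := by
  have e1 : wt (S.filter G) = wt (T.filter G) + wt ((S \ T).filter G) := by
    rw [← wt_disj (disjoint_filter_filter disjoint_sdiff), ← filter_union,
      union_sdiff_of_subset hTS]
  have e2 : wt S = wt T + wt (S \ T) := by
    rw [← wt_disj disjoint_sdiff, union_sdiff_of_subset hTS]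
  have h1 : |wt ((S \ T).filter G) - c * wt (S \ T)| ≤ wt (S \ T) := by
    have h2 : wt ((S \ T).filter G) ≤ wt (S \ T) := wt_mono (filter_subset _ _)
    have h3 : 0 ≤ wt (S \ T) := wt_nonneg _
    exact Pool.Agent.Y703.CX.abs_sub_le_of (wt_nonneg _) h2 (mul_nonneg hc0 h3)
      (mul_le_of_le_one_left h3 hc1)
  have e3 : wt (S.filter G) - c * wt S =
      (wt (T.filter G) - c * wt T) + (wt ((S \ T).filter G) - c * wt (S \ T)) := by
    rw [e1, e2]; ring
  rw [e3]
  exact (abs_add_le _ _).trans (add_le_add le_rfl h1)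

/-- **the proportion of the good sets, with weights** -/
theorem w_DQ (h1 : S_BIL) (h3 : S_EQ) (h4 : S_LA) (h5 : S_BOX) (hM : S_MER) (hc2 : S_C2)
    (hLow : ∃ (c : ℝ) (X₀ : ℕ), 0 < c ∧ ∀ X : ℕ, X₀ ≤ X → c * X ≤ wt (SS ∅ ∅ X))
    (f : ℕ → ZMod 2) :
    Tendsto (fun X : ℕ => wt ((SS ∅ ∅ X).filter (Gd f)) / wt (SS ∅ ∅ X)) atTop (nhds c2) := by
  have hO : Ok ∅ ∅ := trivial
  obtain ⟨C, hC1, hkey⟩ := w_KEY h1 h3 h4 h5
  obtain ⟨CB, XB, hbad⟩ := w_BAD hM ∅ ∅ hO
  obtain ⟨c, X₀, hc, hlow⟩ := hLow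
  rw [Metric.tendsto_nhds]
  intro ε hε
  obtain ⟨V, hV⟩ := exists_pow_lt_of_lt_one (show (0 : ℝ) < ε / 4 by linarith)
    (show (1 / 2 : ℝ) < 1 by norm_num)
  obtain ⟨CF, hCF, hfew⟩ := w_FEW hM ∅ ∅ V hO
  have s1 := wsml_many hM ∅ ∅
  have s2 := wsml_cut ∅ ∅
  have s3 := wsml_coll ∅ ∅
  have s4 : Sml 0 fun X => wt ((SS ∅ ∅ X).filter fun S =>
      ((la (zz X) S).filter fun p => R413.SQ.mk p = 1).card ≤
      2 * (sm (zz X) S).card + V ∨ ∀ p ∈ la (zz X) S, R413.SQ.mk p = 1) := by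
    apply sml_of (C := CF) (a := 1 / 4) (by norm_num)
    filter_upwards [hfew] with X hX
    rw [← mul_assoc]
    exact hX
  have s5 := sml_rpow (t := 0) (by norm_num) hbad
  have s6 := wsml_main hC1
  have s := sml_add (sml_add (sml_add (sml_add (sml_add s1 s2) s3) s4) s5) s6
  have hδ : (0 : ℝ) < c * ε / 4 := by positivity
  filter_upwards [s (c * ε / 4) hδ, ev_eL 1, eventually_ge_atTop X₀] with X hX hl hX0
  have hl0 : 0 < eL X := by linarith
  have hlo := hlow X hX0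
  have e00 : Real.exp (-0 * eL X) = 1 := by simp
  rw [e00, mul_one] at hX
  have hXp := X_pos hl0
  have hXp' : (0 : ℝ) < X := by exact_mod_cast hXp
  have hSpos : (0 : ℝ) < wt (SS ∅ ∅ X) := by
    refine lt_of_lt_of_le ?_ hlo
    positivity
  have hN : (HW X : ℝ) * Real.log X < NW X := by
    unfold NW
    push_cast
    exact Nat.lt_floor_add_one _
  have hmain := hkey ∅ ∅ f X (zz X) (HW X) (kk X) V (NW X) (kap C X) hO hXp (HW_pos hl0) (zz_pos hl)
    (kap_nonneg hC1 X) (kap_pow hC1 hl) hN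
  set T := (RR ∅ ∅ X (zz X) (HW X) (kk X) V).filter fun S => Nd (sm (zz X) S) (la (zz X) S) with hT
  have hTG : (RR ∅ ∅ X (zz X) (HW X) (kk X) V).filter
      (fun S => Nd (sm (zz X) S) (la (zz X) S) ∧ Gd f S) = T.filter (Gd f) := by
    rw [hT, filter_filter]
  rw [hTG] at hmain
  have hTS : T ⊆ SS ∅ ∅ X := (filter_subset _ _).trans (filter_subset _ _)
  have hRS : wt (RR ∅ ∅ X (zz X) (HW X) (kk X) V) ≤ wt (SS ∅ ∅ X) :=
    wt_mono (filter_subset _ _)
  have hcmp := w_cmp (Gd f) T (SS ∅ ∅ X) hTS c2 hc2.2.1.le hc2.2.2.1.le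
  have hout : wt (SS ∅ ∅ X \ T) ≤
      (wt ((SS ∅ ∅ X).filter fun S => kk X < S.card) +
      wt ((SS ∅ ∅ X).filter fun S => S.card ≤ kk X ∧
        X < (∏ p ∈ sm (zz X) S, p) * ∏ p ∈ la (zz X) S, XX (HW X) (jj (HW X) p)) +
      wt ((SS ∅ ∅ X).filter fun S => S.card ≤ kk X ∧
        ¬ Set.InjOn (jj (HW X)) (la (zz X) S : Set ℕ)) +
      wt ((SS ∅ ∅ X).filter fun S => ((la (zz X) S).filter fun p => R413.SQ.mk p = 1).card ≤
        2 * (sm (zz X) S).card + V ∨ ∀ p ∈ la (zz X) S, R413.SQ.mk p = 1)) +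
      wt ((SS ∅ ∅ X).filter fun S => S.card ≤ kk X ∧ ¬ Nd (sm (zz X) S) (la (zz X) S)) := by
    have g := wt_mono (w_out ∅ ∅ X (zz X) (HW X) (kk X) V)
    rw [← hT] at g
    refine g.trans ((wt_union _ _).trans (add_le_add ((wt_union _ _).trans (add_le_add
      ((wt_union _ _).trans (add_le_add (wt_union _ _) le_rfl)) le_rfl)) le_rfl))
  have htot : |wt ((SS ∅ ∅ X).filter (Gd f)) - c2 * wt (SS ∅ ∅ X)| ≤
      2 * (1 / 2 : ℝ) ^ V * wt (SS ∅ ∅ X) + c * ε / 4 * X := by
    have g1 : 2 * (1 / 2 : ℝ) ^ V * wt (RR ∅ ∅ X (zz X) (HW X) (kk X) V) ≤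
        2 * (1 / 2 : ℝ) ^ V * wt (SS ∅ ∅ X) := mul_le_mul_of_nonneg_left hRS (by positivity)
    linarith
  rw [Real.dist_eq]
  have e3 : wt ((SS ∅ ∅ X).filter (Gd f)) / wt (SS ∅ ∅ X) - c2 =
      (wt ((SS ∅ ∅ X).filter (Gd f)) - c2 * wt (SS ∅ ∅ X)) / wt (SS ∅ ∅ X) := by
    field_simp
  rw [e3, abs_div, abs_of_pos hSpos, div_lt_iff₀ hSpos]
  refine lt_of_le_of_lt htot ?_
  have g2 : c * ε / 4 * X ≤ ε / 4 * wt (SS ∅ ∅ X) := by
    calc c * ε / 4 * X = ε / 4 * (c * X) := by ring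
      _ ≤ _ := mul_le_mul_of_nonneg_left hlo (by linarith)
  have g3 : 2 * (1 / 2 : ℝ) ^ V * wt (SS ∅ ∅ X) ≤ 2 * (ε / 4) * wt (SS ∅ ∅ X) := by
    gcongr
  have g4 : 0 < ε * wt (SS ∅ ∅ X) := by positivity
  linarith

end Pool.Agent.U80.WQ
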