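import Pool.Agent.R413.SQ.Fin
import Pool.Agent.U80.WQ.WAsy
import Pool.Agent.U80.WQ.Trans

/-!
# The proportion of the good parameters
-/

set_option autoImplicit false

open scoped Classical

namespace Pool.Agent.U80.WQ

open Finset Filter
open Pool.Agent.R413.SQ (Sp In SS Cl Gd)
open Pool.Agent.Y703.CQ (c2)

theorem t_wDQ (f : ℕ → ZMod 2) :
    Tendsto (fun X : ℕ => wt ((SS ∅ ∅ X).filter (Gd f)) / wt (SS ∅ ∅ X)) atTop (nhds c2) :=
  w_DQ Pool.Agent.R413.SQ.BIL.t_BIL Pool.Agent.Y356.CQ.t_EQ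
    (Pool.Agent.Y219.CQ.t_LA Pool.Agent.Y839.CQ.t_SYM Pool.Agent.Y948.CQ.t_C2)
    Pool.Agent.R413.SQ.BOX.t_BOX Pool.Agent.Y405.CQ.t_MER Pool.Agent.Y948.CQ.t_C2 w_LOW f

/-- **the proportion** -/
theorem prop_t (f : ℕ → ZMod 2) :
    Tendsto (fun X : ℕ => ((TS X fun D => Gd f D.primeFactors).ncard : ℝ) /
      ((TS X fun _ => True).ncard : ℝ)) atTop (nhds c2) := by
  obtain ⟨c, X₀, hc, hlow⟩ := w_LOW
  have hinf : Tendsto (fun X : ℕ => wt (SS ∅ ∅ X)) atTop atTop := by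
    refine tendsto_atTop_mono' atTop ?_
      (Tendsto.const_mul_atTop hc tendsto_natCast_atTop_atTop)
    filter_upwards [eventually_ge_atTop X₀] with X hX
    exact hlow X hX
  have h1 := t_wDQ f
  have hd : Tendsto (fun X : ℕ => 1 / (2 * wt (SS ∅ ∅ X))) atTop (nhds 0) := by
    have := (Tendsto.const_mul_atTop (show (0 : ℝ) < 2 by norm_num) hinf).inv_tendsto_atTop
    refine this.congr fun X => ?_
    simp
  have hb : Tendsto (fun X : ℕ => (if Gd f ∅ ∧ 1 ≤ X then (1 : ℝ) else 0) /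
      (2 * wt (SS ∅ ∅ X))) atTop (nhds 0) := by
    refine squeeze_zero (fun X => ?_) (fun X => ?_) hd
    · have := wt_nonneg (SS ∅ ∅ X)
      split_ifs <;> positivity
    · have := wt_nonneg (SS ∅ ∅ X)
      apply div_le_div_of_nonneg_right _ (by positivity)
      split_ifs <;> norm_num
  have h2 : Tendsto (fun X : ℕ => (wt ((SS ∅ ∅ X).filter (Gd f)) / wt (SS ∅ ∅ X) -
      (if Gd f ∅ ∧ 1 ≤ X then (1 : ℝ) else 0) / (2 * wt (SS ∅ ∅ X))) /
      (1 - 1 / (2 * wt (SS ∅ ∅ X)))) atTop (nhds c2) := by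
    have := (h1.sub hb).div (tendsto_const_nhds.sub hd) (show (1 : ℝ) - 0 ≠ 0 by norm_num)
    rw [sub_zero, sub_zero, div_one] at this
    exact this
  refine h2.congr' ?_
  filter_upwards [hinf.eventually_gt_atTop 1, eventually_ge_atTop 1] with X hw hX
  have e1 := TS_card X (Gd f)
  have e2 := TS_card X (fun _ => True)
  rw [filter_true, if_pos ⟨trivial, hX⟩] at e2
  rw [e1, e2]
  set w := wt (SS ∅ ∅ X) with hwd
  have hw0 : w ≠ 0 := by linarith
  have hw1 : 2 * w - 1 ≠ 0 := by linarith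
  have hw2 : 1 - 1 / (2 * w) ≠ 0 := by
    have : 1 - 1 / (2 * w) = (2 * w - 1) / (2 * w) := by field_simp
    rw [this]
    exact div_ne_zero hw1 (by linarith)
  rw [div_eq_div_iff hw2 hw1]
  field_simp

/-- **the number of the good parameters** -/
theorem count_t (f : ℕ → ZMod 2) : ∃ (c : ℝ) (X₀ : ℕ), 0 < c ∧ ∀ X : ℕ, X₀ ≤ X →
    c * X ≤ ((TS X fun D => Gd f D.primeFactors).ncard : ℝ) := by
  obtain ⟨c, X₀, hc, hlow⟩ := w_LOW
  have h1 := t_wDQ f
  have hc2 : 0 < c2 := Pool.Agent.Y948.CQ.t_C2.2.1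
  have h2 := (h1.eventually (lt_mem_nhds (show c2 / 2 < c2 by linarith)))
  obtain ⟨X₁, hX₁⟩ := Filter.eventually_atTop.1 h2
  obtain ⟨X₂, hX₂⟩ := exists_nat_ge (2 / (c * c2))
  refine ⟨c * c2 / 2, max (max X₀ X₁) (max X₂ 1), by positivity, fun X hX => ?_⟩
  have k1 : X₀ ≤ X := le_trans (le_trans (le_max_left _ _) (le_max_left _ _)) hX
  have k2 : X₁ ≤ X := le_trans (le_trans (le_max_right _ _) (le_max_left _ _)) hX
  have k3 : X₂ ≤ X := le_trans (le_trans (le_max_left _ _) (le_max_right _ _)) hX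
  have k4 : 1 ≤ X := le_trans (le_trans (le_max_right _ _) (le_max_right _ _)) hX
  have a1 := hlow X k1
  have a2 := hX₁ X k2
  have hX0 : (0 : ℝ) < X := by exact_mod_cast k4
  have hpos : 0 < wt (SS ∅ ∅ X) := lt_of_lt_of_le (by positivity) a1
  have a3 := (lt_div_iff₀ hpos).1 a2
  have e1 := TS_card X (Gd f)
  rw [e1]
  have e2 : (if Gd f ∅ ∧ 1 ≤ X then (1 : ℝ) else 0) ≤ 1 := by split_ifs <;> norm_num
  have e3 : c2 * (c * X) ≤ c2 * wt (SS ∅ ∅ X) := mul_le_mul_of_nonneg_left a1 hc2.le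
  have e4 : (2 : ℝ) ≤ c * c2 * X := by
    have : 2 / (c * c2) ≤ X := hX₂.trans (by exact_mod_cast k3)
    rw [div_le_iff₀ (by positivity)] at this
    linarith
  nlinarith

/-- the number of all rational numbers -/
theorem total_t (X : ℕ) : ({t : ℚ | ht t ≤ X}.ncard : ℝ) ≤ 3 * X := by
  set s := Nat.sqrt X with hs
  have h1 : {t : ℚ | ht t ≤ X}.ncard ≤ ((Icc (-(s : ℤ)) s ×ˢ Icc 1 s : Finset (ℤ × ℕ))).card := by
    rw [← Set.ncard_coe_finset]
    refine Set.ncard_le_ncard_of_injOn (fun t : ℚ => (t.num, t.den)) ?_ ?_ (Finset.finite_toSet _)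
    · intro t h
      have h' : t.num.natAbs ^ 2 + t.den ^ 2 ≤ X := h
      have h2 : t.num.natAbs ≤ s := by
        rw [hs, Nat.le_sqrt]
        nlinarith
      have h3 : t.den ≤ s := by
        rw [hs, Nat.le_sqrt]
        nlinarith
      have h4 := t.den_pos
      rw [mem_coe, mem_product, mem_Icc, mem_Icc]
      simp only
      omega
    · intro t _ t' _ h
      simp only [Prod.mk.injEq] at h
      exact Rat.ext h.1 h.2
  rw [card_product, Int.card_Icc, Nat.card_Icc] at h1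
  have h2 : ((s : ℤ) + 1 - -(s : ℤ)).toNat = 2 * s + 1 := by omega
  rw [h2, Nat.add_sub_cancel] at h1
  have h3 : (2 * s + 1) * s ≤ 3 * X := by
    have a1 : s * s ≤ X := Nat.sqrt_le X
    have a2 : s ≤ s * s := Nat.le_mul_self s
    nlinarith
  exact_mod_cast h1.trans h3

end Pool.Agent.U80.WQ
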