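import Pool.Agent.R413.SM.Bad
import Pool.Agent.U80.WQ.WBad

/-! # The weight of the sets with degenerate labels, with a fixed set of extra primes -/

set_option autoImplicit false
set_option linter.unusedVariables false

open scoped Classical

namespace Pool.Agent.U80.WQ

open Finset
open Pool.Agent.Y703.CX (sm la jj XX eL zz kk S_SIE)
open Pool.Agent.R413.SQ
open Pool.Agent.R413.SQ.BAD
open Pool.Agent.Y703.CQ (nr sg prs HB S_EQ ext GdA S_SYM S_C2 S_LA c2 S_MER S_CHE)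
open Pool.Agent.Y37.CX (ev_pow Pm Pm_nonneg Pm_mono Pm_le)
open Pool.Agent.R413.SQ.SM (lgl)

/-- the weight of the sets with given small part -/
lemma w_fiberW (I K : Finset ℕ) (X z : ℕ) {S₀ E : Finset ℕ} (hS₀ : ∀ u ∈ S₀, u.Prime)
    (hE : ∀ u ∈ E, u.Prime ∧ u % 4 = 1) (hEz : ∀ u ∈ E, u ≤ z) :
    wt ((SS I K X).filter fun S => ¬ Nd (sm z S ∪ E) (la z S) ∧ sm z S = S₀) ≤
      2 ^ S₀.card * ∑ W ∈ (S₀ ∪ E).powerset, if W.Nonempty ∧ (∀ u ∈ W, u.Prime ∧ u % 4 = 1) then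
        wt (fam I W (X / ∏ p ∈ S₀, p)) else 0 := by
  have hSE : ∀ u ∈ S₀ ∪ E, u.Prime := by
    intro u hu
    rcases mem_union.1 hu with h | h
    · exact hS₀ u h
    · exact (hE u h).1
  set F := (SS I K X).filter fun S => ¬ Nd (sm z S ∪ E) (la z S) ∧ sm z S = S₀ with hF
  have hinj : Set.InjOn (fun S => la z S) (F : Set (Finset ℕ)) := by
    intro S hS T hT h
    rw [mem_coe, hF, mem_filter] at hS hT
    simp only at h
    have key : ∀ S : Finset ℕ, sm z S ∪ la z S = S := fun S => filter_union_filter_not_eq _ _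
    rw [← key S, ← key T, hS.2.2, hT.2.2, h]
  have e1 : wt F = 2 ^ S₀.card * wt (F.image fun S => la z S) := by
    unfold wt
    rw [sum_image hinj, mul_sum]
    refine sum_congr rfl fun S hS => ?_
    rw [hF, mem_filter] at hS
    have : S.card = (sm z S).card + (la z S).card :=
      (card_filter_add_card_filter_not (s := S) (fun p => p ≤ z)).symm
    rw [this, hS.2.2, pow_add]
  rw [e1]
  refine mul_le_mul_of_nonneg_left ?_ (by positivity)
  rw [← sum_filter]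
  refine le_trans (wt_mono ?_) (wt_biUnion _ _)
  intro T hT
  rw [mem_image] at hT
  obtain ⟨S, hS, rfl⟩ := hT
  rw [hF, mem_filter, SS, mem_filter, mem_powerset] at hS
  obtain ⟨⟨h1, h2, h4⟩, h5, h6⟩ := hS
  have hpr : ∀ p ∈ S, p.Prime := fun p hp => (pr1 (h2 p hp)).1
  obtain ⟨W, hWS, hWn, hW1, h7⟩ := notNd h5
  rw [h6] at hWS
  rw [mem_biUnion]
  refine ⟨W, ?_, ?_⟩
  · rw [mem_filter, mem_powerset]
    refine ⟨hWS, hWn, fun u hu => ⟨hSE u (hWS hu), ?_⟩⟩
    rcases mem_union.1 (hWS hu) with h8 | h8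
    · rw [← h6, sm, mem_filter] at h8
      exact (pr1 (h2 u h8.1)).2
    · exact (hE u h8).2
  · rw [fam, mem_filter, mem_powerset]
    have hN : 0 < ∏ p ∈ S₀, p := prod_pos_of fun p hp => hS₀ p hp
    have hprod : ∏ p ∈ la z S, p ≤ X / ∏ p ∈ S₀, p := by
      rw [Nat.le_div_iff_mul_le hN, mul_comm, ← h6]
      have : (∏ p ∈ sm z S, p) * ∏ p ∈ la z S, p = ∏ p ∈ S, p :=
        prod_filter_mul_prod_filter_not _ _ _
      rw [this]
      exact h4
    refine ⟨sub_range (fun p hp => hpr p (mem_filter.1 hp).1) hprod, ?_, hprod⟩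
    intro p hp
    rcases h2 p (mem_filter.1 hp).1 with h | h
    · left
      refine ⟨h, fun hpW => ?_, h7 p hp h.2.1⟩
      rcases mem_union.1 (hWS hpW) with h8 | h8
      · rw [← h6, sm, mem_filter] at h8
        exact (mem_filter.1 hp).2 h8.2
      · exact (mem_filter.1 hp).2 (hEz p h8)
    · exact Or.inr h

/-- **the weight of the sets with degenerate labels** -/
theorem w_JBAD (hMER : S_MER) (I K E : Finset ℕ) (hO : Ok I K)
    (hE : ∀ u ∈ E, u.Prime ∧ u % 4 = 1) :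
    ∃ (C : ℝ) (X₀ : ℕ), ∀ X : ℕ, X₀ ≤ X →
    wt ((SS I K X).filter fun S => S.card ≤ kk X ∧ ¬ Nd (sm (zz X) S ∪ E) (la (zz X) S)) ≤
      C * X * (Real.log X) ^ (-(1 / 8) : ℝ) := by
  obtain ⟨C₂, h21, h2⟩ := w_HAL
  obtain ⟨C₃, h30, h3⟩ := Pm_le
  obtain ⟨C₄, h4⟩ := mer I hMER
  obtain ⟨X₀, hX₀⟩ := w_params
  obtain ⟨X₁, hX₁⟩ := lgl ((E.sup id : ℕ) : ℝ)
  set cE : ℝ := Real.log ((∏ u ∈ E, u : ℕ) : ℝ) with hcE
  have hcE0 : 0 ≤ cE := Real.log_natCast_nonneg _
  obtain ⟨C₁, hC₁⟩ : ∃ C₁ : ℝ, C₁ = 1 + 2 * Real.log 4 := ⟨_, rfl⟩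
  have h11 : 1 ≤ C₁ := by
    rw [hC₁]
    have : 0 ≤ Real.log 4 := Real.log_nonneg (by norm_num)
    linarith
  have hC2 : 0 ≤ C₂ := by linarith
  have hC1 : 0 ≤ C₁ := by linarith
  refine ⟨2 ^ E.card * (3 * (11 + cE)) * C₁ * C₂ * Real.exp (2 * C₄) * Real.exp (4 * C₃),
    max X₀ X₁, fun X hX => ?_⟩
  obtain ⟨hX3, hl2, hlog1, h33, hfin⟩ := hX₀ X ((le_max_left _ _).trans hX)
  have hlE := hX₁ X ((le_max_right _ _).trans hX)
  set ℓ : ℝ := Real.log (Real.log X) with hℓ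
  set z : ℕ := zz X with hz
  set k : ℕ := kk X with hk
  have hlX : 0 < Real.log X := by linarith
  have hl0 : 0 < ℓ := by linarith
  have hk11 : (k : ℝ) ≤ 11 * ℓ := by
    have h := Nat.ceil_lt_add_one (show (0 : ℝ) ≤ 10 * eL X by
      unfold eL; rw [← hℓ]; positivity)
    have h' : (k : ℝ) < 10 * ℓ + 1 := h
    linarith
  have hl3 : (8 : ℝ) ≤ ℓ ^ 3 := by
    have := pow_le_pow_left₀ (by norm_num : (0 : ℝ) ≤ 2) hl2 3
    linarith
  have hz3 : 3 ≤ z := by
    rw [hz]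
    unfold zz
    apply Nat.le_floor
    have h := Real.add_one_le_exp ((eL X) ^ 3)
    have h' : (eL X) ^ 3 = ℓ ^ 3 := rfl
    rw [h'] at h ⊢
    push_cast
    linarith
  have hEz : ∀ u ∈ E, u ≤ z := by
    intro u hu
    rw [hz]
    unfold zz
    apply Nat.le_floor
    have h := Real.add_one_le_exp ((eL X) ^ 3)
    have h' : (eL X) ^ 3 = ℓ ^ 3 := rfl
    rw [h'] at h ⊢
    have h5 : (u : ℝ) ≤ ((E.sup id : ℕ) : ℝ) := by
      have := Finset.le_sup (f := id) hu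
      exact_mod_cast this
    have h6 : ℓ ≤ ℓ ^ 3 := by
      have : ℓ ^ 1 ≤ ℓ ^ 3 := pow_le_pow_right₀ (by linarith) (by norm_num)
      linarith
    linarith
  have hz1 : 1 ≤ z := by omega
  have hz0 : (0 : ℝ) < z := by exact_mod_cast hz1
  have hzlog : Real.log z ≤ ℓ ^ 3 := by
    rw [Real.log_le_iff_le_exp hz0]
    exact Nat.floor_le (Real.exp_pos _).le
  have hzlog0 : 0 < Real.log z := Real.log_pos (by exact_mod_cast (by omega : 1 < z))
  have hl4 : (1 : ℝ) ≤ ℓ ^ 4 := one_le_pow₀ (by linarith)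
  -- the size of the families
  set R : ℝ := (3 * (11 + cE)) * C₁ * C₂ * Real.exp (2 * C₄) * ℓ ^ 4 * ((Real.log X) ^ (1 / 4 : ℝ) *
    (Real.log X) ^ (1 / 2 : ℝ)) / Real.log X with hR
  have hrp0 : 0 < (Real.log X) ^ (1 / 4 : ℝ) := Real.rpow_pos_of_pos hlX _
  have hrp1 : 0 < (Real.log X) ^ (1 / 2 : ℝ) := Real.rpow_pos_of_pos hlX _
  have hR0 : 0 ≤ R := by
    rw [hR]
    positivity
  have key : ∀ S₀ : Finset ℕ, (∀ u ∈ S₀, u.Prime) → (∀ u ∈ S₀, u ≤ z) → S₀.card ≤ k →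
      ∀ W ⊆ S₀ ∪ E, W.Nonempty → (∀ u ∈ W, u.Prime ∧ u % 4 = 1) →
      wt (fam I W (X / ∏ p ∈ S₀, p)) ≤ (X : ℝ) / ((∏ p ∈ S₀, p : ℕ) : ℝ) * R := by
    intro S₀ hS₀ hSz hSk W hWS hWn hW1
    set N : ℕ := ∏ p ∈ S₀, p with hN
    have hN0 : 0 < N := prod_pos_of fun p hp => hS₀ p hp
    have hN0' : (0 : ℝ) < N := by exact_mod_cast hN0
    have hlN : Real.log N ≤ 11 * ℓ ^ 4 := by
      have e1 : Real.log N = ∑ p ∈ S₀, Real.log p := by
        rw [hN]
        push_cast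
        rw [Real.log_prod]
        intro p hp
        have := (hS₀ p hp).ne_zero
        exact_mod_cast this
      rw [e1]
      calc ∑ p ∈ S₀, Real.log p ≤ ∑ _p ∈ S₀, Real.log z := by
            refine sum_le_sum fun p hp => ?_
            exact Real.log_le_log (by exact_mod_cast (hS₀ p hp).pos) (by exact_mod_cast hSz p hp)
        _ = S₀.card * Real.log z := by rw [sum_const, nsmul_eq_mul]
        _ ≤ (11 * ℓ) * ℓ ^ 3 := by
            refine mul_le_mul (le_trans (by exact_mod_cast hSk) hk11) hzlog hzlog0.le (by positivity)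
        _ = 11 * ℓ ^ 4 := by ring
    set Y : ℕ := X / N with hY
    have hX0 : (0 : ℝ) < X := by exact_mod_cast (by omega : 0 < X)
    have hYle : (Y : ℝ) ≤ (X : ℝ) / N := Nat.cast_div_le
    have hYge : Real.exp (Real.log X / 3) ≤ Y := by
      have e1 : (X : ℝ) / N < Y + 1 := by
        rw [div_lt_iff₀ hN0']
        have := Nat.lt_mul_div_succ X hN0
        rw [← hY] at this
        have h' : ((X : ℕ) : ℝ) < ((N * (Y + 1) : ℕ) : ℝ) := by exact_mod_cast this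
        push_cast at h'
        linarith
      have e2 : Real.exp (Real.log X - Real.log N) = (X : ℝ) / N := by
        rw [Real.exp_sub, Real.exp_log hX0, Real.exp_log hN0']
      have e3 : Real.exp (Real.log X / 3 + 1) ≤ (X : ℝ) / N := by
        rw [← e2]
        apply Real.exp_le_exp.2
        linarith
      rw [Real.exp_add] at e3
      have e4 : (2 : ℝ) ≤ Real.exp 1 := by have := Real.exp_one_gt_d9; linarith
      have e5 : (1 : ℝ) ≤ Real.exp (Real.log X / 3) := Real.one_le_exp (by positivity)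
      nlinarith
    have hX16 : (9 : ℝ) ≤ Real.log X / 3 := by
      have e6 : (16 : ℝ) ≤ ℓ ^ 4 := by
        have := pow_le_pow_left₀ (by norm_num : (0 : ℝ) ≤ 2) hl2 4
        linarith
      linarith
    have hY3 : 3 ≤ Y := by
      have e1 := Real.add_one_le_exp (Real.log X / 3)
      have e2 : (3 : ℝ) ≤ Y := by linarith
      exact_mod_cast e2
    have hY2 : 2 ≤ Y := by omega
    have hY0 : (0 : ℝ) < Y := by exact_mod_cast (by omega : 0 < Y)
    have hlY : Real.log X / 3 ≤ Real.log Y := by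
      rw [Real.le_log_iff_exp_le hY0]
      exact hYge
    have hYX : Y ≤ X := Nat.div_le_self _ _
    have hlYX : Real.log Y ≤ Real.log X := Real.log_le_log hY0 (by exact_mod_cast hYX)
    have hlY0 : 0 < Real.log Y := by linarith
    -- the small factor
    have hlW : Real.log ((∏ u ∈ W, u : ℕ) : ℝ) ≤ (11 + cE) * ℓ ^ 4 := by
      have hWp : ∀ u ∈ W, u.Prime := fun u hu => (hW1 u hu).1
      have e0 : (0 : ℝ) < ((∏ u ∈ W, u : ℕ) : ℝ) := by exact_mod_cast prod_pos_of hWp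
      have hEp : 0 < ∏ u ∈ E, u := prod_pos_of fun u hu => (hE u hu).1
      have hEp' : (0 : ℝ) < ((∏ u ∈ E, u : ℕ) : ℝ) := by exact_mod_cast hEp
      have e7 : ∏ u ∈ W, u ≤ N * ∏ u ∈ E, u := by
        refine (prod_sub_le hWS ?_).trans ?_
        · intro u hu
          rcases mem_union.1 hu with h | h
          · exact hS₀ u h
          · exact (hE u h).1
        · have e8 : (∏ u ∈ S₀ ∪ E, u) * ∏ u ∈ S₀ ∩ E, u = (∏ u ∈ S₀, u) * ∏ u ∈ E, u :=
            Finset.prod_union_inter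
          have e9 : 0 < ∏ u ∈ S₀ ∩ E, u :=
            prod_pos_of fun u hu => hS₀ u (mem_inter.1 hu).1
          rw [hN, ← e8]
          exact Nat.le_mul_of_pos_right _ e9
      have e10 : Real.log ((∏ u ∈ W, u : ℕ) : ℝ) ≤ Real.log N + cE := by
        rw [hcE, ← Real.log_mul hN0'.ne' hEp'.ne']
        refine Real.log_le_log e0 ?_
        exact_mod_cast e7
      nlinarith
    have hlW0 : 0 ≤ Real.log ((∏ u ∈ W, u : ℕ) : ℝ) := Real.log_natCast_nonneg _
    have hmain := w_fam_card hO h21 h2 hWn hW1 hY2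
    rw [← hC₁] at hmain
    have hrY : (Real.log Y) ^ (1 / 4 : ℝ) ≤ (Real.log X) ^ (1 / 4 : ℝ) :=
      Real.rpow_le_rpow hlY0.le hlYX (by norm_num)
    have hexpI : Real.exp (2 * ∑ r ∈ NI I Y, (1 : ℝ) / r) ≤
        Real.exp (2 * C₄) * (Real.log X) ^ (1 / 2 : ℝ) := by
      have h5 : 2 * ∑ r ∈ NI I Y, (1 : ℝ) / r ≤ 2 * C₄ + 1 / 2 * Real.log (Real.log Y) := by
        have := h4 Y hY3
        linarith
      refine (Real.exp_le_exp.2 h5).trans ?_
      rw [Real.exp_add]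
      refine mul_le_mul_of_nonneg_left ?_ (Real.exp_pos _).le
      rw [Real.rpow_def_of_pos hlX]
      apply Real.exp_le_exp.2
      rw [mul_comm]
      refine mul_le_mul_of_nonneg_right ?_ (by norm_num)
      exact Real.log_le_log hlY0 hlYX
    have hrY0 : 0 ≤ (Real.log Y) ^ (1 / 4 : ℝ) := Real.rpow_nonneg hlY0.le _
    have hb : C₁ * Y * ((C₂ * Real.log ((∏ u ∈ W, u : ℕ) : ℝ) *
        (Real.log Y) ^ (1 / 4 : ℝ)) * Real.exp (2 * ∑ r ∈ NI I Y, (1 : ℝ) / r)) ≤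
        C₁ * ((X : ℝ) / N) * ((C₂ * ((11 + cE) * ℓ ^ 4) * (Real.log X) ^ (1 / 4 : ℝ)) *
          (Real.exp (2 * C₄) * (Real.log X) ^ (1 / 2 : ℝ))) := by
      gcongr
    have hc : wt (fam I W Y) * (Real.log X / 3) ≤
        C₁ * ((X : ℝ) / N) * ((C₂ * ((11 + cE) * ℓ ^ 4) * (Real.log X) ^ (1 / 4 : ℝ)) *
          (Real.exp (2 * C₄) * (Real.log X) ^ (1 / 2 : ℝ))) := by
      refine le_trans ?_ (hmain.trans hb)
      exact mul_le_mul_of_nonneg_left hlY (wt_nonneg _)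
    have hd : (X : ℝ) / N * R = (C₁ * ((X : ℝ) / N) * ((C₂ * ((11 + cE) * ℓ ^ 4) *
        (Real.log X) ^ (1 / 4 : ℝ)) * (Real.exp (2 * C₄) * (Real.log X) ^ (1 / 2 : ℝ)))) /
          (Real.log X / 3) := by
      rw [hR]
      field_simp
    rw [hd, le_div_iff₀ (by positivity)]
    exact hc
  -- the sum over the small parts
  set B := (SS I K X).filter fun S => S.card ≤ k ∧ ¬ Nd (sm z S ∪ E) (la z S) with hB
  set D := (range (z + 1)).filter fun p => p.Prime with hD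
  set W := D.powerset.filter fun S => S.card ≤ k with hW
  have hmaps : ∀ S ∈ B, sm z S ∈ W := by
    intro S hS
    rw [hB, mem_filter, SS, mem_filter, mem_powerset] at hS
    obtain ⟨⟨k1, k2, k3⟩, k4, k5⟩ := hS
    rw [hW, mem_filter, mem_powerset]
    refine ⟨fun p hp => ?_, (card_le_card (filter_subset _ _)).trans k4⟩
    obtain ⟨l1, l2⟩ := mem_filter.1 hp
    rw [hD, mem_filter, mem_range]
    refine ⟨by omega, ?_⟩
    rcases k2 p l1 with h | h
    · exact h.1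
    · exact h.1
  have hcard : wt B ≤ ∑ S₀ ∈ W,
      4 ^ S₀.card * ((X : ℝ) / ((∏ p ∈ S₀, p : ℕ) : ℝ) * (2 ^ E.card * R)) := by
    rw [wt_fiber B (fun S => sm z S) W hmaps]
    refine sum_le_sum fun S₀ hS₀ => ?_
    rw [hW, mem_filter, mem_powerset] at hS₀
    have hpr : ∀ u ∈ S₀, u.Prime := fun u hu => (mem_filter.1 (hS₀.1 hu)).2
    have hle : ∀ u ∈ S₀, u ≤ z := fun u hu => by
      have := mem_range.1 (mem_filter.1 (hS₀.1 hu)).1
      omega
    have e1 : wt (B.filter fun S => sm z S = S₀) ≤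
        wt ((SS I K X).filter fun S => ¬ Nd (sm z S ∪ E) (la z S) ∧ sm z S = S₀) := by
      refine wt_mono fun S hS => ?_
      rw [mem_filter, hB, mem_filter] at hS
      rw [mem_filter]
      exact ⟨hS.1.1, hS.1.2.2, hS.2⟩
    have e2 := e1.trans (w_fiberW I K X z hpr hE hEz)
    have e3 : wt (B.filter fun S => sm z S = S₀) ≤
        2 ^ S₀.card * ∑ t ∈ (S₀ ∪ E).powerset, (X : ℝ) / ((∏ p ∈ S₀, p : ℕ) : ℝ) * R := by
      refine e2.trans ?_
      refine mul_le_mul_of_nonneg_left (sum_le_sum fun t htS => ?_) (by positivity)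
      split_ifs with ht
      · exact key S₀ hpr hle hS₀.2 t (mem_powerset.1 htS) ht.1 ht.2
      · exact mul_nonneg (div_nonneg (Nat.cast_nonneg _) (by positivity)) hR0
    refine e3.trans ?_
    rw [sum_const, card_powerset, nsmul_eq_mul]
    have e4 : (4 : ℝ) ^ S₀.card = 2 ^ S₀.card * 2 ^ S₀.card := by
      rw [← mul_pow]
      norm_num
    have e4' : (2 : ℝ) ^ (S₀ ∪ E).card ≤ 2 ^ S₀.card * 2 ^ E.card := by
      rw [← pow_add]
      exact pow_le_pow_right₀ (by norm_num) (card_union_le _ _)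
    have e5 : 0 ≤ (X : ℝ) / (∏ p ∈ S₀, (p : ℝ)) * R :=
      mul_nonneg (div_nonneg (Nat.cast_nonneg _) (prod_nonneg fun _ _ => Nat.cast_nonneg _)) hR0
    rw [e4]
    push_cast
    calc (2 : ℝ) ^ S₀.card * ((2 : ℝ) ^ (S₀ ∪ E).card * ((X : ℝ) / (∏ p ∈ S₀, (p : ℝ)) * R)) ≤
        2 ^ S₀.card * ((2 ^ S₀.card * 2 ^ E.card) * ((X : ℝ) / (∏ p ∈ S₀, (p : ℝ)) * R)) := by
          gcongr
      _ = _ := by ring
  have hsum : ∑ S₀ ∈ W, 4 ^ S₀.card * ((X : ℝ) / ((∏ p ∈ S₀, p : ℕ) : ℝ) * (2 ^ E.card * R)) ≤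
      X * (2 ^ E.card * R) * Real.exp (4 * Pm z) := by
    have e1 : ∀ S₀ ∈ W, 4 ^ S₀.card * ((X : ℝ) / ((∏ p ∈ S₀, p : ℕ) : ℝ) * (2 ^ E.card * R)) =
        X * (2 ^ E.card * R) * ∏ p ∈ S₀, (4 / (p : ℝ)) := by
      intro S₀ _
      rw [prod_div_distrib, prod_const]
      push_cast
      ring
    rw [sum_congr rfl e1, ← mul_sum]
    have h2XR : 0 ≤ (X : ℝ) * (2 ^ E.card * R) := by positivity
    refine mul_le_mul_of_nonneg_left ?_ h2XR
    calc ∑ S₀ ∈ W, ∏ p ∈ S₀, (4 / (p : ℝ)) ≤ ∑ S₀ ∈ D.powerset, ∏ p ∈ S₀, (4 / (p : ℝ)) := by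
          refine sum_le_sum_of_subset_of_nonneg (filter_subset _ _) fun S _ _ => ?_
          exact prod_nonneg fun _ _ => by positivity
      _ = ∏ p ∈ D, (1 + 4 / (p : ℝ)) := by rw [prod_one_add]
      _ ≤ ∏ p ∈ D, Real.exp (4 / (p : ℝ)) := by
          refine prod_le_prod (fun _ _ => by positivity) fun p _ => ?_
          rw [add_comm]
          exact Real.add_one_le_exp _
      _ = Real.exp (∑ p ∈ D, 4 / (p : ℝ)) := by rw [Real.exp_sum]
      _ ≤ Real.exp (4 * Pm z) := by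
          apply Real.exp_le_exp.2
          unfold Pm
          rw [mul_sum]
          have e2 : ∀ p : ℕ, 4 / (p : ℝ) = 4 * (1 / p) := fun p => by ring
          simp_rw [e2]
          refine sum_le_sum_of_subset_of_nonneg ?_ fun _ _ _ => by positivity
          intro p hp
          rw [hD, mem_filter, mem_range] at hp
          rw [mem_filter, mem_Icc]
          exact ⟨⟨hp.2.pos, by omega⟩, hp.2⟩
  have hexp : Real.exp (4 * Pm z) ≤ Real.exp (4 * C₃) * ℓ ^ 12 := by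
    have e1 := h3 z hz3
    have e2 : Real.exp (4 * Pm z) ≤ Real.exp (4 * (Real.log (Real.log z) + C₃)) :=
      Real.exp_le_exp.2 (by linarith)
    refine e2.trans ?_
    have e3 : Real.exp (4 * (Real.log (Real.log z) + C₃)) = Real.exp (4 * C₃) * (Real.log z) ^ 4 := by
      rw [mul_add, Real.exp_add, mul_comm]
      congr 1
      rw [show (4 : ℝ) * Real.log (Real.log z) = Real.log ((Real.log z) ^ 4) by
        rw [Real.log_pow]; push_cast; ring]
      exact Real.exp_log (by positivity)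
    rw [e3]
    refine mul_le_mul_of_nonneg_left ?_ (Real.exp_pos _).le
    calc (Real.log z) ^ 4 ≤ (ℓ ^ 3) ^ 4 := pow_le_pow_left₀ hzlog0.le hzlog 4
      _ = ℓ ^ 12 := by ring
  have hXR : 0 ≤ (X : ℝ) * (2 ^ E.card * R) := by positivity
  have hX0' : (0 : ℝ) ≤ X := Nat.cast_nonneg _
  calc wt B ≤ X * (2 ^ E.card * R) * Real.exp (4 * Pm z) := hcard.trans hsum
    _ ≤ X * (2 ^ E.card * R) * (Real.exp (4 * C₃) * ℓ ^ 12) :=
        mul_le_mul_of_nonneg_left hexp hXR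
    _ = 2 ^ E.card * (3 * (11 + cE)) * C₁ * C₂ * Real.exp (2 * C₄) * Real.exp (4 * C₃) * X * (ℓ ^ 16 *
          ((Real.log X) ^ (1 / 4 : ℝ) * (Real.log X) ^ (1 / 2 : ℝ)) / Real.log X) := by
        rw [hR]
        ring
    _ ≤ 2 ^ E.card * (3 * (11 + cE)) * C₁ * C₂ * Real.exp (2 * C₄) * Real.exp (4 * C₃) * X * ((Real.log X) ^ (1 / 8 : ℝ) *
          ((Real.log X) ^ (1 / 4 : ℝ) * (Real.log X) ^ (1 / 2 : ℝ)) / Real.log X) := by
        gcongr
    _ ≤ 2 ^ E.card * (3 * (11 + cE)) * C₁ * C₂ * Real.exp (2 * C₄) * Real.exp (4 * C₃) * X *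
          (Real.log X) ^ (-(1 / 8) : ℝ) := by
        apply mul_le_mul_of_nonneg_left _ (by positivity)
        rw [← Real.rpow_add hlX, ← Real.rpow_add hlX]
        nth_rewrite 2 [← Real.rpow_one (Real.log X)]
        rw [← Real.rpow_sub hlX]
        apply Real.rpow_le_rpow_of_exponent_le hlog1.le
        norm_num

end Pool.Agent.U80.WQ
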