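import Pool.Agent.R413.SM.Law
import Pool.Agent.U80.WQ.Fin
import Pool.Agent.U80.WQ.JAsy

/-!
# The joint law for the rational parameters
-/

set_option autoImplicit false

open scoped Classical

namespace Pool.Agent.U80.WQ

open Finset Filter
open Pool.Agent.R413.SQ (Sp In SS Cl Gd)
open Pool.Agent.R413.SQ.SM (GdF dd Pos Fa di)
open Pool.Agent.Y703.CQ (c2)

/-- the joint law for functions indexed by `Fin M` -/
theorem wlawM {M : ℕ} (F : Fin M → ℕ → ZMod 2) (V : Fin M → Finset ℕ) (W : Finset ℕ)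
    (hW1 : ∀ u ∈ W, u.Prime ∧ u % 4 = 1) (hW2 : ∀ i, V i ⊆ W)
    (hpos : ∀ i j, i ≠ j → Pos (dd F V i j)) :
    Tendsto (fun X : ℕ => wt ((SS ∅ ∅ X).filter (GdF F V)) / wt (SS ∅ ∅ X)) atTop
      (nhds (c2 ^ M)) :=
  w_DQF Pool.Agent.R413.SQ.BIL.t_BIL Pool.Agent.Y356.CQ.t_EQ Pool.Agent.Y697.JQ.t_JLA
    Pool.Agent.Y405.CQ.t_MER Pool.Agent.Y948.CQ.t_C2 w_LOW F V W hW1 hW2 hpos

/-- the joint law -/
theorem wlawS {ι : Type} {F : ι → ℕ → ZMod 2} {V : ι → Finset ℕ} (h : Fa F V) (P : Finset ι) :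
    Tendsto (fun X : ℕ => wt ((SS ∅ ∅ X).filter fun S => ∀ i ∈ P, Gd (F i) (symmDiff S (V i))) /
      wt (SS ∅ ∅ X)) atTop (nhds (c2 ^ P.card)) := by
  set e : Fin P.card ≃ P := P.equivFin.symm with he
  have h1 := wlawM (fun k => F (e k)) (fun k => V (e k)) (P.biUnion V)
    (fun u hu => by
      obtain ⟨i, -, hi⟩ := mem_biUnion.1 hu
      exact h.pr i u hi)
    (fun k => subset_biUnion_of_mem V (e k).2)
    (fun i j hij => h.sep _ _ fun h' => hij (e.injective (Subtype.ext h')))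
  refine h1.congr fun X => ?_
  congr 2
  refine filter_congr fun S _ => ?_
  unfold GdF
  constructor
  · intro h2 i hi
    have h3 := h2 (e.symm ⟨i, hi⟩)
    simp only [Equiv.apply_symm_apply] at h3
    exact h3
  · intro h2 k
    exact h2 _ (e k).2

/-- all the patterns -/
theorem wlawPQ {ι : Type} {F : ι → ℕ → ZMod 2} {V : ι → Finset ℕ}
    (h : Fa F V) (Q : Finset ι) : ∀ P : Finset ι, Disjoint P Q → Tendsto
    (fun X : ℕ => wt ((SS ∅ ∅ X).filter fun S => (∀ i ∈ P, Gd (F i) (symmDiff S (V i))) ∧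
      ∀ i ∈ Q, ¬ Gd (F i) (symmDiff S (V i))) / wt (SS ∅ ∅ X)) atTop
      (nhds (c2 ^ P.card * (1 - c2) ^ Q.card)) := by
  induction Q using Finset.induction_on with
  | empty =>
    intro P _
    have h1 := wlawS h P
    simpa using h1
  | insert q Q hq ih =>
    intro P hPQ
    rw [disjoint_insert_right] at hPQ
    have h1 := ih P hPQ.2
    have h2 := ih (insert q P) (disjoint_insert_left.2 ⟨hq, hPQ.2⟩)
    have h3 := h1.sub h2
    rw [card_insert_of_notMem hPQ.1] at h3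
    rw [card_insert_of_notMem hq]
    have e : c2 ^ P.card * (1 - c2) ^ Q.card - c2 ^ (P.card + 1) * (1 - c2) ^ Q.card =
        c2 ^ P.card * (1 - c2) ^ (Q.card + 1) := by ring
    rw [e] at h3
    refine h3.congr fun X => ?_
    rw [← sub_div]
    congr 1
    set T := (SS ∅ ∅ X).filter fun S => (∀ i ∈ P, Gd (F i) (symmDiff S (V i))) ∧
      ∀ i ∈ Q, ¬ Gd (F i) (symmDiff S (V i)) with hT
    have h4 : wt (T.filter fun S => Gd (F q) (symmDiff S (V q))) +
        wt (T.filter fun S => ¬ Gd (F q) (symmDiff S (V q))) = wt T := by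
      rw [← wt_disj (disjoint_filter_filter_not _ _ _), filter_union_filter_not_eq]
    have e1 : T.filter (fun S => Gd (F q) (symmDiff S (V q))) =
        (SS ∅ ∅ X).filter fun S => (∀ i ∈ insert q P, Gd (F i) (symmDiff S (V i))) ∧
          ∀ i ∈ Q, ¬ Gd (F i) (symmDiff S (V i)) := by
      rw [hT, filter_filter]
      refine filter_congr fun S _ => ?_
      rw [forall_mem_insert]
      tauto
    have e2 : T.filter (fun S => ¬ Gd (F q) (symmDiff S (V q))) =
        (SS ∅ ∅ X).filter fun S => (∀ i ∈ P, Gd (F i) (symmDiff S (V i))) ∧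
          ∀ i ∈ insert q Q, ¬ Gd (F i) (symmDiff S (V i)) := by
      rw [hT, filter_filter]
      refine filter_congr fun S _ => ?_
      rw [forall_mem_insert]
      tauto
    rw [e1, e2] at h4
    rw [← h4]
    ring

/-- the total weight tends to infinity -/
theorem wt_inf : Tendsto (fun X : ℕ => wt (SS ∅ ∅ X)) atTop atTop := by
  obtain ⟨c, X₀, hc, hlow⟩ := w_LOW
  refine tendsto_atTop_mono' atTop ?_
    (Tendsto.const_mul_atTop hc tendsto_natCast_atTop_atTop)
  filter_upwards [eventually_ge_atTop X₀] with X hX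
  exact hlow X hX

/-- from the weights to the parameters -/
theorem prop_gen {Q : Finset ℕ → Prop} {θ : ℝ}
    (h1 : Tendsto (fun X : ℕ => wt ((SS ∅ ∅ X).filter Q) / wt (SS ∅ ∅ X)) atTop (nhds θ)) :
    Tendsto (fun X : ℕ => ((TS X fun D => Q D.primeFactors).ncard : ℝ) /
      ((TS X fun _ => True).ncard : ℝ)) atTop (nhds θ) := by
  have hinf := wt_inf
  have hd : Tendsto (fun X : ℕ => 1 / (2 * wt (SS ∅ ∅ X))) atTop (nhds 0) := by
    have := (Tendsto.const_mul_atTop (show (0 : ℝ) < 2 by norm_num) hinf).inv_tendsto_atTop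
    refine this.congr fun X => ?_
    simp
  have hb : Tendsto (fun X : ℕ => (if Q ∅ ∧ 1 ≤ X then (1 : ℝ) else 0) /
      (2 * wt (SS ∅ ∅ X))) atTop (nhds 0) := by
    refine squeeze_zero (fun X => ?_) (fun X => ?_) hd
    · have := wt_nonneg (SS ∅ ∅ X)
      split_ifs <;> positivity
    · have := wt_nonneg (SS ∅ ∅ X)
      apply div_le_div_of_nonneg_right _ (by positivity)
      split_ifs <;> norm_num
  have h2 : Tendsto (fun X : ℕ => (wt ((SS ∅ ∅ X).filter Q) / wt (SS ∅ ∅ X) -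
      (if Q ∅ ∧ 1 ≤ X then (1 : ℝ) else 0) / (2 * wt (SS ∅ ∅ X))) /
      (1 - 1 / (2 * wt (SS ∅ ∅ X)))) atTop (nhds θ) := by
    have := (h1.sub hb).div (tendsto_const_nhds.sub hd) (show (1 : ℝ) - 0 ≠ 0 by norm_num)
    rw [sub_zero, sub_zero, div_one] at this
    exact this
  refine h2.congr' ?_
  filter_upwards [hinf.eventually_gt_atTop 1, eventually_ge_atTop 1] with X hw hX
  have e1 := TS_card X Q
  have e2 := TS_card X (fun _ => True)
  rw [filter_true, if_pos ⟨trivial, hX⟩] at e2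
  rw [e1, e2]
  set w := wt (SS ∅ ∅ X) with hwd
  have hw0 : w ≠ 0 := by linarith
  have hw1 : 2 * w - 1 ≠ 0 := by linarith
  have hw2 : 1 - 1 / (2 * w) ≠ 0 := by
    have : 1 - 1 / (2 * w) = (2 * w - 1) / (2 * w) := by field_simp
    rw [this]
    exact div_ne_zero hw1 (by linarith)
  rw [div_eq_div_iff hw2 hw1]
  field_simp

/-- the number of the parameters, for a positive proportion -/
theorem count_gen {Q : Finset ℕ → Prop} {θ : ℝ} (hθ : 0 < θ)
    (h1 : Tendsto (fun X : ℕ => wt ((SS ∅ ∅ X).filter Q) / wt (SS ∅ ∅ X)) atTop (nhds θ)) :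
    ∃ (c : ℝ) (X₀ : ℕ), 0 < c ∧ ∀ X : ℕ, X₀ ≤ X →
    c * X ≤ ((TS X fun D => Q D.primeFactors).ncard : ℝ) := by
  obtain ⟨c, X₀, hc, hlow⟩ := w_LOW
  have h2 := (h1.eventually (lt_mem_nhds (show θ / 2 < θ by linarith)))
  obtain ⟨X₁, hX₁⟩ := Filter.eventually_atTop.1 h2
  obtain ⟨X₂, hX₂⟩ := exists_nat_ge (2 / (c * θ))
  refine ⟨c * θ / 2, max (max X₀ X₁) (max X₂ 1), by positivity, fun X hX => ?_⟩
  have k1 : X₀ ≤ X := le_trans (le_trans (le_max_left _ _) (le_max_left _ _)) hX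
  have k2 : X₁ ≤ X := le_trans (le_trans (le_max_right _ _) (le_max_left _ _)) hX
  have k3 : X₂ ≤ X := le_trans (le_trans (le_max_left _ _) (le_max_right _ _)) hX
  have k4 : 1 ≤ X := le_trans (le_trans (le_max_right _ _) (le_max_right _ _)) hX
  have a1 := hlow X k1
  have a2 := hX₁ X k2
  have hX0 : (0 : ℝ) < X := by exact_mod_cast k4
  have hpos : 0 < wt (SS ∅ ∅ X) := lt_of_lt_of_le (by positivity) a1
  have a3 := (lt_div_iff₀ hpos).1 a2
  have e1 := TS_card X Q
  rw [e1]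
  have e2 : (if Q ∅ ∧ 1 ≤ X then (1 : ℝ) else 0) ≤ 1 := by split_ifs <;> norm_num
  have e3 : θ * (c * X) ≤ θ * wt (SS ∅ ∅ X) := mul_le_mul_of_nonneg_left a1 hθ.le
  have e4 : (2 : ℝ) ≤ c * θ * X := by
    have : 2 / (c * θ) ≤ X := hX₂.trans (by exact_mod_cast k3)
    rw [div_le_iff₀ (by positivity)] at this
    linarith
  nlinarith

section Joint

open Pool.Agent.R413.SQ.Joint (tw adm_tw det_tw Ix fa)
open Pool.Agent.Y698.SG (n4)
open Pool.Agent.Results.MP_4a9ea6_nt.TwoPartTwistsX49 (Adm mat)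

/-- the finite sets with the pattern -/
def Pt (T V : Finset ℕ) (S : Finset ℕ) : Prop :=
  ∀ M ∈ T, (Gd n4 (symmDiff S M.primeFactors) ↔ M ∈ V)

theorem pt_iff {T V : Finset ℕ} (hT : ∀ M ∈ T, Adm M) {D : ℕ} (hD : Adm D) :
    (∀ M ∈ T, ((mat (tw M D)).det ≠ 0 ↔ M ∈ V)) ↔ Pt T V D.primeFactors :=
  forall₂_congr fun M hM => by rw [det_tw (hT M hM) hD]

/-- **the joint law, for the weights** -/
theorem w_joint {T V : Finset ℕ} (hT : ∀ M ∈ T, Adm M) (hV : V ⊆ T) :
    Tendsto (fun X : ℕ => wt ((SS ∅ ∅ X).filter (Pt T V)) / wt (SS ∅ ∅ X)) atTop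
      (nhds (c2 ^ V.card * (1 - c2) ^ (T \ V).card)) := by
  have hVf : ∀ x ∈ V, Adm x := fun x hx => hT x (hV hx)
  have hQf : ∀ x ∈ T \ V, Adm x := fun x hx => hT x (Finset.mem_sdiff.1 hx).1
  set P : Finset Ix := V.subtype Adm with hP
  set Q : Finset Ix := (T \ V).subtype Adm with hQ
  have hd : Disjoint P Q := by
    rw [Finset.disjoint_left]
    intro z hz hz'
    rw [hP, Finset.mem_subtype] at hz
    rw [hQ, Finset.mem_subtype] at hz'
    exact (Finset.mem_sdiff.1 hz').2 hz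
  have cP : P.card = V.card := by
    rw [hP, Finset.card_subtype, Finset.filter_true_of_mem hVf]
  have cQ : Q.card = (T \ V).card := by
    rw [hQ, Finset.card_subtype, Finset.filter_true_of_mem hQf]
  have h := wlawPQ fa Q P hd
  rw [cP, cQ] at h
  refine h.congr fun X => ?_
  congr 2
  refine filter_congr fun S _ => ?_
  constructor
  · rintro ⟨h2, h3⟩ M hM
    by_cases hMV : M ∈ V
    · exact ⟨fun _ => hMV, fun _ => h2 ⟨M, hT M hM⟩ (by rw [hP, Finset.mem_subtype]; exact hMV)⟩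
    · refine ⟨fun h4 => ?_, fun h4 => absurd h4 hMV⟩
      exact absurd h4 (h3 ⟨M, hT M hM⟩ (by
        rw [hQ, Finset.mem_subtype]
        exact Finset.mem_sdiff.2 ⟨hM, hMV⟩))
  · intro h2
    constructor
    · intro i hi
      rw [hP, Finset.mem_subtype] at hi
      exact (h2 i.1 (hV hi)).2 hi
    · intro i hi
      rw [hQ, Finset.mem_subtype] at hi
      obtain ⟨h3, h4⟩ := Finset.mem_sdiff.1 hi
      exact fun h5 => h4 ((h2 i.1 h3).1 h5)

/-- **the joint law, for the parameters** -/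
theorem joint_t {T V : Finset ℕ} (hT : ∀ M ∈ T, Adm M) (hV : V ⊆ T) :
    Tendsto (fun X : ℕ => ((TS X fun D => Pt T V D.primeFactors).ncard : ℝ) /
      ((TS X fun _ => True).ncard : ℝ)) atTop
      (nhds (c2 ^ V.card * (1 - c2) ^ (T \ V).card)) := prop_gen (w_joint hT hV)

/-- the number of the parameters with a given pattern -/
theorem joint_count {T V : Finset ℕ} (hT : ∀ M ∈ T, Adm M) (hV : V ⊆ T) :
    ∃ (c : ℝ) (X₀ : ℕ), 0 < c ∧ ∀ X : ℕ, X₀ ≤ X →
    c * X ≤ ((TS X fun D => Pt T V D.primeFactors).ncard : ℝ) := by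
  have h0 : 0 < c2 := Pool.Agent.Y948.CQ.t_C2.2.1
  have h1 : 0 < 1 - c2 := by
    have := Pool.Agent.Y948.CQ.t_C2.2.2.1
    linarith
  exact count_gen (by positivity) (w_joint hT hV)

end Joint

end Pool.Agent.U80.WQ
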