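import Mathlib

/-!
# The number of representations as a sum of two squares of a squarefree number with all prime factors
# `1` modulo `4`
-/

set_option autoImplicit false

namespace Pool.Agent.U80.WQ

open Finset

/-- the Gaussian integers of given norm -/
def NZ (n : ℤ) : Set GaussianInt := {z | z.norm = n}

theorem norm_eq (z : GaussianInt) : z.norm = z.re ^ 2 + z.im ^ 2 := by
  rw [Zsqrtd.norm_def]
  ring

theorem NZ_one : (NZ 1).ncard = 4 := by
  have h : NZ 1 = (({⟨1, 0⟩, ⟨-1, 0⟩, ⟨0, 1⟩, ⟨0, -1⟩} : Finset GaussianInt) : Set GaussianInt) := by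
    ext z
    simp only [NZ, Set.mem_ofPred_eq, norm_eq, coe_insert, coe_singleton, Set.mem_insert_iff,
      Set.mem_singleton_iff]
    constructor
    · intro h
      obtain ⟨x, y⟩ := z
      simp only at h
      have hx : x ^ 2 ≤ 1 := by nlinarith [sq_nonneg y]
      have hy : y ^ 2 ≤ 1 := by nlinarith [sq_nonneg x]
      have hx1 : -1 ≤ x ∧ x ≤ 1 := abs_le.1 ((sq_le_one_iff_abs_le_one x).1 hx)
      have hy1 : -1 ≤ y ∧ y ≤ 1 := abs_le.1 ((sq_le_one_iff_abs_le_one y).1 hy)
      obtain ⟨hx1, hx2⟩ := hx1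
      obtain ⟨hy1, hy2⟩ := hy1
      interval_cases x <;> interval_cases y <;> simp_all
    · rintro (h | h | h | h) <;> rw [h] <;> simp
  rw [h, Set.ncard_coe_finset]
  rfl

theorem NZ_finite (n : ℤ) : (NZ n).Finite := by
  have h : NZ n ⊆ (fun q : ℤ × ℤ => (⟨q.1, q.2⟩ : GaussianInt)) ''
      ((Finset.Icc (-|n|) |n| ×ˢ Finset.Icc (-|n|) |n| : Finset (ℤ × ℤ)) : Set (ℤ × ℤ)) := by
    rintro ⟨x, y⟩ hz
    simp only [NZ, Set.mem_ofPred_eq, norm_eq] at hz
    refine ⟨(x, y), ?_, rfl⟩
    have h1 : x ^ 2 ≤ |n| := by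
      have := le_abs_self n
      nlinarith [sq_nonneg y]
    have h2 : y ^ 2 ≤ |n| := by
      have := le_abs_self n
      nlinarith [sq_nonneg x]
    have key : ∀ t m : ℤ, 0 ≤ m → t ^ 2 ≤ m → -m ≤ t ∧ t ≤ m := by
      intro t m hm h
      rw [← abs_le]
      rw [← sq_abs] at h
      have := abs_nonneg t
      nlinarith
    rw [Finset.coe_product, Set.mem_prod, Finset.mem_coe, Finset.mem_coe, Finset.mem_Icc,
      Finset.mem_Icc]
    exact ⟨key x _ (abs_nonneg n) h1, key y _ (abs_nonneg n) h2⟩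
  exact Set.Finite.subset ((Finset.finite_toSet _).image _) h

theorem prime_of_norm {z : GaussianInt} {p : ℕ} (hp : p.Prime) (h : z.norm = p) : Prime z := by
  rw [← irreducible_iff_prime]
  constructor
  · intro hu
    have h1 := (Zsqrtd.norm_eq_one_iff' (by norm_num : (-1 : ℤ) ≤ 0) z).2 hu
    rw [h] at h1
    have : p = 1 := by exact_mod_cast h1
    exact hp.one_lt.ne' this
  · intro a b hab
    have h1 : a.norm * b.norm = p := by rw [← Zsqrtd.norm_mul, ← hab, h]
    have ha := Zsqrtd.norm_nonneg (by norm_num : (-1 : ℤ) ≤ 0) a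
    have hb := Zsqrtd.norm_nonneg (by norm_num : (-1 : ℤ) ≤ 0) b
    obtain ⟨m, hm⟩ := Int.eq_ofNat_of_zero_le ha
    obtain ⟨k, hk⟩ := Int.eq_ofNat_of_zero_le hb
    rw [hm, hk] at h1
    have h2 : m * k = p := by exact_mod_cast h1
    rcases (Nat.prime_mul_iff.1 (h2.symm ▸ hp : (m * k).Prime)) with ⟨h3, h4⟩ | ⟨h3, h4⟩
    · right
      rw [h4] at hk
      exact (Zsqrtd.norm_eq_one_iff' (by norm_num : (-1 : ℤ) ≤ 0) b).1 (by rw [hk]; rfl)
    · left
      rw [h4] at hm
      exact (Zsqrtd.norm_eq_one_iff' (by norm_num : (-1 : ℤ) ≤ 0) a).1 (by rw [hm]; rfl)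

theorem NZ_step {p : ℕ} (hp : p.Prime) (h4 : p % 4 = 1) {n : ℤ} (hn : ¬ (p : ℤ) ∣ n) :
    (NZ (p * n)).ncard = 2 * (NZ n).ncard := by
  have hpf : Fact p.Prime := ⟨hp⟩
  obtain ⟨a, b, hab⟩ := Nat.Prime.sq_add_sq (p := p) (by omega)
  set w : GaussianInt := ⟨a, b⟩ with hw
  have hwn : w.norm = p := by
    rw [norm_eq]
    simp only [hw]
    exact_mod_cast hab
  have hwn' : (star w).norm = p := by rw [Zsqrtd.norm_conj, hwn]
  have hww : w * star w = (p : GaussianInt) := by
    rw [← Zsqrtd.norm_eq_mul_conj, hwn]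
    push_cast
    rfl
  have pw := prime_of_norm hp hwn
  have pw' := prime_of_norm hp hwn'
  have hw0 : w ≠ 0 := pw.ne_zero
  have hw0' : star w ≠ 0 := pw'.ne_zero
  have hp0 : (p : ℤ) ≠ 0 := by exact_mod_cast hp.ne_zero
  -- a divisor of norm `p`
  have hdvd : ∀ {v z : GaussianInt}, v.norm = p → v ∣ z → (p : ℤ) ∣ z.norm := by
    rintro v z hv ⟨u, rfl⟩
    rw [Zsqrtd.norm_mul, hv]
    exact dvd_mul_right _ _
  have e1 : NZ (p * n) = (fun z => w * z) '' NZ n ∪ (fun z => star w * z) '' NZ n := by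
    ext z
    constructor
    · intro hz
      have hz' : z.norm = p * n := hz
      have h1 : w ∣ z * star z := by
        rw [← Zsqrtd.norm_eq_mul_conj, hz']
        push_cast
        rw [← hww, mul_assoc]
        exact dvd_mul_right _ _
      rcases pw.dvd_or_dvd h1 with h | h
      · left
        obtain ⟨u, rfl⟩ := h
        refine ⟨u, ?_, rfl⟩
        rw [Zsqrtd.norm_mul, hwn] at hz'
        exact mul_left_cancel₀ hp0 hz'
      · right
        obtain ⟨u, hu⟩ := h
        have h2 : z = star w * star u := by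
          have := congrArg star hu
          rw [star_star, star_mul] at this
          rw [this, mul_comm]
        refine ⟨star u, ?_, h2.symm⟩
        rw [h2, Zsqrtd.norm_mul, hwn'] at hz'
        exact mul_left_cancel₀ hp0 hz'
    · rintro (⟨u, hu, rfl⟩ | ⟨u, hu, rfl⟩)
      · show (w * u).norm = _
        rw [Zsqrtd.norm_mul, hwn, show u.norm = n from hu]
      · show (star w * u).norm = _
        rw [Zsqrtd.norm_mul, hwn', show u.norm = n from hu]
  -- the two primes are not associated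
  have hns : ¬ w ∣ star w := by
    intro h
    have h1 : w ∣ w + star w := dvd_add dvd_rfl h
    have h2 : w + star w = ((2 * a : ℕ) : GaussianInt) := by
      apply Zsqrtd.ext
      · simp [hw]
        ring
      · simp [hw]
    rw [h2] at h1
    have h3 := hdvd hwn h1
    rw [show (((2 * a : ℕ) : GaussianInt)).norm = ((2 * a : ℕ) : ℤ) * ((2 * a : ℕ) : ℤ) from
      Zsqrtd.norm_natCast _] at h3
    have h4' : p ∣ 2 * a * (2 * a) := by exact_mod_cast h3
    have h5 : p ∣ a := by
      rcases (Nat.Prime.dvd_mul hp).1 h4' with h | h <;>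
      · rcases (Nat.Prime.dvd_mul hp).1 h with h' | h'
        · have := Nat.le_of_dvd (by norm_num) h'
          have := hp.two_le
          have h6 : p = 2 := by omega
          rw [h6] at h4
          omega
        · exact h'
    have h6 : p ∣ b := by
      have h7 : p ∣ b ^ 2 := by
        have h8 : p ∣ a ^ 2 + b ^ 2 := by rw [hab]
        exact (Nat.dvd_add_right (h5.pow two_ne_zero)).1 h8
      exact hp.dvd_of_dvd_pow h7
    obtain ⟨a', rfl⟩ := h5
    obtain ⟨b', rfl⟩ := h6
    have h7 : p * p ∣ p := by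
      refine Dvd.intro (a' ^ 2 + b' ^ 2) ?_
      calc p * p * (a' ^ 2 + b' ^ 2) = (p * a') ^ 2 + (p * b') ^ 2 := by ring
        _ = p := hab
    have h8 := Nat.le_of_dvd hp.pos h7
    have h9 := hp.two_le
    nlinarith
  have hdis : Disjoint ((fun z => w * z) '' NZ n) ((fun z => star w * z) '' NZ n) := by
    rw [Set.disjoint_left]
    rintro _ ⟨u, hu, rfl⟩ ⟨v, hv, hvu⟩
    simp only at hvu
    have h1 : w ∣ star w * v := ⟨u, hvu⟩
    rcases pw.dvd_or_dvd h1 with h | h
    · exact hns h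
    · exact hn (by
        have := hdvd hwn h
        rwa [show v.norm = n from hv] at this)
  rw [e1, Set.ncard_union_eq hdis ((NZ_finite n).image _) ((NZ_finite n).image _),
    Set.ncard_image_of_injective _ (mul_right_injective₀ hw0),
    Set.ncard_image_of_injective _ (mul_right_injective₀ hw0')]
  ring

/-- **The number of representations.** -/
theorem NZ_prod (S : Finset ℕ) (hS : ∀ p ∈ S, p.Prime ∧ p % 4 = 1) :
    (NZ ((∏ p ∈ S, p : ℕ) : ℤ)).ncard = 4 * 2 ^ S.card := by
  classical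
  induction S using Finset.induction_on with
  | empty => simp [NZ_one]
  | insert q T hq ih =>
    have hT : ∀ p ∈ T, p.Prime ∧ p % 4 = 1 := fun p hp => hS p (mem_insert_of_mem hp)
    have hq1 := hS q (mem_insert_self _ _)
    have hnd : ¬ ((q : ℕ) : ℤ) ∣ ((∏ p ∈ T, p : ℕ) : ℤ) := by
      intro h
      have h1 : q ∣ ∏ p ∈ T, p := by exact_mod_cast h
      obtain ⟨r, hr, h2⟩ := (Prime.dvd_finsetProd_iff hq1.1.prime _).1 h1
      have h3 := (Nat.prime_dvd_prime_iff_eq hq1.1 (hT r hr).1).1 h2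
      exact hq (h3 ▸ hr)
    rw [prod_insert hq, Nat.cast_mul, NZ_step hq1.1 hq1.2 hnd, ih hT, card_insert_of_notMem hq]
    ring

end Pool.Agent.U80.WQ
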