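import Pool.Agent.R413.SQ.Stm
import Pool.Agent.U80.WQ.Wt
import Pool.Agent.U80.WQ.RTwo

/-!
# The lower bound for the weight of the class
-/

set_option autoImplicit false

open scoped Classical

namespace Pool.Agent.U80.WQ

open Finset
open Pool.Agent.R413.SQ (Sp In SS pr1 of_pr1)

/-- a value of the form -/
def vl (u v : ℕ) : ℕ := (30 * u) ^ 2 + (30 * v + 1) ^ 2

theorem card_cls (U m : ℕ) (A : Finset ℕ) (hA : A ⊆ range U)
    (h : ∀ x ∈ A, ∀ y ∈ A, x % m = y % m) : A.card ≤ U / m + 1 := by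
  rw [← card_range (U / m + 1)]
  refine card_le_card_of_injOn (fun x => x / m) ?_ ?_
  · intro x hx
    have := mem_range.1 (hA hx)
    rw [mem_coe, mem_range]
    exact Nat.lt_succ_of_le (Nat.div_le_div_right this.le)
  · intro x hx y hy hxy
    have h1 := h x hx y hy
    simp only at hxy
    rw [← Nat.div_add_mod x m, ← Nat.div_add_mod y m, h1, hxy]

theorem cop30 {p : ℕ} (hp : p.Prime) (h7 : 7 ≤ p) : IsCoprime (p : ℤ) 30 := by
  have key : IsCoprime (p : ℤ) ((30 : ℕ) : ℤ) := by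
    rw [Nat.isCoprime_iff_coprime, Nat.Prime.coprime_iff_not_dvd hp]
    intro h
    have h1 : p ∣ 2 * 3 * 5 := by simpa using h
    rcases (Nat.Prime.dvd_mul hp).1 h1 with h2 | h2
    · rcases (Nat.Prime.dvd_mul hp).1 h2 with h3 | h3
      · have := Nat.le_of_dvd (by norm_num) h3; omega
      · have := Nat.le_of_dvd (by norm_num) h3; omega
    · have := Nat.le_of_dvd (by norm_num) h2; omega
  exact_mod_cast key

theorem mod_of {m x y : ℕ} (hm : IsCoprime (m : ℤ) 30)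
    (h : (m : ℤ) ∣ 30 * ((x : ℤ) - y)) : x % m = y % m := by
  have h1 : (m : ℤ) ∣ (x : ℤ) - y := hm.dvd_of_dvd_mul_left h
  exact ((Nat.modEq_iff_dvd).2 h1).symm

theorem card_two (U p : ℕ) (hp : p.Prime) (h7 : 7 ≤ p) (u : ℕ) (hu : ¬ p ∣ u) :
    ((range U).filter fun v => p ^ 2 ∣ vl u v).card ≤ 2 * (U / p ^ 2 + 1) := by
  set A := (range U).filter fun v => p ^ 2 ∣ vl u v with hA
  have hP : Prime (p : ℤ) := Nat.prime_iff_prime_int.1 hp
  have h30 := cop30 hp h7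
  have h30' : IsCoprime ((p ^ 2 : ℕ) : ℤ) 30 := by
    push_cast
    exact h30.pow_left
  rcases A.eq_empty_or_nonempty with he | ⟨v₀, hv₀⟩
  · rw [he, card_empty]
    exact Nat.zero_le _
  have hv0 : ((p ^ 2 : ℕ) : ℤ) ∣ (30 * (u : ℤ)) ^ 2 + (30 * (v₀ : ℤ) + 1) ^ 2 := by
    have := (mem_filter.1 hv₀).2
    unfold vl at this
    exact_mod_cast this
  have hnv : ∀ v ∈ A, ¬ (p : ℤ) ∣ 30 * (v : ℤ) + 1 := by
    intro v hv h
    have h1 : p ^ 2 ∣ (30 * u) ^ 2 + (30 * v + 1) ^ 2 := (mem_filter.1 hv).2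
    have h2 : (p : ℤ) ∣ (30 * (u : ℤ)) ^ 2 + (30 * (v : ℤ) + 1) ^ 2 := by
      have h3 : p ∣ (30 * u) ^ 2 + (30 * v + 1) ^ 2 := (dvd_pow_self p two_ne_zero).trans h1
      exact_mod_cast h3
    have h4 : (p : ℤ) ∣ (30 * (u : ℤ)) ^ 2 := by
      have := dvd_sub h2 (h.trans (dvd_pow_self _ two_ne_zero))
      simpa using this
    have h5 : (p : ℤ) ∣ 30 * (u : ℤ) := hP.dvd_of_dvd_pow h4
    have h6 : (p : ℤ) ∣ (u : ℤ) := h30.dvd_of_dvd_mul_left h5
    exact hu (by exact_mod_cast h6)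
  set A₁ := A.filter fun v => v % p ^ 2 = v₀ % p ^ 2 with hA₁
  set A₂ := A.filter fun v : ℕ => ((p ^ 2 : ℕ) : ℤ) ∣ (30 * (v : ℤ) + 1) + (30 * (v₀ : ℤ) + 1) with hA₂
  have hsub : A ⊆ A₁ ∪ A₂ := by
    intro v hv
    rw [mem_union]
    have h1 : ((p ^ 2 : ℕ) : ℤ) ∣ (30 * (u : ℤ)) ^ 2 + (30 * (v : ℤ) + 1) ^ 2 := by
      have := (mem_filter.1 hv).2
      unfold vl at this
      exact_mod_cast this
    have h2 : ((p ^ 2 : ℕ) : ℤ) ∣ ((30 * (v : ℤ) + 1) + (30 * (v₀ : ℤ) + 1)) *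
        (30 * ((v : ℤ) - v₀)) := by
      have := dvd_sub h1 hv0
      have e : (30 * (u : ℤ)) ^ 2 + (30 * (v : ℤ) + 1) ^ 2 -
          ((30 * (u : ℤ)) ^ 2 + (30 * (v₀ : ℤ) + 1) ^ 2) =
          ((30 * (v : ℤ) + 1) + (30 * (v₀ : ℤ) + 1)) * (30 * ((v : ℤ) - v₀)) := by ring
      rwa [e] at this
    by_cases hd : (p : ℤ) ∣ 30 * ((v : ℤ) - v₀)
    · left
      refine mem_filter.2 ⟨hv, ?_⟩
      have h3 : ¬ (p : ℤ) ∣ (30 * (v : ℤ) + 1) + (30 * (v₀ : ℤ) + 1) := by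
        intro h4
        have h5 : (p : ℤ) ∣ 2 * (30 * (v : ℤ) + 1) := by
          have := dvd_add h4 hd
          have e : (30 * (v : ℤ) + 1) + (30 * (v₀ : ℤ) + 1) + 30 * ((v : ℤ) - v₀) =
            2 * (30 * (v : ℤ) + 1) := by ring
          rwa [e] at this
        rcases hP.dvd_or_dvd h5 with h6 | h6
        · have h8 : p ∣ 2 := by exact_mod_cast h6
          have := Nat.le_of_dvd (by norm_num) h8
          omega
        · exact hnv v hv h6
      have h6 : IsCoprime ((p ^ 2 : ℕ) : ℤ) ((30 * (v : ℤ) + 1) + (30 * (v₀ : ℤ) + 1)) := by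
        push_cast
        exact ((Prime.coprime_iff_not_dvd hP).2 h3).pow_left
      exact mod_of h30' (h6.dvd_of_dvd_mul_left h2)
    · right
      refine mem_filter.2 ⟨hv, ?_⟩
      have h6 : IsCoprime ((p ^ 2 : ℕ) : ℤ) (30 * ((v : ℤ) - v₀)) := by
        push_cast
        exact ((Prime.coprime_iff_not_dvd hP).2 hd).pow_left
      exact h6.dvd_of_dvd_mul_right h2
  have c1 : A₁.card ≤ U / p ^ 2 + 1 := by
    refine card_cls U (p ^ 2) A₁ ((filter_subset _ _).trans (filter_subset _ _)) fun x hx y hy => ?_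
    rw [(mem_filter.1 hx).2, (mem_filter.1 hy).2]
  have c2 : A₂.card ≤ U / p ^ 2 + 1 := by
    refine card_cls U (p ^ 2) A₂ ((filter_subset _ _).trans (filter_subset _ _)) fun x hx y hy => ?_
    apply mod_of h30'
    have h1 := dvd_sub (mem_filter.1 hx).2 (mem_filter.1 hy).2
    have e : (30 * (x : ℤ) + 1) + (30 * (v₀ : ℤ) + 1) - ((30 * (y : ℤ) + 1) + (30 * (v₀ : ℤ) + 1)) =
      30 * ((x : ℤ) - y) := by ring
    rwa [e] at h1
  have := (card_le_card hsub).trans (card_union_le _ _)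
  omega

theorem card_uv (U p : ℕ) (hp : p.Prime) (h7 : 7 ≤ p) :
    ((range U ×ˢ range U).filter fun w => p ∣ w.1 ∧ p ^ 2 ∣ vl w.1 w.2).card ≤
      (U / p + 1) * (U / p + 1) := by
  have h30 := cop30 hp h7
  have hP : Prime (p : ℤ) := Nat.prime_iff_prime_int.1 hp
  have hsub : (range U ×ˢ range U).filter (fun w => p ∣ w.1 ∧ p ^ 2 ∣ vl w.1 w.2) ⊆
      ((range U).filter fun u => p ∣ u) ×ˢ ((range U).filter fun v => p ∣ 30 * v + 1) := by
    intro w hw
    rw [mem_filter, mem_product] at hw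
    rw [mem_product, mem_filter, mem_filter]
    refine ⟨⟨hw.1.1, hw.2.1⟩, hw.1.2, ?_⟩
    have h1 : p ∣ (30 * w.1) ^ 2 + (30 * w.2 + 1) ^ 2 :=
      (dvd_pow_self p two_ne_zero).trans hw.2.2
    have h2 : p ∣ (30 * w.1) ^ 2 := (hw.2.1.mul_left 30).trans (dvd_pow_self _ two_ne_zero)
    exact hp.dvd_of_dvd_pow ((Nat.dvd_add_right h2).1 h1)
  refine (card_le_card hsub).trans ?_
  rw [card_product]
  refine Nat.mul_le_mul ?_ ?_
  · refine card_cls U p _ (filter_subset _ _) fun x hx y hy => ?_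
    rw [Nat.eq_zero_of_dvd_of_lt (Nat.dvd_of_mod_eq_zero (by
      rw [Nat.mod_mod, Nat.mod_eq_zero_of_dvd (mem_filter.1 hx).2])) (Nat.mod_lt x hp.pos),
      Nat.mod_eq_zero_of_dvd (mem_filter.1 hy).2]
  · refine card_cls U p _ (filter_subset _ _) fun x hx y hy => ?_
    apply mod_of h30
    have h1 : (p : ℤ) ∣ 30 * (x : ℤ) + 1 := by exact_mod_cast (mem_filter.1 hx).2
    have h2 : (p : ℤ) ∣ 30 * (y : ℤ) + 1 := by exact_mod_cast (mem_filter.1 hy).2
    have := dvd_sub h1 h2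
    have e : 30 * (x : ℤ) + 1 - (30 * (y : ℤ) + 1) = 30 * ((x : ℤ) - y) := by ring
    rwa [e] at this

/-- the number of the values divisible by a square -/
theorem card_bad (U p : ℕ) (hU : 1 ≤ U) (hp : p.Prime) (h7 : 7 ≤ p) :
    (((range U ×ˢ range U).filter fun w => p ^ 2 ∣ vl w.1 w.2).card : ℝ) ≤
      3 * (U : ℝ) ^ 2 * (1 / (p : ℝ) ^ 2) + 5 * U := by
  have h1 : ((range U ×ˢ range U).filter fun w => p ^ 2 ∣ vl w.1 w.2).card ≤
      U * (2 * (U / p ^ 2 + 1)) + (U / p + 1) * (U / p + 1) := by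
    have hsub : (range U ×ˢ range U).filter (fun w => p ^ 2 ∣ vl w.1 w.2) ⊆
        ((range U ×ˢ range U).filter fun w => ¬ p ∣ w.1 ∧ p ^ 2 ∣ vl w.1 w.2) ∪
        ((range U ×ˢ range U).filter fun w => p ∣ w.1 ∧ p ^ 2 ∣ vl w.1 w.2) := by
      intro w hw
      rw [mem_filter] at hw
      rw [mem_union, mem_filter, mem_filter]
      by_cases h : p ∣ w.1
      · exact Or.inr ⟨hw.1, h, hw.2⟩
      · exact Or.inl ⟨hw.1, h, hw.2⟩
    refine (card_le_card hsub).trans ((card_union_le _ _).trans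
      (Nat.add_le_add ?_ (card_uv U p hp h7)))
    have h2 : ((range U ×ˢ range U).filter fun w => ¬ p ∣ w.1 ∧ p ^ 2 ∣ vl w.1 w.2).card =
        ∑ u ∈ range U, (((range U ×ˢ range U).filter
          fun w => ¬ p ∣ w.1 ∧ p ^ 2 ∣ vl w.1 w.2).filter fun w => w.1 = u).card := by
      apply card_eq_sum_card_fiberwise
      intro w hw
      rw [mem_coe, mem_filter, mem_product] at hw
      exact mem_coe.2 hw.1.1
    rw [h2]
    have h3 : ∀ u ∈ range U, (((range U ×ˢ range U).filter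
          fun w => ¬ p ∣ w.1 ∧ p ^ 2 ∣ vl w.1 w.2).filter fun w => w.1 = u).card ≤
          2 * (U / p ^ 2 + 1) := by
      intro u _
      by_cases hu : p ∣ u
      · have : ((range U ×ˢ range U).filter
          fun w => ¬ p ∣ w.1 ∧ p ^ 2 ∣ vl w.1 w.2).filter (fun w => w.1 = u) = ∅ := by
          rw [eq_empty_iff_forall_notMem]
          intro w hw
          rw [mem_filter, mem_filter] at hw
          exact hw.1.2.1 (hw.2 ▸ hu)
        rw [this, card_empty]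
        exact Nat.zero_le _
      · refine le_trans ?_ (card_two U p hp h7 u hu)
        refine card_le_card_of_injOn (fun w => w.2) ?_ ?_
        · intro w hw
          rw [mem_coe, mem_filter, mem_filter, mem_product] at hw
          rw [mem_coe, mem_filter]
          refine ⟨hw.1.1.2, ?_⟩
          rw [← hw.2]
          exact hw.1.2.2
        · intro w hw w' hw' h
          rw [mem_coe, mem_filter] at hw hw'
          exact Prod.ext (hw.2.trans hw'.2.symm) h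
    refine (sum_le_sum h3).trans ?_
    rw [sum_const, card_range, smul_eq_mul]
  have h2 : (((range U ×ˢ range U).filter fun w => p ^ 2 ∣ vl w.1 w.2).card : ℝ) ≤
      U * (2 * (((U / p ^ 2 : ℕ) : ℝ) + 1)) + (((U / p : ℕ) : ℝ) + 1) * (((U / p : ℕ) : ℝ) + 1) := by
    exact_mod_cast h1
  have hp0 : (0 : ℝ) < p := by exact_mod_cast hp.pos
  have hU1 : (1 : ℝ) ≤ U := by exact_mod_cast hU
  have h3 : ((U / p ^ 2 : ℕ) : ℝ) ≤ U * (1 / (p : ℝ) ^ 2) := by
    refine Nat.cast_div_le.trans (le_of_eq ?_)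
    push_cast
    ring
  have h4 : ((U / p : ℕ) : ℝ) ≤ U * (1 / (p : ℝ)) := by
    refine Nat.cast_div_le.trans (le_of_eq ?_)
    ring
  have h5 : (U : ℝ) * (1 / (p : ℝ)) ≤ U := by
    rw [mul_one_div, div_le_iff₀ hp0]
    have : (1 : ℝ) ≤ p := by exact_mod_cast hp.one_lt.le
    nlinarith
  have h6 : (0 : ℝ) ≤ ((U / p : ℕ) : ℝ) := Nat.cast_nonneg _
  have h7 : (((U / p : ℕ) : ℝ) + 1) * (((U / p : ℕ) : ℝ) + 1) ≤
      (U * (1 / (p : ℝ)) + 1) * (U * (1 / (p : ℝ)) + 1) := by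
    apply mul_le_mul <;> linarith
  have h8 : (U * (1 / (p : ℝ)) + 1) * (U * (1 / (p : ℝ)) + 1) ≤
      (U : ℝ) ^ 2 * (1 / (p : ℝ) ^ 2) + 3 * U := by
    have e : (U * (1 / (p : ℝ)) + 1) * (U * (1 / (p : ℝ)) + 1) =
      (U : ℝ) ^ 2 * (1 / (p : ℝ) ^ 2) + 2 * (U * (1 / (p : ℝ))) + 1 := by
      field_simp
      ring
    rw [e]
    linarith
  have h9 : (U : ℝ) * (2 * (((U / p ^ 2 : ℕ) : ℝ) + 1)) ≤
      2 * ((U : ℝ) ^ 2 * (1 / (p : ℝ) ^ 2)) + 2 * U := by
    have : (U : ℝ) * ((U / p ^ 2 : ℕ) : ℝ) ≤ U * (U * (1 / (p : ℝ) ^ 2)) :=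
      mul_le_mul_of_nonneg_left h3 (by positivity)
    nlinarith
  calc _ ≤ _ := h2
    _ ≤ 2 * ((U : ℝ) ^ 2 * (1 / (p : ℝ) ^ 2)) + 2 * U +
        ((U : ℝ) ^ 2 * (1 / (p : ℝ) ^ 2) + 3 * U) := add_le_add h9 (h7.trans h8)
    _ = _ := by ring

/-- the sum of the squares of the reciprocals -/
theorem sum_sq (N : ℕ) : ∑ n ∈ Icc 7 N, (1 : ℝ) / (n : ℝ) ^ 2 ≤ 1 / 6 := by
  have key : ∀ N : ℕ, 6 ≤ N → ∑ n ∈ Icc 7 N, (1 : ℝ) / (n : ℝ) ^ 2 ≤ 1 / 6 - 1 / N := by
    intro N hN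
    induction N, hN using Nat.le_induction with
    | base => norm_num
    | succ n hn ih =>
      rw [Finset.sum_Icc_succ_top (by omega : 7 ≤ n + 1)]
      have hn0 : (6 : ℝ) ≤ n := by exact_mod_cast hn
      have h1 : (1 : ℝ) / ((n + 1 : ℕ) : ℝ) ^ 2 ≤ 1 / n - 1 / ((n + 1 : ℕ) : ℝ) := by
        push_cast
        have e : (1 : ℝ) / n - 1 / ((n : ℝ) + 1) = 1 / (n * (n + 1)) := by
          field_simp
          ring
        rw [e]
        apply one_div_le_one_div_of_le (by positivity)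
        nlinarith
      linarith
  rcases le_or_gt 6 N with h | h
  · have := key N h
    have h2 : (0 : ℝ) ≤ 1 / N := by positivity
    linarith
  · rw [Icc_eq_empty (by omega), sum_empty]
    norm_num

/-- a value which is not squarefree -/
theorem ex_prime {U u v : ℕ} (hu : u < U) (hv : v < U) (h : ¬ Squarefree (vl u v)) :
    ∃ p, p.Prime ∧ 7 ≤ p ∧ p ≤ 43 * U ∧ p ^ 2 ∣ vl u v := by
  rw [Nat.squarefree_iff_prime_squarefree] at h
  push Not at h
  obtain ⟨p, hp, hd⟩ := h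
  have hd' : p ∣ vl u v := (dvd_mul_right p p).trans hd
  have hn : ∀ q : ℕ, q ∣ 30 → 1 < q → ¬ q ∣ vl u v := by
    intro q hq hq1 hqd
    unfold vl at hqd
    obtain ⟨c, hc⟩ := hq
    have h1 : q ∣ (30 * u) ^ 2 + (30 * v) * (30 * v + 2) := by
      have a1 : q ∣ 30 * u := by rw [hc, mul_assoc]; exact dvd_mul_right _ _
      have a2 : q ∣ 30 * v := by rw [hc, mul_assoc]; exact dvd_mul_right _ _
      exact dvd_add (a1.trans (dvd_pow_self _ two_ne_zero)) (a2.mul_right _)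
    have e : (30 * u) ^ 2 + (30 * v + 1) ^ 2 = ((30 * u) ^ 2 + (30 * v) * (30 * v + 2)) + 1 := by
      ring
    rw [e] at hqd
    have h2 := (Nat.dvd_add_right h1).1 hqd
    have := Nat.le_of_dvd one_pos h2
    omega
  have h2 : p ≠ 2 := by rintro rfl; exact hn 2 (by norm_num) (by norm_num) hd'
  have h3 : p ≠ 3 := by rintro rfl; exact hn 3 (by norm_num) (by norm_num) hd'
  have h5 : p ≠ 5 := by rintro rfl; exact hn 5 (by norm_num) (by norm_num) hd'
  have h4 : p ≠ 4 := by rintro rfl; norm_num at hp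
  have h6 : p ≠ 6 := by rintro rfl; norm_num at hp
  have h7 : 7 ≤ p := by
    have := hp.two_le
    omega
  have h8 : p ^ 2 ∣ vl u v := by rw [sq]; exact hd
  refine ⟨p, hp, h7, ?_, h8⟩
  have hpos : 0 < vl u v := by
    unfold vl
    positivity
  have h9 := Nat.le_of_dvd hpos h8
  by_contra hc
  have h10 : 43 * U + 1 ≤ p := by omega
  have h11 : (43 * U + 1) ^ 2 ≤ vl u v := (Nat.pow_le_pow_left h10 2).trans h9
  unfold vl at h11
  have a1 : 30 * u ≤ 30 * U := by omega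
  have a2 : 30 * v + 1 ≤ 30 * U := by omega
  have a3 := Nat.pow_le_pow_left a1 2
  have a4 := Nat.pow_le_pow_left a2 2
  nlinarith

/-- the primes of a squarefree value -/
theorem cl_of {a b : ℤ} {D : ℕ} (h : (D : ℤ) = a ^ 2 + b ^ 2) (hs : Squarefree D) (ho : Odd D) :
    ∀ p ∈ D.primeFactors, p.Prime ∧ p % 4 = 1 := by
  intro p hp
  have hpp := Nat.prime_of_mem_primeFactors hp
  have hc : IsCoprime a b := by
    rw [Int.isCoprime_iff_gcd_eq_one]
    have h1 : (Int.gcd a b) ^ 2 ∣ D := by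
      have h2 : ((Int.gcd a b : ℕ) : ℤ) ^ 2 ∣ (D : ℤ) := by
        rw [h]
        exact dvd_add (pow_dvd_pow_of_dvd (Int.gcd_dvd_left a b) 2)
          (pow_dvd_pow_of_dvd (Int.gcd_dvd_right a b) 2)
      exact_mod_cast h2
    rw [sq] at h1
    exact Nat.isUnit_iff.1 (hs _ h1)
  have h3 := ZMod.isSquare_neg_one_of_eq_sq_add_sq_of_isCoprime h hc
  rw [Int.natAbs_natCast] at h3
  have h4 := Nat.mod_four_ne_three_of_mem_primeFactors_of_isSquare_neg_one hp h3
  refine ⟨hpp, ?_⟩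
  have h5 : p % 2 = 1 := by
    rcases hpp.eq_two_or_odd with h6 | h6
    · exfalso
      rw [h6] at hp
      have := Nat.dvd_of_mem_primeFactors hp
      rw [Nat.odd_iff] at ho
      omega
    · exact h6
  omega

end Pool.Agent.U80.WQ
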