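import Pool.Agent.U80.WQ.Low

/-!
# The lower bound for the weight of the class, second part
-/

set_option autoImplicit false

open scoped Classical

namespace Pool.Agent.U80.WQ

open Finset
open Pool.Agent.R413.SQ (Sp In SS Cl pr1 of_pr1)

/-- most of the values are squarefree -/
theorem good_vl : ∃ U₀ : ℕ, ∀ U : ℕ, U₀ ≤ U → (U : ℝ) ^ 2 / 4 ≤
    (((range U ×ˢ range U).filter fun w => Squarefree (vl w.1 w.2)).card : ℝ) := by
  have h1 : Filter.Tendsto (fun U : ℕ => 43 * (U : ℝ)) Filter.atTop Filter.atTop :=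
    Filter.Tendsto.const_mul_atTop (by norm_num) tendsto_natCast_atTop_atTop
  have h2 := h1.eventually (Chebyshev.eventually_primeCounting_le (ε := 1) one_pos)
  have h3 := (Real.tendsto_log_atTop.comp h1).eventually_ge_atTop 2580
  obtain ⟨U₀, hU₀⟩ := Filter.eventually_atTop.1 (h2.and (h3.and (Filter.eventually_ge_atTop 1)))
  refine ⟨U₀, fun U hU => ?_⟩
  obtain ⟨h4, h5, h6⟩ := hU₀ U hU
  have hU1 : (1 : ℝ) ≤ U := by exact_mod_cast h6
  have hl4 : Real.log 4 ≤ 2 := by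
    have h1 : (4 : ℝ) = 2 ^ 2 := by norm_num
    rw [h1, Real.log_pow]
    have := Real.log_two_lt_d9
    push_cast
    linarith
  have hl : (2580 : ℝ) ≤ Real.log (43 * (U : ℝ)) := h5
  have hpi : ((Nat.primeCounting (43 * U) : ℕ) : ℝ) ≤ U / 20 := by
    have e : ⌊43 * (U : ℝ)⌋₊ = 43 * U := by
      have : (43 * (U : ℝ)) = ((43 * U : ℕ) : ℝ) := by push_cast; ring
      rw [this, Nat.floor_natCast]
    rw [e] at h4
    refine h4.trans ?_
    rw [div_le_iff₀ (by linarith)]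
    have : 0 ≤ (U : ℝ) := by linarith
    nlinarith
  set P := (Icc 7 (43 * U)).filter Nat.Prime with hP
  have hPc : (P.card : ℝ) ≤ U / 20 := by
    refine le_trans ?_ hpi
    have : P ⊆ Nat.primesLE (43 * U) := by
      intro p hp
      rw [hP, mem_filter, mem_Icc] at hp
      rw [Nat.mem_primesLE]
      exact ⟨hp.1.2, hp.2⟩
    have h := card_le_card this
    rw [Nat.primesLE_card_eq_primeCounting] at h
    exact_mod_cast h
  set B := (range U ×ˢ range U).filter fun w => ¬ Squarefree (vl w.1 w.2) with hB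
  have hBs : B ⊆ P.biUnion fun p => (range U ×ˢ range U).filter fun w => p ^ 2 ∣ vl w.1 w.2 := by
    intro w hw
    rw [hB, mem_filter, mem_product, mem_range, mem_range] at hw
    obtain ⟨p, q1, q2, q3, q4⟩ := ex_prime hw.1.1 hw.1.2 hw.2
    rw [mem_biUnion]
    refine ⟨p, ?_, ?_⟩
    · rw [hP, mem_filter, mem_Icc]
      exact ⟨⟨q2, q3⟩, q1⟩
    · rw [mem_filter, mem_product, mem_range, mem_range]
      exact ⟨hw.1, q4⟩
  have hBc : (B.card : ℝ) ≤ ∑ p ∈ P, (3 * (U : ℝ) ^ 2 * (1 / (p : ℝ) ^ 2) + 5 * U) := by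
    have g := (card_le_card hBs).trans card_biUnion_le
    have g' : (B.card : ℝ) ≤ ∑ p ∈ P,
        (((range U ×ˢ range U).filter fun w => p ^ 2 ∣ vl w.1 w.2).card : ℝ) := by
      exact_mod_cast g
    refine g'.trans (sum_le_sum fun p hp => ?_)
    rw [hP, mem_filter, mem_Icc] at hp
    exact card_bad U p h6 hp.2 hp.1.1
  rw [sum_add_distrib, ← mul_sum, sum_const, nsmul_eq_mul] at hBc
  have hs : ∑ p ∈ P, (1 : ℝ) / (p : ℝ) ^ 2 ≤ 1 / 6 :=
    (sum_le_sum_of_subset_of_nonneg (filter_subset _ _) fun _ _ _ => by positivity).trans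
      (sum_sq (43 * U))
  have hB2 : (B.card : ℝ) ≤ 3 / 4 * (U : ℝ) ^ 2 := by
    have g1 : 3 * (U : ℝ) ^ 2 * ∑ p ∈ P, (1 : ℝ) / (p : ℝ) ^ 2 ≤ 3 * (U : ℝ) ^ 2 * (1 / 6) :=
      mul_le_mul_of_nonneg_left hs (by positivity)
    have g2 : (P.card : ℝ) * (5 * U) ≤ U / 20 * (5 * U) :=
      mul_le_mul_of_nonneg_right hPc (by positivity)
    nlinarith
  have htot : ((range U ×ˢ range U).filter fun w => Squarefree (vl w.1 w.2)).card + B.card =
      U * U := by
    rw [hB, card_filter_add_card_filter_not, card_product, card_range]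
  have htot' : (((range U ×ˢ range U).filter fun w => Squarefree (vl w.1 w.2)).card : ℝ) +
      B.card = U * U := by exact_mod_cast htot
  nlinarith

/-- the odd values -/
theorem vl_odd (u v : ℕ) : Odd (vl u v) := by
  unfold vl
  refine ⟨450 * u ^ 2 + 450 * v ^ 2 + 30 * v, ?_⟩
  ring

theorem vl_int (u v : ℕ) : ((vl u v : ℕ) : ℤ) = (30 * (u : ℤ)) ^ 2 + (30 * (v : ℤ) + 1) ^ 2 := by
  unfold vl
  push_cast
  ring

theorem prod_of {D : ℕ} (h : Squarefree D) : ∏ p ∈ D.primeFactors, p = D :=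
  Nat.prod_primeFactors_of_squarefree h

/-- a squarefree number whose primes are `1` modulo `4` -/
theorem mem_SS {D X : ℕ} (h : Squarefree D) (hX : D ≤ X)
    (h1 : ∀ p ∈ D.primeFactors, p.Prime ∧ p % 4 = 1) : D.primeFactors ∈ SS ∅ ∅ X := by
  unfold SS
  rw [mem_filter, mem_powerset, prod_of h]
  refine ⟨fun p hp => ?_, fun p hp => of_pr1 _ (h1 p hp).1 (h1 p hp).2, hX⟩
  have := Nat.le_of_dvd (Nat.pos_of_ne_zero h.ne_zero) (Nat.dvd_of_mem_primeFactors hp)
  exact mem_range.2 (by omega)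

/-- the number of the squarefree values is bounded by the weight -/
theorem card_le_four (U X : ℕ) (hX : 1800 * U ^ 2 ≤ X) :
    (((range U ×ˢ range U).filter fun w => Squarefree (vl w.1 w.2)).card : ℝ) ≤
      4 * wt (SS ∅ ∅ X) := by
  set G := (range U ×ˢ range U).filter fun w => Squarefree (vl w.1 w.2) with hG
  have hcl : ∀ w ∈ G, ∀ p ∈ (vl w.1 w.2).primeFactors, p.Prime ∧ p % 4 = 1 := by
    intro w hw
    rw [hG, mem_filter] at hw
    exact cl_of (vl_int w.1 w.2) hw.2 (vl_odd _ _)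
  have hmaps : ∀ w ∈ G, (vl w.1 w.2).primeFactors ∈ SS ∅ ∅ X := by
    intro w hw
    have hw' := hw
    rw [hG, mem_filter, mem_product, mem_range, mem_range] at hw
    refine mem_SS hw.2 (le_trans ?_ hX) (hcl w hw')
    unfold vl
    have a1 : 30 * w.1 ≤ 30 * U := by omega
    have a2 : 30 * w.2 + 1 ≤ 30 * U := by omega
    have a3 := Nat.pow_le_pow_left a1 2
    have a4 := Nat.pow_le_pow_left a2 2
    nlinarith
  have h1 : G.card = ∑ S ∈ SS ∅ ∅ X, (G.filter fun w => (vl w.1 w.2).primeFactors = S).card :=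
    card_eq_sum_card_fiberwise fun w hw => hmaps w hw
  have h2 : ∀ S ∈ SS ∅ ∅ X, (G.filter fun w => (vl w.1 w.2).primeFactors = S).card ≤
      4 * 2 ^ S.card := by
    intro S hS
    have hSp : ∀ p ∈ S, p.Prime ∧ p % 4 = 1 := by
      intro p hp
      unfold SS at hS
      rw [mem_filter] at hS
      exact pr1 (hS.2.1 p hp)
    rw [← NZ_prod S hSp, ← Set.ncard_coe_finset]
    refine Set.ncard_le_ncard_of_injOn
      (fun w : ℕ × ℕ => (⟨30 * (w.1 : ℤ), 30 * (w.2 : ℤ) + 1⟩ : GaussianInt)) ?_ ?_ (NZ_finite _)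
    · intro w hw
      rw [mem_coe, mem_filter] at hw
      have hw1 := (mem_filter.1 hw.1).2
      show _ = _
      rw [norm_eq, ← hw.2, prod_of hw1, vl_int]
    · intro w _ w' _ h
      simp only [Zsqrtd.mk.injEq] at h
      refine Prod.ext ?_ ?_
      · have := h.1
        omega
      · have := h.2
        omega
  have h3 : G.card ≤ ∑ S ∈ SS ∅ ∅ X, 4 * 2 ^ S.card := by
    rw [h1]
    exact sum_le_sum h2
  have h4 : (G.card : ℝ) ≤ ∑ S ∈ SS ∅ ∅ X, 4 * 2 ^ S.card := by exact_mod_cast h3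
  rw [← mul_sum] at h4
  exact h4

/-- **the lower bound** -/
theorem w_LOW : ∃ (c : ℝ) (X₀ : ℕ), 0 < c ∧ ∀ X : ℕ, X₀ ≤ X → c * X ≤ wt (SS ∅ ∅ X) := by
  obtain ⟨U₀, hU₀⟩ := good_vl
  refine ⟨1 / 230400, 3600 * (U₀ + 1) ^ 2, by norm_num, fun X hX => ?_⟩
  set U := Nat.sqrt X / 60 with hU
  have hs : 60 * (U₀ + 1) ≤ Nat.sqrt X := by
    rw [Nat.le_sqrt]
    nlinarith
  have hUU : U₀ + 1 ≤ U := by
    rw [hU, Nat.le_div_iff_mul_le (by norm_num)]
    omega
  have h1 : 1800 * U ^ 2 ≤ X := by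
    have a1 : U * 60 ≤ Nat.sqrt X := Nat.div_mul_le_self _ _
    have a2 := Nat.sqrt_le X
    nlinarith
  have h2 := (hU₀ U (by omega)).trans (card_le_four U X h1)
  have h3 : (X : ℝ) ≤ 14400 * (U : ℝ) ^ 2 := by
    have a1 : Nat.sqrt X + 1 ≤ 120 * U := by
      have : Nat.sqrt X < 60 * (U + 1) := by
        have := Nat.lt_mul_div_succ (Nat.sqrt X) (show 0 < 60 by norm_num)
        rw [← hU] at this
        exact this
      omega
    have a2 : X < (Nat.sqrt X + 1) ^ 2 := by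
      rw [sq]
      exact Nat.lt_succ_sqrt X
    have a3 : X ≤ 14400 * U ^ 2 := by
      have := Nat.pow_le_pow_left a1 2
      nlinarith
    exact_mod_cast a3
  linarith

end Pool.Agent.U80.WQ
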